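import Mathlib


set_option autoImplicit false

/-!
Module BHA. Brun-Hooley, combinatorial part, abstract finite sets.
ysum b B = sum of (-1)^#T over T ⊆ B with #T ≤ b; esum b B = number of T ⊆ B with #T = b + 1.
Bonferroni: for b even, 1[B = ∅] ≤ ysum b B ≤ 1[B = ∅] + esum b B. Product version over pairwise
disjoint blocks: for 0 ≤ x_j ≤ y_j ≤ x_j + e_j, ∏ x_j ≤ ∏ y_j ≤ ∏ x_j + sum_l e_l ∏_{j ≠ l} y_j.
-/

namespace Pool.Agent.Work.MP_2dba45_nt.Sv

open Finset

/-- truncated inclusion-exclusion with weights `g` -/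
noncomputable def ysum (b : ℕ) (g : ℕ → ℝ) (B : Finset ℕ) : ℝ :=
  ∑ T ∈ B.powerset.filter (fun T => #T ≤ b), (-1) ^ (#T) * ∏ p ∈ T, g p

/-- the next layer -/
noncomputable def esum (b : ℕ) (g : ℕ → ℝ) (B : Finset ℕ) : ℝ :=
  ∑ T ∈ B.powerset.filter (fun T => #T = b + 1), ∏ p ∈ T, g p

private theorem ysum_insert (b : ℕ) (g : ℕ → ℝ) (B : Finset ℕ) (a : ℕ) (ha : a ∉ B) :
    ysum (b + 1) g (insert a B) = ysum (b + 1) g B - g a * ysum b g B := by
  unfold ysum
  rw [Finset.sum_filter, Finset.sum_powerset_insert ha, Finset.sum_filter, Finset.sum_filter,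
    Finset.mul_sum, sub_eq_add_neg, ← Finset.sum_neg_distrib]
  congr 1
  refine Finset.sum_congr rfl fun T hT => ?_
  have haT : a ∉ T := fun h => ha (Finset.mem_powerset.1 hT h)
  rw [Finset.card_insert_of_notMem haT, Finset.prod_insert haT]
  by_cases h : #T ≤ b
  · rw [if_pos h, if_pos (Nat.succ_le_succ h)]
    ring
  · rw [if_neg h, if_neg (fun h' => h (Nat.le_of_succ_le_succ h'))]
    ring

private theorem ysum_zero (g : ℕ → ℝ) (B : Finset ℕ) : ysum 0 g B = 1 := by
  unfold ysum
  have : B.powerset.filter (fun T => #T ≤ 0) = {∅} := by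
    ext T
    simp only [Finset.mem_filter, Finset.mem_powerset, Finset.mem_singleton, nonpos_iff_eq_zero,
      Finset.card_eq_zero]
    constructor
    · exact fun h => h.2
    · rintro rfl
      exact ⟨Finset.empty_subset _, rfl⟩
  rw [this]
  simp

private theorem ysum_empty (b : ℕ) (g : ℕ → ℝ) : ysum b g ∅ = 1 := by
  unfold ysum
  have : (∅ : Finset ℕ).powerset.filter (fun T => #T ≤ b) = {∅} := by
    ext T
    simp only [Finset.mem_filter, Finset.mem_powerset, Finset.mem_singleton, Finset.subset_empty]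
    constructor
    · exact fun h => h.1
    · rintro rfl
      exact ⟨rfl, by simp⟩
  rw [this]
  simp

private theorem delta_nonneg (g : ℕ → ℝ) (B : Finset ℕ) (hg : ∀ p ∈ B, 0 ≤ g p ∧ g p ≤ 1) :
    ∀ b : ℕ, 0 ≤ (-1 : ℝ) ^ b * (ysum b g B - ∏ p ∈ B, (1 - g p)) := by
  classical
  induction B using Finset.induction_on with
  | empty => intro b; rw [ysum_empty]; simp
  | insert a B ha ih =>
    have hgB : ∀ p ∈ B, 0 ≤ g p ∧ g p ≤ 1 := fun p hp => hg p (Finset.mem_insert_of_mem hp)
    have hga := hg a (Finset.mem_insert_self _ _)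
    intro b
    cases b with
    | zero =>
      rw [ysum_zero, pow_zero, one_mul, sub_nonneg]
      refine Finset.prod_le_one (fun p hp => ?_) (fun p hp => ?_)
      · linarith [(hg p hp).2]
      · linarith [(hg p hp).1]
    | succ b =>
      rw [ysum_insert b g B a ha, Finset.prod_insert ha]
      have h1 := ih hgB (b + 1)
      have h2 := ih hgB b
      have h3 : (-1 : ℝ) ^ (b + 1) * (ysum (b + 1) g B - g a * ysum b g B -
          (1 - g a) * ∏ p ∈ B, (1 - g p)) =
          (-1 : ℝ) ^ (b + 1) * (ysum (b + 1) g B - ∏ p ∈ B, (1 - g p)) +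
          g a * ((-1 : ℝ) ^ b * (ysum b g B - ∏ p ∈ B, (1 - g p))) := by
        rw [pow_succ]; ring
      rw [h3]
      exact add_nonneg h1 (mul_nonneg hga.1 h2)

theorem ysum_ge (b : ℕ) (hb : Even b) (g : ℕ → ℝ) (B : Finset ℕ)
    (hg : ∀ p ∈ B, 0 ≤ g p ∧ g p ≤ 1) : ∏ p ∈ B, (1 - g p) ≤ ysum b g B := by
  have h := delta_nonneg g B hg b
  rw [hb.neg_one_pow, one_mul] at h
  linarith

theorem ysum_le (b : ℕ) (hb : Even b) (g : ℕ → ℝ) (B : Finset ℕ)
    (hg : ∀ p ∈ B, 0 ≤ g p ∧ g p ≤ 1) : ysum b g B ≤ ∏ p ∈ B, (1 - g p) + esum b g B := by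
  have h := delta_nonneg g B hg (b + 1)
  have h1 : ysum (b + 1) g B = ysum b g B - esum b g B := by
    unfold ysum esum
    rw [Finset.sum_filter, Finset.sum_filter, Finset.sum_filter, ← Finset.sum_sub_distrib]
    refine Finset.sum_congr rfl fun T hT => ?_
    by_cases h2 : #T ≤ b
    · rw [if_pos h2, if_pos (by omega), if_neg (by omega)]
      ring
    · rw [if_neg h2]
      by_cases h3 : #T = b + 1
      · rw [if_pos h3, if_pos (by omega), h3, pow_succ, hb.neg_one_pow]
        ring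
      · rw [if_neg h3, if_neg (by omega)]
        ring
  rw [pow_succ, hb.neg_one_pow, h1] at h
  linarith

private theorem esum_insert (b : ℕ) (g : ℕ → ℝ) (B : Finset ℕ) (a : ℕ) (ha : a ∉ B) :
    esum (b + 1) g (insert a B) = esum (b + 1) g B + g a * esum b g B := by
  unfold esum
  rw [Finset.sum_filter, Finset.sum_powerset_insert ha, Finset.sum_filter, Finset.sum_filter,
    Finset.mul_sum]
  congr 1
  refine Finset.sum_congr rfl fun T hT => ?_
  have haT : a ∉ T := fun h => ha (Finset.mem_powerset.1 hT h)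
  rw [Finset.card_insert_of_notMem haT, Finset.prod_insert haT]
  by_cases h : #T = b + 1
  · rw [if_pos h, if_pos (by omega)]
  · rw [if_neg h, if_neg (by omega)]
    ring

private theorem esum_zero (g : ℕ → ℝ) (B : Finset ℕ) : esum 0 g B = ∑ p ∈ B, g p := by
  classical
  unfold esum
  rw [← Finset.powersetCard_eq_filter, zero_add, Finset.powersetCard_one, Finset.sum_map]
  simp

theorem esum_nonneg (b : ℕ) (g : ℕ → ℝ) (B : Finset ℕ) (hg : ∀ p ∈ B, 0 ≤ g p) :
    0 ≤ esum b g B := by
  unfold esum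
  refine Finset.sum_nonneg fun T hT => Finset.prod_nonneg fun p hp => hg p ?_
  exact Finset.mem_powerset.1 (Finset.mem_filter.1 hT).1 hp

private theorem bern (S x : ℝ) (hS : 0 ≤ S) (hx : 0 ≤ x) (k : ℕ) :
    S ^ (k + 1) + (k + 1) * x * S ^ k ≤ (S + x) ^ (k + 1) := by
  induction k with
  | zero => simp
  | succ k ih =>
    have h1 : (S + x) ^ (k + 1 + 1) = (S + x) ^ (k + 1) * (S + x) := pow_succ _ _
    rw [h1]
    have h2 : (S ^ (k + 1) + (k + 1) * x * S ^ k) * (S + x) ≤ (S + x) ^ (k + 1) * (S + x) :=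
      mul_le_mul_of_nonneg_right ih (by linarith)
    refine le_trans ?_ h2
    push_cast
    have h3 : 0 ≤ ((k : ℝ) + 1) * x * S ^ k * x := by positivity
    have h4 : S ^ (k + 1 + 1) + ((k : ℝ) + 1 + 1) * x * S ^ (k + 1) +
        ((k : ℝ) + 1) * x * S ^ k * x = (S ^ (k + 1) + (k + 1) * x * S ^ k) * (S + x) := by ring
    linarith [h3, h4]

theorem esum_le (b : ℕ) (g : ℕ → ℝ) (B : Finset ℕ) (hg : ∀ p ∈ B, 0 ≤ g p) :
    esum b g B ≤ (∑ p ∈ B, g p) ^ (b + 1) / (b + 1).factorial := by
  classical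
  induction B using Finset.induction_on generalizing b with
  | empty =>
    unfold esum
    have : (∅ : Finset ℕ).powerset.filter (fun T => #T = b + 1) = ∅ := by
      ext T
      simp only [Finset.mem_filter, Finset.mem_powerset, Finset.subset_empty, Finset.notMem_empty,
        iff_false, not_and]
      rintro rfl
      simp
    rw [this]
    simp
  | insert a B ha ih =>
    have hgB : ∀ p ∈ B, 0 ≤ g p := fun p hp => hg p (Finset.mem_insert_of_mem hp)
    have hga := hg a (Finset.mem_insert_self _ _)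
    cases b with
    | zero => rw [esum_zero]; simp
    | succ b =>
      rw [esum_insert b g B a ha, Finset.sum_insert ha]
      have h1 := ih (b + 1) hgB
      have h2 := ih b hgB
      set S := ∑ p ∈ B, g p with hS
      have hS0 : 0 ≤ S := Finset.sum_nonneg hgB
      have h3 := bern S (g a) hS0 hga (b + 1)
      have hf : (0 : ℝ) < (b + 1 + 1).factorial := by exact_mod_cast Nat.factorial_pos _
      have hf' : (0 : ℝ) < (b + 1).factorial := by exact_mod_cast Nat.factorial_pos _
      have hff : ((b + 1 + 1).factorial : ℝ) = ((b : ℝ) + 1 + 1) * (b + 1).factorial := by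
        rw [Nat.factorial_succ (b + 1)]
        push_cast
        ring
      have h4 : g a * esum b g B ≤ g a * (S ^ (b + 1) / (b + 1).factorial) :=
        mul_le_mul_of_nonneg_left h2 hga
      refine le_trans (add_le_add h1 h4) ?_
      have h5 : S ^ (b + 1 + 1) / (b + 1 + 1).factorial + g a * (S ^ (b + 1) / (b + 1).factorial) =
          (S ^ (b + 1 + 1) + ((b : ℝ) + 1 + 1) * g a * S ^ (b + 1)) / (b + 1 + 1).factorial := by
        rw [hff]
        field_simp
      rw [h5]
      refine div_le_div_of_nonneg_right ?_ hf.le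
      have h6 : S + g a = S + g a := rfl
      rw [add_comm (g a) S]
      push_cast at h3
      linarith [h3]

/-- Hooley's product inequality -/
theorem hooley {ι : Type*} [DecidableEq ι] (s : Finset ι) (x y e : ι → ℝ)
    (hx : ∀ j ∈ s, 0 ≤ x j) (hxy : ∀ j ∈ s, x j ≤ y j) (hye : ∀ j ∈ s, y j ≤ x j + e j) :
    ∏ j ∈ s, x j ≤ ∏ j ∈ s, y j ∧
      ∏ j ∈ s, y j - ∏ j ∈ s, x j ≤ ∑ l ∈ s, e l * ∏ j ∈ s.erase l, y j := by
  refine ⟨Finset.prod_le_prod hx hxy, ?_⟩
  induction s using Finset.induction_on with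
  | empty => simp
  | insert a s ha ih =>
    have hx' : ∀ j ∈ s, 0 ≤ x j := fun j hj => hx j (Finset.mem_insert_of_mem hj)
    have hxy' : ∀ j ∈ s, x j ≤ y j := fun j hj => hxy j (Finset.mem_insert_of_mem hj)
    have hye' : ∀ j ∈ s, y j ≤ x j + e j := fun j hj => hye j (Finset.mem_insert_of_mem hj)
    have h1 := ih hx' hxy' hye'
    have hxa := hx a (Finset.mem_insert_self _ _)
    have hxya := hxy a (Finset.mem_insert_self _ _)
    have hyea := hye a (Finset.mem_insert_self _ _)
    rw [Finset.prod_insert ha, Finset.prod_insert ha, Finset.sum_insert ha,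
      Finset.erase_insert ha]
    have h2 : ∑ l ∈ s, e l * ∏ j ∈ (insert a s).erase l, y j =
        y a * ∑ l ∈ s, e l * ∏ j ∈ s.erase l, y j := by
      rw [Finset.mul_sum]
      refine Finset.sum_congr rfl fun l hl => ?_
      have hal : a ≠ l := fun h => ha (h ▸ hl)
      rw [Finset.erase_insert_of_ne hal, Finset.prod_insert
        (fun h => ha (Finset.mem_of_mem_erase h))]
      ring
    rw [h2]
    have hpx : 0 ≤ ∏ j ∈ s, x j := Finset.prod_nonneg hx'
    have hpxy : ∏ j ∈ s, x j ≤ ∏ j ∈ s, y j := Finset.prod_le_prod hx' hxy'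
    have h3 : y a * (∏ j ∈ s, y j - ∏ j ∈ s, x j) ≤
        y a * ∑ l ∈ s, e l * ∏ j ∈ s.erase l, y j :=
      mul_le_mul_of_nonneg_left h1 (hxa.trans hxya)
    have h4 : (y a - x a) * ∏ j ∈ s, x j ≤ e a * ∏ j ∈ s, x j :=
      mul_le_mul_of_nonneg_right (by linarith) hpx
    have h5 : e a * ∏ j ∈ s, x j ≤ e a * ∏ j ∈ s, y j :=
      mul_le_mul_of_nonneg_left hpxy (by linarith)
    nlinarith [h3, h4, h5]

end Pool.Agent.Work.MP_2dba45_nt.Sv
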