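import Mathlib
import Pool.Agent.Work.MP_2dba45_nt.Sv.BHa

set_option autoImplicit false

/-!
Module BHB. Brun-Hooley weights for an abstract family of disjoint blocks A j (j in s) of P with
even parameters b j. Coefficients: lw d = (-1)^#d if d ⊆ ∪ A j and #(d ∩ A j) ≤ b j for all j, else 0;
dw d = sum over l in s of [ #(d ∩ A l) = b l + 1 and #(d ∩ A j) ≤ b j for j ≠ l ] *
(-1)^(#d - (b l + 1)). For any g the sum over d ⊆ ∪ A j of lw d ∏ g = ∏_j ysum (b j) g (A j) and
the sum of dw d ∏ g = sum_l esum (b l) g (A l) ∏_{j ≠ l} ysum (b j) g (A j) (d ↔ (d ∩ A j)_j). For a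
subset B use g = indicator of B (or restrict the blocks to B).
-/

namespace Pool.Agent.Work.MP_2dba45_nt.Sv

open Finset

open Classical in
/-- coefficients of the upper bound weights -/
noncomputable def lw {ι : Type*} (s : Finset ι) (A : ι → Finset ℕ) (b : ι → ℕ) (d : Finset ℕ) : ℝ :=
  if d ⊆ s.biUnion A ∧ ∀ j ∈ s, #(d ∩ A j) ≤ b j then (-1) ^ (#d) else 0

open Classical in
/-- coefficients of the error weights -/
noncomputable def dw {ι : Type*} (s : Finset ι) (A : ι → Finset ℕ) (b : ι → ℕ) (d : Finset ℕ) : ℝ :=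
  ∑ l ∈ s, if d ⊆ s.biUnion A ∧ #(d ∩ A l) = b l + 1 ∧ ∀ j ∈ s, j ≠ l → #(d ∩ A j) ≤ b j then
    (-1) ^ (#d - (b l + 1)) else 0

private theorem sum_union (X Y : Finset ℕ) (hXY : Disjoint X Y) (F : Finset ℕ → ℝ) :
    ∑ d ∈ (X ∪ Y).powerset, F d = ∑ u ∈ X.powerset, ∑ v ∈ Y.powerset, F (u ∪ v) := by
  rw [← Finset.sum_product']
  have hd : ∀ x, x ∈ X → x ∉ Y := fun x hx hy => Finset.disjoint_left.1 hXY hx hy
  refine Finset.sum_bij' (fun d _ => (d ∩ X, d ∩ Y)) (fun q _ => q.1 ∪ q.2) ?_ ?_ ?_ ?_ ?_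
  · intro d _
    simp only [Finset.mem_product, Finset.mem_powerset]
    exact ⟨Finset.inter_subset_right, Finset.inter_subset_right⟩
  · intro q hq
    simp only [Finset.mem_product, Finset.mem_powerset] at hq
    exact Finset.mem_powerset.2 (Finset.union_subset_union hq.1 hq.2)
  · intro d hd'
    have h := Finset.mem_powerset.1 hd'
    rw [← Finset.inter_union_distrib_left]
    exact Finset.inter_eq_left.2 h
  · intro q hq
    simp only [Finset.mem_product, Finset.mem_powerset] at hq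
    ext x
    · simp only [Finset.mem_inter, Finset.mem_union]
      constructor
      · rintro ⟨h1 | h1, h2⟩
        · exact h1
        · exact absurd (hq.2 h1) (hd x h2)
      · exact fun h1 => ⟨Or.inl h1, hq.1 h1⟩
    · simp only [Finset.mem_inter, Finset.mem_union]
      constructor
      · rintro ⟨h1 | h1, h2⟩
        · exact absurd h2 (hd x (hq.1 h1))
        · exact h1
      · exact fun h1 => ⟨Or.inr h1, hq.2 h1⟩
  · intro d hd'
    have h := Finset.mem_powerset.1 hd'
    rw [← Finset.inter_union_distrib_left, Finset.inter_eq_left.2 h]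

/-- the product formula for coefficients that factor over the blocks -/
private theorem sum_prod_coef {ι : Type*} [DecidableEq ι] (s : Finset ι) (A : ι → Finset ℕ)
    (c : ι → Finset ℕ → ℝ)
    (hA : ∀ i ∈ s, ∀ j ∈ s, i ≠ j → Disjoint (A i) (A j)) (g : ℕ → ℝ) :
    ∑ d ∈ (s.biUnion A).powerset, (∏ j ∈ s, c j (d ∩ A j)) * ∏ p ∈ d, g p =
      ∏ j ∈ s, ∑ u ∈ (A j).powerset, c j u * ∏ p ∈ u, g p := by
  induction s using Finset.induction_on with
  | empty => simp
  | insert a s ha ih =>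
    have hA' : ∀ i ∈ s, ∀ j ∈ s, i ≠ j → Disjoint (A i) (A j) := fun i hi j hj =>
      hA i (Finset.mem_insert_of_mem hi) j (Finset.mem_insert_of_mem hj)
    have hdisj : Disjoint (A a) (s.biUnion A) := by
      rw [Finset.disjoint_biUnion_right]
      intro j hj
      exact hA a (Finset.mem_insert_self _ _) j (Finset.mem_insert_of_mem hj)
        (fun h => ha (h ▸ hj))
    rw [Finset.biUnion_insert, sum_union _ _ hdisj, Finset.prod_insert ha, ← ih hA',
      Finset.sum_mul_sum]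
    refine Finset.sum_congr rfl fun u hu => Finset.sum_congr rfl fun v hv => ?_
    have hu' := Finset.mem_powerset.1 hu
    have hv' := Finset.mem_powerset.1 hv
    have huv : Disjoint u v := Finset.disjoint_of_subset_left hu'
      (Finset.disjoint_of_subset_right hv' hdisj)
    rw [Finset.prod_insert ha, Finset.prod_union huv]
    have h1 : (u ∪ v) ∩ A a = u := by
      rw [Finset.union_inter_distrib_right, Finset.inter_eq_left.2 hu']
      have : v ∩ A a = ∅ := Finset.disjoint_iff_inter_eq_empty.1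
        (Finset.disjoint_of_subset_left hv' hdisj.symm)
      rw [this, Finset.union_empty]
    have h2 : ∀ j ∈ s, (u ∪ v) ∩ A j = v ∩ A j := by
      intro j hj
      rw [Finset.union_inter_distrib_right]
      have : u ∩ A j = ∅ := Finset.disjoint_iff_inter_eq_empty.1
        (Finset.disjoint_of_subset_left hu' (hA a (Finset.mem_insert_self _ _) j
          (Finset.mem_insert_of_mem hj) (fun h => ha (h ▸ hj))))
      rw [this, Finset.empty_union]
    rw [h1, Finset.prod_congr rfl (fun j hj => by rw [h2 j hj])]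
    ring

private theorem card_eq_sum {ι : Type*} [DecidableEq ι] (s : Finset ι) (A : ι → Finset ℕ)
    (hA : ∀ i ∈ s, ∀ j ∈ s, i ≠ j → Disjoint (A i) (A j)) (d : Finset ℕ)
    (hd : d ⊆ s.biUnion A) : #d = ∑ j ∈ s, #(d ∩ A j) := by
  have h1 : d = s.biUnion (fun j => d ∩ A j) := by
    ext x
    simp only [Finset.mem_biUnion, Finset.mem_inter]
    constructor
    · intro hx
      obtain ⟨j, hj, hxj⟩ := Finset.mem_biUnion.1 (hd hx)
      exact ⟨j, hj, hx, hxj⟩
    · rintro ⟨j, _, hx, _⟩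
      exact hx
  conv_lhs => rw [h1]
  rw [Finset.card_biUnion]
  intro i hi j hj hij
  exact Finset.disjoint_of_subset_left Finset.inter_subset_right
    (Finset.disjoint_of_subset_right Finset.inter_subset_right (hA i hi j hj hij))

/-- block coefficients of the upper bound weights -/
private noncomputable def cl (b : ℕ) (u : Finset ℕ) : ℝ := if #u ≤ b then (-1) ^ (#u) else 0

private theorem sum_cl (b : ℕ) (g : ℕ → ℝ) (B : Finset ℕ) :
    ∑ u ∈ B.powerset, cl b u * ∏ p ∈ u, g p = ysum b g B := by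
  unfold ysum cl
  rw [Finset.sum_filter]
  refine Finset.sum_congr rfl fun u _ => ?_
  split_ifs
  · rfl
  · rw [zero_mul]

private theorem lw_eq {ι : Type*} [DecidableEq ι] (s : Finset ι) (A : ι → Finset ℕ) (b : ι → ℕ)
    (hA : ∀ i ∈ s, ∀ j ∈ s, i ≠ j → Disjoint (A i) (A j)) (d : Finset ℕ)
    (hd : d ⊆ s.biUnion A) : lw s A b d = ∏ j ∈ s, cl (b j) (d ∩ A j) := by
  classical
  unfold lw cl
  by_cases h : ∀ j ∈ s, #(d ∩ A j) ≤ b j
  · rw [if_pos ⟨by convert hd, by convert h⟩, Finset.prod_congr rfl (fun j hj => if_pos (h j hj)),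
      Finset.prod_pow_eq_pow_sum, ← card_eq_sum s A hA d hd]
  · rw [if_neg (fun h' => h (by convert h'.2))]
    push Not at h
    obtain ⟨j, hj, hlt⟩ := h
    exact (Finset.prod_eq_zero hj (if_neg (not_le.2 hlt))).symm

theorem sum_lw {ι : Type*} [DecidableEq ι] (s : Finset ι) (A : ι → Finset ℕ) (b : ι → ℕ)
    (hA : ∀ i ∈ s, ∀ j ∈ s, i ≠ j → Disjoint (A i) (A j)) (g : ℕ → ℝ) :
    ∑ d ∈ (s.biUnion A).powerset, lw s A b d * ∏ p ∈ d, g p = ∏ j ∈ s, ysum (b j) g (A j) := by
  rw [← Finset.prod_congr rfl (fun j _ => sum_cl (b j) g (A j)),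
    ← sum_prod_coef s A (fun j => cl (b j)) hA g]
  refine Finset.sum_congr rfl fun d hd => ?_
  rw [lw_eq s A b hA d (Finset.mem_powerset.1 hd)]

/-- block coefficients of the error weights -/
private noncomputable def ce {ι : Type*} [DecidableEq ι] (b : ι → ℕ) (l j : ι) (u : Finset ℕ) : ℝ :=
  if j = l then (if #u = b j + 1 then 1 else 0) else cl (b j) u

private theorem sum_ce {ι : Type*} [DecidableEq ι] (b : ι → ℕ) (l j : ι) (g : ℕ → ℝ)
    (B : Finset ℕ) :
    ∑ u ∈ B.powerset, ce b l j u * ∏ p ∈ u, g p =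
      if j = l then esum (b j) g B else ysum (b j) g B := by
  unfold ce
  by_cases h : j = l
  · simp only [if_pos h]
    unfold esum
    rw [Finset.sum_filter]
    refine Finset.sum_congr rfl fun u _ => ?_
    split_ifs
    · rw [one_mul]
    · rw [zero_mul]
  · simp only [if_neg h]
    exact sum_cl _ _ _

private theorem dw_eq {ι : Type*} [DecidableEq ι] (s : Finset ι) (A : ι → Finset ℕ) (b : ι → ℕ)
    (hA : ∀ i ∈ s, ∀ j ∈ s, i ≠ j → Disjoint (A i) (A j)) (d : Finset ℕ)
    (hd : d ⊆ s.biUnion A) : dw s A b d = ∑ l ∈ s, ∏ j ∈ s, ce b l j (d ∩ A j) := by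
  classical
  unfold dw
  refine Finset.sum_congr rfl fun l hl => ?_
  rw [← Finset.mul_prod_erase s _ hl]
  have h0 : ce b l l (d ∩ A l) = if #(d ∩ A l) = b l + 1 then 1 else 0 := by
    unfold ce
    rw [if_pos rfl]
  have h1 : ∀ j ∈ s.erase l, ce b l j (d ∩ A j) = cl (b j) (d ∩ A j) := by
    intro j hj
    unfold ce
    rw [if_neg (Finset.ne_of_mem_erase hj)]
  rw [h0, Finset.prod_congr rfl h1]
  have hcard := card_eq_sum s A hA d hd
  rw [← Finset.add_sum_erase s _ hl] at hcard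
  by_cases h2 : #(d ∩ A l) = b l + 1
  · by_cases h3 : ∀ j ∈ s, j ≠ l → #(d ∩ A j) ≤ b j
    · rw [if_pos ⟨by convert hd, by convert h2, by convert h3⟩, if_pos h2, one_mul]
      have h4 : ∀ j ∈ s.erase l, cl (b j) (d ∩ A j) = (-1) ^ (#(d ∩ A j)) := by
        intro j hj
        unfold cl
        rw [if_pos (h3 j (Finset.mem_of_mem_erase hj) (Finset.ne_of_mem_erase hj))]
      rw [Finset.prod_congr rfl h4, Finset.prod_pow_eq_pow_sum]
      congr 1
      omega
    · rw [if_neg (fun h' => h3 (by convert h'.2.2)), if_pos h2, one_mul]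
      push Not at h3
      obtain ⟨j, hj, hjl, hlt⟩ := h3
      exact (Finset.prod_eq_zero (Finset.mem_erase.2 ⟨hjl, hj⟩) (if_neg (not_le.2 hlt))).symm
  · rw [if_neg (fun h' => h2 (by convert h'.2.1)), if_neg h2, zero_mul]

theorem sum_dw {ι : Type*} [DecidableEq ι] (s : Finset ι) (A : ι → Finset ℕ) (b : ι → ℕ)
    (hA : ∀ i ∈ s, ∀ j ∈ s, i ≠ j → Disjoint (A i) (A j)) (g : ℕ → ℝ) :
    ∑ d ∈ (s.biUnion A).powerset, dw s A b d * ∏ p ∈ d, g p =
      ∑ l ∈ s, esum (b l) g (A l) * ∏ j ∈ s.erase l, ysum (b j) g (A j) := by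
  have h1 : ∀ l ∈ s, esum (b l) g (A l) * ∏ j ∈ s.erase l, ysum (b j) g (A j) =
      ∑ d ∈ (s.biUnion A).powerset, (∏ j ∈ s, ce b l j (d ∩ A j)) * ∏ p ∈ d, g p := by
    intro l hl
    rw [sum_prod_coef s A (fun j => ce b l j) hA g,
      Finset.prod_congr rfl (fun j _ => sum_ce b l j g (A j)), ← Finset.mul_prod_erase s _ hl,
      if_pos rfl]
    congr 1
    refine Finset.prod_congr rfl fun j hj => ?_
    rw [if_neg (Finset.ne_of_mem_erase hj)]
  rw [Finset.sum_congr rfl h1, Finset.sum_comm]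
  refine Finset.sum_congr rfl fun d hd => ?_
  rw [dw_eq s A b hA d (Finset.mem_powerset.1 hd), Finset.sum_mul]

private theorem sum_restrict (X B : Finset ℕ) (hB : B ⊆ X) (c : Finset ℕ → ℝ) :
    ∑ d ∈ X.powerset, c d * ∏ p ∈ d, (if p ∈ B then (1 : ℝ) else 0) =
      ∑ d ∈ B.powerset, c d := by
  rw [← Finset.sum_subset (Finset.powerset_mono.2 hB)]
  · refine Finset.sum_congr rfl fun d hd => ?_
    rw [Finset.prod_congr rfl (fun p hp => if_pos (Finset.mem_powerset.1 hd hp))]
    simp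
  · intro d _ hd
    have h1 : ∃ p ∈ d, p ∉ B := by
      by_contra h
      push Not at h
      exact hd (Finset.mem_powerset.2 h)
    obtain ⟨p, hp, hpB⟩ := h1
    rw [Finset.prod_eq_zero hp (if_neg hpB), mul_zero]

theorem lw_sub {ι : Type*} [DecidableEq ι] (s : Finset ι) (A : ι → Finset ℕ) (b : ι → ℕ)
    (hb : ∀ j ∈ s, Even (b j)) (hA : ∀ i ∈ s, ∀ j ∈ s, i ≠ j → Disjoint (A i) (A j))
    (B : Finset ℕ) (hB : B ⊆ s.biUnion A) :
    (if B = ∅ then (1 : ℝ) else 0) ≤ ∑ d ∈ B.powerset, lw s A b d ∧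
      ∑ d ∈ B.powerset, lw s A b d - (if B = ∅ then (1 : ℝ) else 0) ≤
        ∑ d ∈ B.powerset, dw s A b d := by
  set g : ℕ → ℝ := fun p => if p ∈ B then (1 : ℝ) else 0 with hg
  have hg01 : ∀ p, 0 ≤ g p ∧ g p ≤ 1 := by
    intro p
    simp only [hg]
    split_ifs <;> norm_num
  have h1 : ∑ d ∈ B.powerset, lw s A b d = ∏ j ∈ s, ysum (b j) g (A j) := by
    rw [← sum_lw s A b hA g, ← sum_restrict _ B hB]
  have h2 : ∑ d ∈ B.powerset, dw s A b d =
      ∑ l ∈ s, esum (b l) g (A l) * ∏ j ∈ s.erase l, ysum (b j) g (A j) := by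
    rw [← sum_dw s A b hA g, ← sum_restrict _ B hB]
  have h3 : (if B = ∅ then (1 : ℝ) else 0) = ∏ j ∈ s, ∏ p ∈ A j, (1 - g p) := by
    rw [← Finset.prod_biUnion (fun i hi j hj hij => hA i hi j hj hij)]
    by_cases hBe : B = ∅
    · rw [if_pos hBe]
      refine (Finset.prod_eq_one fun p _ => ?_).symm
      simp [hg, hBe]
    · rw [if_neg hBe]
      obtain ⟨p, hp⟩ := Finset.nonempty_iff_ne_empty.2 hBe
      refine (Finset.prod_eq_zero (hB hp) ?_).symm
      simp [hg, hp]
  rw [h1, h2, h3]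
  refine hooley s _ _ (fun l => esum (b l) g (A l)) (fun j _ => ?_) (fun j hj => ?_)
    (fun j hj => ?_)
  · exact Finset.prod_nonneg fun p _ => by linarith [(hg01 p).2]
  · exact ysum_ge (b j) (hb j hj) g (A j) (fun p _ => hg01 p)
  · exact ysum_le (b j) (hb j hj) g (A j) (fun p _ => hg01 p)

end Pool.Agent.Work.MP_2dba45_nt.Sv
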