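import Mathlib
import Pool.Agent.Work.MP_2dba45_nt.Sv.BHb

set_option autoImplicit false

/-!
Module BHC. Brun-Hooley fundamental lemma. Blocks j = 1..t: A j = primes p of P with
z^(2^-j) ≤ p < z^(2^-(j-1)), t with z^(2^-t) ≤ 2; b j = 2 (b + j). Level: sum_j 2^(1-j) (b j + 1) ≤ 4 b + 10.
With V_j = ∏_{A j} (1 - g p) ≥ exp(-2 L₀) (1 - x ≥ exp(-2x) for 0 ≤ x ≤ 1/2):
e_j := esum/V_j ≤ exp(2 L₀) L₀^(b j+1)/(b j+1)!, sum_j e_j ≤ exp(-b)/4 for b ≥ b₀(L₀),
ysum ≤ V_j (1 + e_j), ∏ (1 + e_j) ≤ 2.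
-/

namespace Pool.Agent.Work.MP_2dba45_nt.Sv

open Finset

private theorem exp_neg_two_mul_le (x : ℝ) (h0 : 0 ≤ x) (h1 : x ≤ 1 / 2) :
    Real.exp (-(2 * x)) ≤ 1 - x := by
  have h2 : 0 < 1 - x := by linarith
  have h3 := Real.one_sub_inv_le_log_of_pos h2
  rw [← Real.le_log_iff_exp_le h2]
  refine le_trans ?_ h3
  have h4 : (1 - x)⁻¹ ≤ 1 + 2 * x := by
    rw [inv_le_comm₀ h2 (by linarith)]
    rw [inv_le_iff_one_le_mul₀ (by linarith)]
    nlinarith
  linarith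

/-- the end points of the blocks -/
private noncomputable def yy (z i : ℕ) : ℝ := (z : ℝ) ^ ((1 / 2 : ℝ) ^ i)

private theorem yy_zero (z : ℕ) : yy z 0 = z := by
  unfold yy
  rw [pow_zero, Real.rpow_one]

private theorem yy_sq (z i : ℕ) : yy z (i + 1) ^ 2 = yy z i := by
  unfold yy
  rw [← Real.rpow_natCast, ← Real.rpow_mul (Nat.cast_nonneg z)]
  congr 1
  rw [pow_succ]
  push_cast
  ring

private theorem one_le_yy (z i : ℕ) (hz : 2 ≤ z) : 1 ≤ yy z i := by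
  unfold yy
  exact Real.one_le_rpow (by exact_mod_cast (by omega : 1 ≤ z)) (by positivity)

private theorem yy_succ_le (z i : ℕ) (hz : 2 ≤ z) : yy z (i + 1) ≤ yy z i := by
  rw [← yy_sq z i]
  have := one_le_yy z (i + 1) hz
  nlinarith

private theorem yy_anti (z : ℕ) (hz : 2 ≤ z) : Antitone (yy z) :=
  antitone_nat_of_succ_le fun i => yy_succ_le z i hz

private theorem yy_last (z : ℕ) : yy z z ≤ 2 := by
  unfold yy
  have h1 : (z : ℝ) ≤ (2 : ℝ) ^ ((2 : ℝ) ^ z) := by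
    have h2 : z < 2 ^ z := Nat.lt_two_pow_self
    have h3 : 2 ^ z < 2 ^ (2 ^ z) := Nat.lt_two_pow_self
    have h4 : (z : ℝ) ≤ ((2 ^ (2 ^ z) : ℕ) : ℝ) := by exact_mod_cast (h2.trans h3).le
    refine h4.trans (le_of_eq ?_)
    push_cast
    rw [← Real.rpow_natCast]
    push_cast
    rfl
  have h5 : (z : ℝ) ^ ((1 / 2 : ℝ) ^ z) ≤ ((2 : ℝ) ^ ((2 : ℝ) ^ z)) ^ ((1 / 2 : ℝ) ^ z) :=
    Real.rpow_le_rpow (Nat.cast_nonneg z) h1 (by positivity)
  refine h5.trans (le_of_eq ?_)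
  rw [← Real.rpow_mul (by norm_num), ← mul_pow]
  norm_num

/-- the blocks -/
private noncomputable def blk (P : Finset ℕ) (z i : ℕ) : Finset ℕ :=
  P.filter (fun p : ℕ => yy z (i + 1) ≤ (p : ℝ) ∧ (p : ℝ) < yy z i)

private theorem blk_disj (P : Finset ℕ) (z : ℕ) (hz : 2 ≤ z) (i j : ℕ) (hij : i ≠ j) :
    Disjoint (blk P z i) (blk P z j) := by
  rw [Finset.disjoint_left]
  intro p hp hq
  have h1 := (Finset.mem_filter.1 hp).2
  have h2 := (Finset.mem_filter.1 hq).2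
  rcases lt_or_gt_of_ne hij with h | h
  · have := yy_anti z hz (Nat.succ_le_of_lt h)
    simp only [Nat.succ_eq_add_one] at this
    linarith [h1.1, h2.2]
  · have := yy_anti z hz (Nat.succ_le_of_lt h)
    simp only [Nat.succ_eq_add_one] at this
    linarith [h1.2, h2.1]

private theorem blk_union (P : Finset ℕ) (z : ℕ) (hz : 2 ≤ z) (hP : ∀ p ∈ P, 2 ≤ p ∧ p < z) :
    (range z).biUnion (blk P z) = P := by
  classical
  ext p
  constructor
  · intro hp
    obtain ⟨i, _, hi⟩ := Finset.mem_biUnion.1 hp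
    exact (Finset.mem_filter.1 hi).1
  · intro hp
    obtain ⟨h2, hlt⟩ := hP p hp
    have h2' : (2 : ℝ) ≤ p := by exact_mod_cast h2
    have hlt' : (p : ℝ) < z := by exact_mod_cast hlt
    obtain ⟨m, rfl⟩ : ∃ m, z = m + 1 := ⟨z - 1, by omega⟩
    have hex : ∃ i, yy (m + 1) (i + 1) ≤ (p : ℝ) :=
      ⟨m, (yy_last (m + 1)).trans h2'⟩
    have h3 := Nat.find_spec hex
    have h4 : Nat.find hex ≤ m := Nat.find_min' hex ((yy_last (m + 1)).trans h2')
    refine Finset.mem_biUnion.2 ⟨Nat.find hex, Finset.mem_range.2 (Nat.lt_succ_of_le h4),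
      Finset.mem_filter.2 ⟨hp, h3, ?_⟩⟩
    rcases Nat.eq_zero_or_pos (Nat.find hex) with h5 | h5
    · rw [h5, yy_zero]
      exact hlt'
    · have h6 := Nat.find_min hex (m := Nat.find hex - 1) (by omega)
      have h7 : Nat.find hex - 1 + 1 = Nat.find hex := by omega
      rw [h7] at h6
      exact not_le.1 h6

private theorem level_sum (b n : ℕ) :
    ∑ j ∈ range n, (1 / 2 : ℝ) ^ j * (2 * b + 2 * j + 3) =
      4 * b + 10 - (1 / 2 : ℝ) ^ n * (4 * b + 4 * n + 10) := by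
  induction n with
  | zero => simp
  | succ n ih =>
    rw [Finset.sum_range_succ, ih, pow_succ]
    push_cast
    ring

private theorem level (P : Finset ℕ) (z b : ℕ) (hz : 2 ≤ z) (hP : ∀ p ∈ P, 2 ≤ p ∧ p < z)
    (d : Finset ℕ) (hd : d ⊆ P) (hc : ∀ j ∈ range z, #(d ∩ blk P z j) ≤ 2 * (b + (j + 1)) + 1) :
    ((∏ p ∈ d, p : ℕ) : ℝ) ≤ (z : ℝ) ^ (4 * b + 10) := by
  classical
  have hz1 : (1 : ℝ) ≤ z := by exact_mod_cast (by omega : 1 ≤ z)
  have h1 : d = (range z).biUnion (fun j => d ∩ blk P z j) := by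
    rw [← Finset.inter_biUnion, blk_union P z hz hP]
    exact (Finset.inter_eq_left.2 hd).symm
  have h2 : ((∏ p ∈ d, p : ℕ) : ℝ) = ∏ j ∈ range z, ∏ p ∈ d ∩ blk P z j, (p : ℝ) := by
    conv_lhs => rw [h1]
    rw [Finset.prod_biUnion]
    · push_cast
      rfl
    · intro i _ j _ hij
      exact Finset.disjoint_of_subset_left Finset.inter_subset_right
        (Finset.disjoint_of_subset_right Finset.inter_subset_right (blk_disj P z hz i j hij))
  rw [h2]
  have h3 : ∀ j ∈ range z, ∏ p ∈ d ∩ blk P z j, (p : ℝ) ≤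
      (z : ℝ) ^ ((1 / 2 : ℝ) ^ j * (2 * b + 2 * j + 3)) := by
    intro j hj
    have h4 : ∏ p ∈ d ∩ blk P z j, (p : ℝ) ≤ ∏ _p ∈ d ∩ blk P z j, yy z j := by
      refine Finset.prod_le_prod (fun p _ => Nat.cast_nonneg p) (fun p hp => ?_)
      exact (Finset.mem_filter.1 (Finset.mem_inter.1 hp).2).2.2.le
    rw [Finset.prod_const] at h4
    refine h4.trans ?_
    have h5 : yy z j ^ #(d ∩ blk P z j) ≤ yy z j ^ (2 * (b + (j + 1)) + 1) :=
      pow_le_pow_right₀ (one_le_yy z j hz) (hc j hj)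
    refine h5.trans (le_of_eq ?_)
    unfold yy
    rw [← Real.rpow_natCast, ← Real.rpow_mul (Nat.cast_nonneg z)]
    congr 1
    push_cast
    ring
  refine (Finset.prod_le_prod (fun j _ => Finset.prod_nonneg fun p _ => Nat.cast_nonneg p) h3).trans
    ?_
  have h6 : ∏ j ∈ range z, (z : ℝ) ^ ((1 / 2 : ℝ) ^ j * (2 * b + 2 * j + 3)) =
      (z : ℝ) ^ (∑ j ∈ range z, (1 / 2 : ℝ) ^ j * (2 * b + 2 * j + 3)) :=
    (Real.rpow_sum_of_pos (by linarith) _ _).symm
  rw [h6, ← Real.rpow_natCast]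
  refine Real.rpow_le_rpow_of_exponent_le hz1 ?_
  rw [level_sum]
  push_cast
  have : 0 ≤ (1 / 2 : ℝ) ^ z * (4 * b + 4 * z + 10) := by positivity
  linarith

private theorem lw_abs {ι : Type*} (s : Finset ι) (A : ι → Finset ℕ) (b : ι → ℕ) (d : Finset ℕ) :
    |lw s A b d| ≤ 1 := by
  unfold lw
  split_ifs
  · rw [abs_pow, abs_neg, abs_one, one_pow]
  · simp

private theorem dw_abs {ι : Type*} (s : Finset ι) (A : ι → Finset ℕ) (b : ι → ℕ) (d : Finset ℕ) :
    |dw s A b d| ≤ #s := by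
  unfold dw
  refine (Finset.abs_sum_le_sum_abs _ _).trans ?_
  refine (Finset.sum_le_card_nsmul _ _ 1 fun l _ => ?_).trans (by simp)
  split_ifs
  · rw [abs_pow, abs_neg, abs_one, one_pow]
  · simp

private theorem supp {ι : Type*} (s : Finset ι) (A : ι → Finset ℕ) (b : ι → ℕ) (d : Finset ℕ)
    (h : lw s A b d ≠ 0 ∨ dw s A b d ≠ 0) :
    d ⊆ s.biUnion A ∧ ∀ j ∈ s, #(d ∩ A j) ≤ b j + 1 := by
  classical
  rcases h with h | h
  · unfold lw at h
    have h1 := (ne_eq _ _ ▸ h : ¬ _)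
    split_ifs at h with h2
    · refine ⟨by convert h2.1, fun j hj => ?_⟩
      have := h2.2 j hj
      refine le_trans (le_of_eq ?_) (this.trans (Nat.le_succ _))
      congr
    · exact absurd rfl h
  · unfold dw at h
    obtain ⟨l, hl, hne⟩ := Finset.exists_ne_zero_of_sum_ne_zero h
    split_ifs at hne with h2
    · refine ⟨by convert h2.1, fun j hj => ?_⟩
      by_cases hjl : j = l
      · subst hjl
        have := h2.2.1
        refine le_of_eq (Eq.trans ?_ this)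
        congr
      · have := h2.2.2 j hj hjl
        refine le_trans (le_of_eq ?_) (this.trans (Nat.le_succ _))
        congr
    · exact absurd rfl hne

private theorem pow_div_factorial_le (L : ℝ) (hL : 0 ≤ L) (n : ℕ) :
    L ^ n / n.factorial ≤ Real.exp (3 * L) * Real.exp (-n) := by
  have h1 : (3 * L) ^ n / n.factorial ≤ Real.exp (3 * L) :=
    Real.pow_div_factorial_le_exp (3 * L) (by linarith) n
  have h2 : Real.exp n ≤ 3 ^ n := by
    have h3 : Real.exp (n : ℝ) = Real.exp 1 ^ n := by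
      rw [← Real.exp_nat_mul, mul_one]
    rw [h3]
    exact pow_le_pow_left₀ (Real.exp_pos 1).le Real.exp_one_lt_three.le n
  have hf : (0 : ℝ) < n.factorial := by exact_mod_cast Nat.factorial_pos n
  rw [Real.exp_neg, ← div_eq_mul_inv, le_div_iff₀ (Real.exp_pos _)]
  refine le_trans ?_ h1
  rw [mul_pow, div_mul_eq_mul_div]
  refine div_le_div_of_nonneg_right ?_ hf.le
  rw [mul_comm]
  exact mul_le_mul_of_nonneg_right h2 (pow_nonneg hL n)

theorem brun_hooley (L₀ : ℝ) (hL₀ : 0 ≤ L₀) : ∃ b₀ : ℕ, ∀ b : ℕ, b₀ ≤ b →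
    ∀ (z : ℕ) (P : Finset ℕ) (g : ℕ → ℝ), 2 ≤ z → (∀ p ∈ P, 2 ≤ p ∧ p < z) →
      (∀ p ∈ P, 0 ≤ g p ∧ g p ≤ 1 / 2) →
      (∀ y : ℝ, 1 ≤ y → ∑ p ∈ P.filter (fun p : ℕ => y ≤ (p : ℝ) ∧ (p : ℝ) < y ^ 2), g p ≤ L₀) →
      ∃ lp dp : Finset ℕ → ℝ, (∀ d, |lp d| ≤ 1) ∧ (∀ d, |dp d| ≤ z) ∧
        (∀ d, lp d ≠ 0 ∨ dp d ≠ 0 → d ⊆ P ∧ ((∏ p ∈ d, p : ℕ) : ℝ) ≤ (z : ℝ) ^ (4 * b + 10)) ∧
        (∀ B ⊆ P, (if B = ∅ then (1 : ℝ) else 0) ≤ ∑ d ∈ B.powerset, lp d ∧
          ∑ d ∈ B.powerset, lp d - (if B = ∅ then (1 : ℝ) else 0) ≤ ∑ d ∈ B.powerset, dp d) ∧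
        ∏ p ∈ P, (1 - g p) ≤ ∑ d ∈ P.powerset, lp d * ∏ p ∈ d, g p ∧
        ∑ d ∈ P.powerset, dp d * ∏ p ∈ d, g p ≤ Real.exp (-b) * ∏ p ∈ P, (1 - g p) := by
  classical
  refine ⟨⌈5 * L₀⌉₊ + 1, fun b hb z P g hz hP hg hy => ?_⟩
  have hbL : 5 * L₀ + 1 ≤ b := by
    have h1 : 5 * L₀ ≤ ⌈5 * L₀⌉₊ := Nat.le_ceil _
    have h2 : ((⌈5 * L₀⌉₊ + 1 : ℕ) : ℝ) ≤ b := by exact_mod_cast hb
    push_cast at h2
    linarith
  set s := range z with hs
  set A : ℕ → Finset ℕ := blk P z with hA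
  set bb : ℕ → ℕ := fun j => 2 * (b + (j + 1)) with hbb
  have hdisj : ∀ i ∈ s, ∀ j ∈ s, i ≠ j → Disjoint (A i) (A j) := fun i _ j _ hij =>
    blk_disj P z hz i j hij
  have hun : s.biUnion A = P := blk_union P z hz hP
  have heven : ∀ j ∈ s, Even (bb j) := fun j _ => even_two_mul _
  have hAP : ∀ j, A j ⊆ P := fun j => Finset.filter_subset _ _
  have hgA : ∀ j, ∀ p ∈ A j, 0 ≤ g p ∧ g p ≤ 1 := fun j p hp =>
    ⟨(hg p (hAP j hp)).1, (hg p (hAP j hp)).2.trans (by norm_num)⟩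
  have hsumA : ∀ j, ∑ p ∈ A j, g p ≤ L₀ := by
    intro j
    have h1 := hy (yy z (j + 1)) (one_le_yy z _ hz)
    rw [yy_sq] at h1
    exact h1
  set V : ℕ → ℝ := fun j => ∏ p ∈ A j, (1 - g p) with hV
  have hVpos : ∀ j, Real.exp (-(2 * L₀)) ≤ V j := by
    intro j
    have h1 : ∏ p ∈ A j, Real.exp (-(2 * g p)) ≤ V j := by
      refine Finset.prod_le_prod (fun p _ => (Real.exp_pos _).le) (fun p hp => ?_)
      exact exp_neg_two_mul_le _ (hg p (hAP j hp)).1 (hg p (hAP j hp)).2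
    rw [← Real.exp_sum] at h1
    refine le_trans (Real.exp_le_exp.2 ?_) h1
    rw [Finset.sum_neg_distrib, ← Finset.mul_sum]
    linarith [hsumA j]
  have hV0 : ∀ j, 0 < V j := fun j => lt_of_lt_of_le (Real.exp_pos _) (hVpos j)
  have hVprod : ∏ j ∈ s, V j = ∏ p ∈ P, (1 - g p) := by
    rw [← hun, Finset.prod_biUnion (fun i hi j hj hij => hdisj i hi j hj hij)]
  set c : ℕ → ℝ := fun j => Real.exp (5 * L₀) * Real.exp (-(2 * b + 2 * j + 3)) with hc
  have hc0 : ∀ j, 0 ≤ c j := fun j => by simp only [hc]; positivity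
  have hes : ∀ j, esum (bb j) g (A j) ≤ V j * c j := by
    intro j
    have h1 := esum_le (bb j) g (A j) (fun p hp => (hgA j p hp).1)
    have h2 : (∑ p ∈ A j, g p) ^ (bb j + 1) / (bb j + 1).factorial ≤
        L₀ ^ (bb j + 1) / (bb j + 1).factorial := by
      refine div_le_div_of_nonneg_right ?_ (Nat.cast_nonneg _)
      exact pow_le_pow_left₀ (Finset.sum_nonneg fun p hp => (hgA j p hp).1) (hsumA j) _
    have h3 := pow_div_factorial_le L₀ hL₀ (bb j + 1)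
    refine (h1.trans (h2.trans h3)).trans ?_
    have h4 : Real.exp (-(2 * L₀)) * c j ≤ V j * c j :=
      mul_le_mul_of_nonneg_right (hVpos j) (hc0 j)
    refine le_trans (le_of_eq ?_) h4
    simp only [hc, hbb]
    rw [← Real.exp_add, ← Real.exp_add, ← Real.exp_add]
    congr 1
    push_cast
    ring
  have hys : ∀ j ∈ s, ysum (bb j) g (A j) ≤ V j * (1 + c j) := by
    intro j hj
    have h1 := ysum_le (bb j) (heven j hj) g (A j) (hgA j)
    have h2 := hes j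
    have h3 : ∏ p ∈ A j, (1 - g p) = V j := rfl
    rw [h3] at h1
    linarith
  have hys0 : ∀ j ∈ s, V j ≤ ysum (bb j) g (A j) := fun j hj =>
    ysum_ge (bb j) (heven j hj) g (A j) (hgA j)
  have hcsum : ∑ j ∈ s, c j ≤ Real.exp (-b) / 4 := by
    have h1 : ∀ j ∈ s, c j ≤ Real.exp (-b) / 8 * (1 / 2) ^ j := by
      intro j _
      have he : Real.exp (-1) ≤ 1 / 2 := by
        rw [Real.exp_neg, one_div]
        exact inv_anti₀ (by norm_num) (by linarith [Real.add_one_le_exp (1 : ℝ)])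
      have h2 : c j ≤ Real.exp (-b) * Real.exp (-1) ^ (j + 3) := by
        simp only [hc]
        rw [← Real.exp_nat_mul, ← Real.exp_add, ← Real.exp_add]
        refine Real.exp_le_exp.2 ?_
        push_cast
        have : (0 : ℝ) ≤ j := Nat.cast_nonneg j
        linarith
      refine h2.trans ?_
      have h3 : Real.exp (-1) ^ (j + 3) ≤ (1 / 2) ^ (j + 3) :=
        pow_le_pow_left₀ (Real.exp_pos _).le he _
      have h4 : (1 / 2 : ℝ) ^ (j + 3) = 1 / 8 * (1 / 2) ^ j := by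
        rw [pow_add]; norm_num; ring
      have h5 := mul_le_mul_of_nonneg_left h3 (Real.exp_pos (-(b : ℝ))).le
      rw [h4] at h5
      linarith
    refine (Finset.sum_le_sum h1).trans ?_
    rw [← Finset.mul_sum]
    have h6 : ∑ j ∈ s, (1 / 2 : ℝ) ^ j ≤ 2 := by
      have h7 := geom_sum_eq (x := (1 / 2 : ℝ)) (by norm_num) z
      rw [hs, h7]
      have : 0 < (1 / 2 : ℝ) ^ z := by positivity
      rw [div_le_iff_of_neg (by norm_num)]
      linarith
    have h8 := mul_le_mul_of_nonneg_left h6 (div_nonneg (Real.exp_pos (-(b : ℝ))).le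
      (by norm_num : (0 : ℝ) ≤ 8))
    linarith
  refine ⟨lw s A bb, dw s A bb, lw_abs s A bb, fun d => ?_, fun d hd => ?_, fun B hB => ?_, ?_, ?_⟩
  · have := dw_abs s A bb d
    rwa [hs, Finset.card_range] at this
  · obtain ⟨h1, h2⟩ := supp s A bb d hd
    rw [hun] at h1
    exact ⟨h1, level P z b hz hP d h1 h2⟩
  · exact lw_sub s A bb heven hdisj B (by rw [hun]; exact hB)
  · rw [← hVprod]
    have h1 := sum_lw s A bb hdisj g
    rw [hun] at h1
    rw [h1]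
    exact Finset.prod_le_prod (fun j _ => (hV0 j).le) hys0
  · have h1 := sum_dw s A bb hdisj g
    rw [hun] at h1
    rw [h1]
    have h2 : ∀ l ∈ s, esum (bb l) g (A l) * ∏ j ∈ s.erase l, ysum (bb j) g (A j) ≤
        c l * ((∏ j ∈ s, V j) * ∏ j ∈ s, (1 + c j)) := by
      intro l hl
      have h3 : ∏ j ∈ s.erase l, ysum (bb j) g (A j) ≤ ∏ j ∈ s.erase l, (V j * (1 + c j)) :=
        Finset.prod_le_prod (fun j hj => (hV0 j).le.trans (hys0 j (Finset.mem_of_mem_erase hj)))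
          (fun j hj => hys j (Finset.mem_of_mem_erase hj))
      have h4 : 0 ≤ ∏ j ∈ s.erase l, (V j * (1 + c j)) :=
        Finset.prod_nonneg fun j _ => mul_nonneg (hV0 j).le (by linarith [hc0 j])
      have h5 : esum (bb l) g (A l) * ∏ j ∈ s.erase l, ysum (bb j) g (A j) ≤
          (V l * c l) * ∏ j ∈ s.erase l, (V j * (1 + c j)) :=
        mul_le_mul (hes l) h3 (Finset.prod_nonneg fun j hj =>
          (hV0 j).le.trans (hys0 j (Finset.mem_of_mem_erase hj)))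
          (mul_nonneg (hV0 l).le (hc0 l))
      refine h5.trans ?_
      have h6 : (∏ j ∈ s, V j) * ∏ j ∈ s, (1 + c j) =
          (V l * (1 + c l)) * ∏ j ∈ s.erase l, (V j * (1 + c j)) := by
        rw [← Finset.prod_mul_distrib]
        exact (Finset.mul_prod_erase s (fun j => V j * (1 + c j)) hl).symm
      rw [h6]
      have h7 : V l * c l ≤ c l * (V l * (1 + c l)) := by
        nlinarith [mul_nonneg (mul_nonneg (hV0 l).le (hc0 l)) (hc0 l)]
      have h8 := mul_le_mul_of_nonneg_right h7 h4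
      linarith
    refine (Finset.sum_le_sum h2).trans ?_
    rw [← Finset.sum_mul, hVprod]
    have hVP : 0 ≤ ∏ p ∈ P, (1 - g p) :=
      Finset.prod_nonneg fun p hp => by linarith [(hg p hp).2]
    have h9 : ∏ j ∈ s, (1 + c j) ≤ 4 := by
      have h10 : ∏ j ∈ s, (1 + c j) ≤ ∏ j ∈ s, Real.exp (c j) :=
        Finset.prod_le_prod (fun j _ => by linarith [hc0 j])
          (fun j _ => by linarith [Real.add_one_le_exp (c j)])
      rw [← Real.exp_sum] at h10
      have h11 : ∑ j ∈ s, c j ≤ 1 := by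
        refine hcsum.trans ?_
        have : Real.exp (-(b : ℝ)) ≤ 1 := Real.exp_le_one_iff.2 (by
          have : (0 : ℝ) ≤ b := Nat.cast_nonneg b
          linarith)
        linarith
      have h12 := Real.exp_le_exp.2 h11
      linarith [Real.exp_one_lt_three]
    have h13 : 0 ≤ ∏ j ∈ s, (1 + c j) := Finset.prod_nonneg fun j _ => by linarith [hc0 j]
    have h14 : (∏ p ∈ P, (1 - g p)) * ∏ j ∈ s, (1 + c j) ≤ (∏ p ∈ P, (1 - g p)) * 4 :=
      mul_le_mul_of_nonneg_left h9 hVP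
    calc (∑ j ∈ s, c j) * ((∏ p ∈ P, (1 - g p)) * ∏ j ∈ s, (1 + c j))
        ≤ (Real.exp (-b) / 4) * ((∏ p ∈ P, (1 - g p)) * 4) :=
          mul_le_mul hcsum h14 (mul_nonneg hVP h13) (by positivity)
      _ = Real.exp (-b) * ∏ p ∈ P, (1 - g p) := by ring

end Pool.Agent.Work.MP_2dba45_nt.Sv
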