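import Mathlib
import Pool.Agent.Work.MP_2dba45_nt.BilDef
import Pool.Agent.Work.MP_2dba45_nt.VV

set_option autoImplicit false

/-!
Sieve side of MP_2dba45_nt: definitions.
-/

namespace Pool.Agent.Work.MP_2dba45_nt.Sv

open Finset Pool.Agent.Work.MP_2dba45_nt.BilDef

/-- Rosser's condition on a (decreasing) list of costs: at every second position, starting with the
first one when `par = true`, the sum of the costs so far plus twice the present cost is at most the
budget. -/
def adm : Bool → ℤ → List ℕ → Prop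
  | _, _, [] => True
  | par, L, x :: t => (par = true → 3 * (x : ℤ) ≤ L) ∧ adm (!par) (L - x) t

/-- the costs of the elements of `T`, in decreasing order of the elements -/
def costs (a : ℕ → ℕ) (T : Finset ℕ) : List ℕ := (T.sort (· ≥ ·)).map a

open Classical in
/-- support of the Rosser weights with sifting limit `z` and budget `L` -/
noncomputable def Dset (P : Finset ℕ) (a : ℕ → ℕ) (par : Bool) (z : ℕ) (L : ℤ) :
    Finset (Finset ℕ) :=
  ((P.filter (fun p => p < z)).powerset).filter (fun T => adm par L (costs a T))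

/-- the Rosser weights applied to a set function; `par = true` is the upper bound sieve -/
noncomputable def SS (P : Finset ℕ) (a : ℕ → ℕ) (par : Bool) (z : ℕ) (L : ℤ)
    (f : Finset ℕ → ℝ) : ℝ :=
  ∑ T ∈ Dset P a par z L, (-1) ^ (#T) * f T

/-- Richert's weighted combination: `w` is a function of the cost of the prime. -/
noncomputable def WW (P : Finset ℕ) (a : ℕ → ℕ) (z y : ℕ) (L : ℤ) (w : ℕ → ℝ) (lam : ℝ)
    (f : Finset ℕ → ℝ) : ℝ :=
  SS P a false z L f -
    lam * ∑ p ∈ P.filter (fun p => z ≤ p ∧ p < y),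
      w (a p) * SS P a true z (L - a p) (fun T => f (insert p T))

/-- the coefficient of `WW` at a set with the list of costs `c`; here `p < z` means `a p ≤ jz` and
`p < y` means `a p ≤ jy` -/
noncomputable def phi (jz jy : ℕ) (L : ℤ) (w : ℕ → ℝ) (lam : ℝ) (c : List ℕ) : ℝ :=
  open Classical in
  if ∀ x ∈ c, x ≤ jz then (if adm false L c then (-1) ^ c.length else 0)
  else match c with
    | [] => 0
    | x :: t => if (∀ y ∈ t, y ≤ jz) ∧ x ≤ jy ∧ adm true (L - x) t then
        -(lam * w x * (-1) ^ t.length) else 0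

/-- the cost of `p`: one more than the index of its box in the logarithmic scale -/
noncomputable def cost (K N p : ℕ) : ℕ := ⌊(K : ℝ) * (Real.log p / Real.log N)⌋₊ + 1

/-- `⌈N ^ v⌉` -/
noncomputable def pw (N : ℕ) (v : ℝ) : ℕ := ⌈(N : ℝ) ^ v⌉₊

/-- sifting primes -/
def PQ (z₀ N : ℕ) : Finset ℕ := (Ico z₀ N).filter Nat.Prime

/-- local density of `n ^ 2 + 1` -/
noncomputable def g1 (p : ℕ) : ℝ := (Nu.nu 1 p : ℝ) / p

/-- its multiplicative extension to finite sets -/
noncomputable def GG (T : Finset ℕ) : ℝ := ∏ p ∈ T, g1 p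

/-- Solutions (up to a constant factor) of the linear sieve differential delay equations. -/
structure DDE (F f : ℝ → ℝ) : Prop where
  F3 : ∀ s, 0 < s → s ≤ 3 → F s = 1 / s
  f2 : ∀ s, s ≤ 2 → f s = 0
  Fc : ContinuousOn F (Set.Ioi 0)
  fc : Continuous f
  Fint : ∀ s t, 3 ≤ s → s ≤ t → t * F t - s * F s = ∫ x in s..t, f (x - 1)
  fint : ∀ s t, 2 ≤ s → s ≤ t → t * f t - s * f s = ∫ x in s..t, F (x - 1)
  Fanti : AntitoneOn F (Set.Ioi 0)
  fmono : Monotone f
  fnn : ∀ s, 0 ≤ f s
  fF : ∀ s, 0 < s → f s ≤ F s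

/-- the numerical parameters -/
noncomputable def zExp : ℝ := 9 / 40
noncomputable def yExp : ℝ := 1199 / 1200
noncomputable def lamb : ℝ := 1199 / 1196

/-- Richert's weight as a function of the cost `x`, with `1200 k` boxes -/
noncomputable def wt (k x : ℕ) : ℝ := 1 - ((x : ℝ) - 1) / (1199 * k)

/-- `n ^ 2 + 1` has at most two prime factors and all prime factors of `(n^2+1)(n^2+3)` are at
least `z₀` -/
def Rough (z₀ n : ℕ) : Prop := ∀ p : ℕ, p.Prime → p ∣ (n ^ 2 + 1) * (n ^ 2 + 3) → z₀ ≤ p

end Pool.Agent.Work.MP_2dba45_nt.Sv
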