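import Mathlib
import Pool.Agent.Work.MP_2dba45_nt.Sv.Defs

set_option autoImplicit false

/-!
Module BOX. Elementary facts on costs, with K = 1200 k and N large (depending on δ, k):
cost is monotone on primes, p < N ^ (cost / K), p < pw N (j/K) iff cost ≤ j, and cost > K δ for
p ≥ N ^ δ.
-/

namespace Pool.Agent.Work.MP_2dba45_nt.Sv

open Finset Pool.Agent.Work.MP_2dba45_nt.BilDef

private lemma logN_pos {N : ℕ} (hN : 2 ≤ N) : 0 < Real.log N :=
  Real.log_pos (by exact_mod_cast hN)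

private lemma ratio_nonneg {N p : ℕ} (hN : 2 ≤ N) (hp : 1 ≤ p) : 0 ≤ Real.log p / Real.log N :=
  div_nonneg (Real.log_nonneg (by exact_mod_cast hp)) (logN_pos hN).le

private lemma lt_rpow_iff {N p : ℕ} (v : ℝ) (hN : 2 ≤ N) (hp : 1 ≤ p) :
    (p : ℝ) < (N : ℝ) ^ v ↔ Real.log p / Real.log N < v := by
  have hN0 : (0 : ℝ) < N := by positivity
  have hp0 : (0 : ℝ) < p := by exact_mod_cast hp
  rw [div_lt_iff₀ (logN_pos hN), ← Real.log_rpow hN0,
    Real.log_lt_log_iff hp0 (Real.rpow_pos_of_pos hN0 v)]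

theorem cost_mono (K N p q : ℕ) (hN : 2 ≤ N) (hp : 1 ≤ p) (hpq : p ≤ q) :
    cost K N p ≤ cost K N q := by
  unfold cost
  have h1 : Real.log p ≤ Real.log q :=
    Real.log_le_log (by exact_mod_cast hp) (by exact_mod_cast hpq)
  have h2 := logN_pos hN
  gcongr

theorem lt_pw_iff (N p : ℕ) (v : ℝ) : p < pw N v ↔ (p : ℝ) < (N : ℝ) ^ v := by
  unfold pw
  exact Nat.lt_ceil

theorem lt_pw_iff_log (N p : ℕ) (v : ℝ) (hN : 2 ≤ N) (hp : 1 ≤ p) :
    p < pw N v ↔ Real.log p / Real.log N < v := by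
  rw [lt_pw_iff, lt_rpow_iff v hN hp]

theorem lt_pw_iff_cost (K N p j : ℕ) (hK : 1 ≤ K) (hN : 2 ≤ N) (hp : 1 ≤ p) :
    p < pw N ((j : ℝ) / K) ↔ cost K N p ≤ j := by
  have hK0 : (0 : ℝ) < K := by exact_mod_cast hK
  rw [lt_pw_iff_log N p _ hN hp]
  unfold cost
  rw [Nat.succ_le_iff, Nat.floor_lt (mul_nonneg hK0.le (ratio_nonneg hN hp)), lt_div_iff₀ hK0,
    mul_comm]

theorem cost_gt (K N p : ℕ) (δ : ℝ) (hN : 2 ≤ N) (hp : pw N δ ≤ p) (hp1 : 1 ≤ p) :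
    (K : ℝ) * δ < cost K N p := by
  have h1 : ¬ (p < pw N δ) := not_lt.2 hp
  rw [lt_pw_iff_log N p δ hN hp1, not_lt] at h1
  unfold cost
  push_cast
  calc (K : ℝ) * δ ≤ K * (Real.log p / Real.log N) :=
        mul_le_mul_of_nonneg_left h1 (Nat.cast_nonneg K)
    _ < _ := Nat.lt_floor_add_one _

theorem cost_close (K N p : ℕ) (hK : 1 ≤ K) (hN : 2 ≤ N) (hp : 1 ≤ p) :
    Real.log p / Real.log N < (cost K N p : ℝ) / K ∧
      (cost K N p : ℝ) / K ≤ Real.log p / Real.log N + 1 / K := by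
  have hK0 : (0 : ℝ) < K := by exact_mod_cast hK
  have h0 := mul_nonneg hK0.le (ratio_nonneg hN hp)
  constructor
  · rw [lt_div_iff₀ hK0, mul_comm]
    unfold cost
    push_cast
    exact Nat.lt_floor_add_one _
  · rw [div_le_iff₀ hK0, add_mul, one_div, inv_mul_cancel₀ hK0.ne', mul_comm]
    unfold cost
    push_cast
    have := Nat.floor_le h0
    linarith

/-- a product of primes with total cost `≤ j` is at most `N ^ (j / K)` -/
theorem prod_le_of_cost (K N j : ℕ) (hK : 1 ≤ K) (hN : 2 ≤ N) (T : Finset ℕ)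
    (hT : ∀ p ∈ T, 1 ≤ p) (hj : (T.val.map (cost K N)).sum ≤ j) :
    ((∏ p ∈ T, p : ℕ) : ℝ) ≤ (N : ℝ) ^ ((j : ℝ) / K) := by
  have hK0 : (0 : ℝ) < K := by exact_mod_cast hK
  have hN0 : (0 : ℝ) < N := by positivity
  have hN1 : (1 : ℝ) ≤ N := by exact_mod_cast (by omega : 1 ≤ N)
  have hsum : (∑ p ∈ T, (cost K N p : ℝ)) ≤ j := by
    have : ∑ p ∈ T, cost K N p ≤ j := hj
    exact_mod_cast this
  calc ((∏ p ∈ T, p : ℕ) : ℝ) = ∏ p ∈ T, (p : ℝ) := by push_cast; rfl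
    _ ≤ ∏ p ∈ T, (N : ℝ) ^ ((cost K N p : ℝ) / K) := by
        refine Finset.prod_le_prod (fun p _ => Nat.cast_nonneg p) fun p hp => ?_
        exact ((lt_rpow_iff _ hN (hT p hp)).2 (cost_close K N p hK hN (hT p hp)).1).le
    _ = (N : ℝ) ^ (∑ p ∈ T, (cost K N p : ℝ) / K) := by
        rw [Real.rpow_sum_of_pos hN0]
    _ ≤ (N : ℝ) ^ ((j : ℝ) / K) := by
        apply Real.rpow_le_rpow_of_exponent_le hN1
        rw [← Finset.sum_div]
        gcongr

end Pool.Agent.Work.MP_2dba45_nt.Sv
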