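import Mathlib
import Pool.Agent.Work.MP_2dba45_nt.Sv.Defs

set_option autoImplicit false

/-!
Module SREC. Buchstab recursion for the truncated sieve functional: split the sets T by their
largest element p (T = insert p T', all elements of T' are < p); Finset.sort of insert/cons puts p
first, so costs a T = a p :: costs a T', and adm unfolds. The empty set gives f ∅.
-/

namespace Pool.Agent.Work.MP_2dba45_nt.Sv

open Finset Pool.Agent.Work.MP_2dba45_nt.BilDef

theorem SRec_powerset (F : Finset ℕ → ℝ) (S : Finset ℕ) :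
    ∑ T ∈ S.powerset, F T = F ∅ + ∑ p ∈ S, ∑ T ∈ (S.filter (fun q => q < p)).powerset,
      F (insert p T) := by
  induction S using Finset.induction_on_max with
  | empty => simp
  | insert m S hm ih =>
    have hmS : m ∉ S := fun h => lt_irrefl _ (hm m h)
    have h1 : (insert m S).filter (fun q => q < m) = S := by
      ext x
      simp only [Finset.mem_filter, Finset.mem_insert]
      constructor
      · rintro ⟨rfl | h, h2⟩
        · exact absurd h2 (lt_irrefl _)
        · exact h
      · intro h
        exact ⟨Or.inr h, hm x h⟩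
    have h2 : ∀ p ∈ S, (insert m S).filter (fun q => q < p) = S.filter (fun q => q < p) := by
      intro p hp
      ext x
      simp only [Finset.mem_filter, Finset.mem_insert]
      constructor
      · rintro ⟨rfl | h, h2⟩
        · exact absurd h2 (not_lt.2 (hm p hp).le)
        · exact ⟨h, h2⟩
      · rintro ⟨h, h2⟩
        exact ⟨Or.inr h, h2⟩
    have h3 : ∑ p ∈ S, ∑ T ∈ ((insert m S).filter (fun q => q < p)).powerset, F (insert p T) =
        ∑ p ∈ S, ∑ T ∈ (S.filter (fun q => q < p)).powerset, F (insert p T) :=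
      Finset.sum_congr rfl (fun p hp => by rw [h2 p hp])
    rw [Finset.sum_powerset_insert hmS, ih, Finset.sum_insert hmS, h1, h3]
    ring

theorem SRec_costs (a : ℕ → ℕ) (p : ℕ) (T : Finset ℕ) (hT : ∀ q ∈ T, q < p) :
    costs a (insert p T) = a p :: costs a T := by
  have hp : p ∉ T := fun h => lt_irrefl _ (hT p h)
  unfold costs
  rw [Finset.sort_insert (r := (· ≥ ·)) (fun b hb => (hT b hb).le) hp, List.map_cons]

theorem SS_rec (P : Finset ℕ) (a : ℕ → ℕ) (par : Bool) (z : ℕ) (L : ℤ) (f : Finset ℕ → ℝ) :
    SS P a par z L f = f ∅ - ∑ p ∈ P.filter (fun p => p < z),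
      (if (par = true → 3 * (a p : ℤ) ≤ L) then
        SS P a (!par) p (L - a p) (fun T => f (insert p T)) else 0) := by
  classical
  have h0 : SS P a par z L f = ∑ T ∈ (P.filter (fun p => p < z)).powerset,
      if adm par L (costs a T) then (-1) ^ (#T) * f T else 0 := by
    unfold SS Dset
    rw [Finset.sum_filter]
  rw [h0, SRec_powerset]
  have h1 : costs a (∅ : Finset ℕ) = [] := by simp [costs]
  rw [h1]
  simp only [adm, if_true, Finset.card_empty, pow_zero, one_mul]
  rw [sub_eq_add_neg, ← Finset.sum_neg_distrib]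
  congr 1
  refine Finset.sum_congr rfl fun p hp => ?_
  have hpz : p < z := (Finset.mem_filter.1 hp).2
  have h2 : (P.filter (fun p => p < z)).filter (fun q => q < p) = P.filter (fun q => q < p) := by
    ext x
    simp only [Finset.mem_filter]
    constructor
    · rintro ⟨⟨h, -⟩, h2⟩
      exact ⟨h, h2⟩
    · rintro ⟨h, h2⟩
      exact ⟨⟨h, h2.trans hpz⟩, h2⟩
  rw [h2]
  have h3 : ∀ T ∈ (P.filter (fun q => q < p)).powerset,
      (if adm par L (costs a (insert p T)) then (-1) ^ (#(insert p T)) * f (insert p T) else 0) =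
      -(if (par = true → 3 * (a p : ℤ) ≤ L) then
        (if adm (!par) (L - a p) (costs a T) then (-1) ^ (#T) * f (insert p T) else 0) else 0) := by
    intro T hT
    have hT' : ∀ q ∈ T, q < p := fun q hq => (Finset.mem_filter.1 (Finset.mem_powerset.1 hT hq)).2
    have hpT : p ∉ T := fun h => lt_irrefl _ (hT' p h)
    rw [SRec_costs a p T hT', Finset.card_insert_of_notMem hpT]
    simp only [adm]
    by_cases hc : (par = true → 3 * (a p : ℤ) ≤ L)
    · by_cases hd : adm (!par) (L - a p) (costs a T)
      · rw [if_pos ⟨hc, hd⟩, if_pos hc, if_pos hd, pow_succ]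
        ring
      · rw [if_neg (fun h => hd h.2), if_pos hc, if_neg hd, neg_zero]
    · rw [if_neg (fun h => hc h.1), if_neg hc, neg_zero]
  rw [Finset.sum_congr rfl h3, Finset.sum_neg_distrib]
  congr 1
  by_cases hc : (par = true → 3 * (a p : ℤ) ≤ L)
  · simp only [if_pos hc]
    unfold SS Dset
    rw [Finset.sum_filter]
  · simp only [if_neg hc, Finset.sum_const_zero]

/-- only the values on subsets of `P` below `z` matter -/
theorem SS_congr (P : Finset ℕ) (a : ℕ → ℕ) (par : Bool) (z : ℕ) (L : ℤ) (f g : Finset ℕ → ℝ)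
    (h : ∀ T ⊆ P.filter (fun p => p < z), f T = g T) : SS P a par z L f = SS P a par z L g := by
  classical
  unfold SS
  refine Finset.sum_congr rfl fun T hT => ?_
  unfold Dset at hT
  rw [h T (Finset.mem_powerset.1 (Finset.mem_filter.1 hT).1)]

end Pool.Agent.Work.MP_2dba45_nt.Sv
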