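import Mathlib
import Pool.Agent.Work.MP_2dba45_nt.Sv.Defs
import Pool.Agent.Work.MP_2dba45_nt.Sv.SRec

set_option autoImplicit false

/-!
Module SINEQ. The sieve inequalities, by strong induction on z using SS_rec:
1[no p in P, p < z, p in B] = 1 - sum over p in P, p < z, p in B of 1[no q in P, q < p, q in B]
(Buchstab; the sum is over the least... i.e. each nonempty P_{<z} ∩ B has exactly one element p
with nothing of P_{<p} in B, its minimum). In SS_rec with f T = 1[T ⊆ B] the inner function is
1[p ∈ B] * 1[T ⊆ B]. For the upper bound the terms with 3 a p > L are dropped, and they have a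
favourable sign.
-/

namespace Pool.Agent.Work.MP_2dba45_nt.Sv

open Finset Pool.Agent.Work.MP_2dba45_nt.BilDef

theorem SIneq_buchstab (P : Finset ℕ) (z : ℕ) (B : Finset ℕ) :
    (if ∀ p ∈ P, p < z → p ∉ B then (1 : ℝ) else 0) = 1 - ∑ p ∈ P.filter (fun p => p < z),
      (if p ∈ B then (if ∀ q ∈ P, q < p → q ∉ B then (1 : ℝ) else 0) else 0) := by
  by_cases h : ∀ p ∈ P, p < z → p ∉ B
  · rw [if_pos h, Finset.sum_eq_zero, sub_zero]
    intro p hp
    rw [if_neg (h p (Finset.mem_filter.1 hp).1 (Finset.mem_filter.1 hp).2)]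
  · rw [if_neg h]
    push Not at h
    have hex : ∃ p, p ∈ P ∧ p < z ∧ p ∈ B := by
      obtain ⟨p, h1, h2, h3⟩ := h
      exact ⟨p, h1, h2, h3⟩
    classical
    obtain ⟨h1, h2, h3⟩ := Nat.find_spec hex
    set p₀ := Nat.find hex with hp0
    have hmin : ∀ q ∈ P, q < p₀ → q ∉ B := by
      intro q hq hlt hB
      exact Nat.find_min hex hlt ⟨hq, hlt.trans h2, hB⟩
    rw [Finset.sum_eq_single p₀, if_pos h3, if_pos hmin, sub_self]
    · intro p hp hne
      by_cases hB : p ∈ B
      · rw [if_pos hB, if_neg]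
        intro hcon
        have hle : p₀ ≤ p := Nat.find_le ⟨(Finset.mem_filter.1 hp).1, (Finset.mem_filter.1 hp).2, hB⟩
        exact hcon p₀ h1 (lt_of_le_of_ne hle (Ne.symm hne)) h3
      · rw [if_neg hB]
    · intro hcon
      exact absurd (Finset.mem_filter.2 ⟨h1, h2⟩) hcon

theorem SIneq_inner (P : Finset ℕ) (a : ℕ → ℕ) (par : Bool) (p : ℕ) (L : ℤ) (B : Finset ℕ) :
    SS P a par p L (fun T => if insert p T ⊆ B then (1 : ℝ) else 0) =
      if p ∈ B then SS P a par p L (fun T => if T ⊆ B then (1 : ℝ) else 0) else 0 := by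
  by_cases hB : p ∈ B
  · rw [if_pos hB]
    apply SS_congr
    intro T _
    simp only [Finset.insert_subset_iff, hB, true_and]
  · rw [if_neg hB]
    unfold SS
    apply Finset.sum_eq_zero
    intro T _
    simp only [Finset.insert_subset_iff, hB, false_and, if_false, mul_zero]

theorem SIneq_both (P : Finset ℕ) (a : ℕ → ℕ) (B : Finset ℕ) : ∀ (z : ℕ) (L : ℤ),
    ((if ∀ p ∈ P, p < z → p ∉ B then (1 : ℝ) else 0) ≤
      SS P a true z L (fun T => if T ⊆ B then 1 else 0)) ∧
    SS P a false z L (fun T => if T ⊆ B then 1 else 0) ≤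
      (if ∀ p ∈ P, p < z → p ∉ B then (1 : ℝ) else 0) := by
  intro z
  induction z using Nat.strong_induction_on with
  | _ z ih =>
    intro L
    constructor
    · rw [SS_rec, SIneq_buchstab]
      simp only [Finset.empty_subset, if_true, SIneq_inner, Bool.not_true]
      apply sub_le_sub_left
      apply Finset.sum_le_sum
      intro p hp
      have hpz := (Finset.mem_filter.1 hp).2
      have hI : (0 : ℝ) ≤ if p ∈ B then (if ∀ q ∈ P, q < p → q ∉ B then (1 : ℝ) else 0) else 0 := by
        split_ifs <;> norm_num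
      by_cases hc : (True → 3 * (a p : ℤ) ≤ L)
      · rw [if_pos hc]
        by_cases hB : p ∈ B
        · rw [if_pos hB, if_pos hB]
          exact (ih p hpz _).2
        · rw [if_neg hB, if_neg hB]
      · rw [if_neg hc]
        exact hI
    · rw [SS_rec, SIneq_buchstab]
      simp only [Finset.empty_subset, if_true, SIneq_inner, Bool.not_false]
      apply sub_le_sub_left
      apply Finset.sum_le_sum
      intro p hp
      have hpz := (Finset.mem_filter.1 hp).2
      rw [if_pos (fun h => absurd h (by decide))]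
      by_cases hB : p ∈ B
      · rw [if_pos hB, if_pos hB]
        exact (ih p hpz _).1
      · rw [if_neg hB, if_neg hB]

theorem SS_upper (P : Finset ℕ) (a : ℕ → ℕ) (z : ℕ) (L : ℤ) (B : Finset ℕ) :
    (if ∀ p ∈ P, p < z → p ∉ B then (1 : ℝ) else 0) ≤
      SS P a true z L (fun T => if T ⊆ B then 1 else 0) := (SIneq_both P a B z L).1

theorem SS_lower (P : Finset ℕ) (a : ℕ → ℕ) (z : ℕ) (L : ℤ) (B : Finset ℕ) :
    SS P a false z L (fun T => if T ⊆ B then 1 else 0) ≤
      (if ∀ p ∈ P, p < z → p ∉ B then (1 : ℝ) else 0) := (SIneq_both P a B z L).2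

end Pool.Agent.Work.MP_2dba45_nt.Sv
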