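import Mathlib
import Pool.Agent.Work.MP_2dba45_nt.Sv.Defs
import Pool.Agent.Work.MP_2dba45_nt.Sv.SIneq
import Pool.Agent.Work.MP_2dba45_nt.Sv.Box

set_option autoImplicit false

/-!
Module WT. Richert's weights.
-/

namespace Pool.Agent.Work.MP_2dba45_nt.Sv

open Finset Pool.Agent.Work.MP_2dba45_nt.BilDef

/-- exceptional integers -/
def Bad (N n : ℕ) : Prop :=
  (∃ p : ℕ, p.Prime ∧ p ^ 2 ∣ n ^ 2 + 1) ∧ ∀ p : ℕ, p.Prime → p ∣ n ^ 2 + 1 → pw N zExp ≤ p

theorem wt_pw_le (N : ℕ) (hN : 2 ≤ N) (v : ℝ) (hv : v ≤ 1) : pw N v ≤ N := by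
  unfold pw
  rw [Nat.ceil_le]
  have hN1 : (1 : ℝ) ≤ N := by exact_mod_cast (by omega : 1 ≤ N)
  calc (N : ℝ) ^ v ≤ (N : ℝ) ^ (1 : ℝ) := Real.rpow_le_rpow_of_exponent_le hN1 hv
    _ = N := Real.rpow_one _

theorem wt_log_ge (N p : ℕ) (hN : 2 ≤ N) (v : ℝ) (hp : p.Prime) (h : pw N v ≤ p) :
    v ≤ Real.log p / Real.log N := by
  by_contra hcon
  push Not at hcon
  have := (lt_pw_iff_log N p v hN hp.pos).2 hcon
  omega

/-- the weights, from below -/
theorem wt_weight_ge (N k p : ℕ) (hN : 2 ≤ N) (hk : 1 ≤ k) (hp : 1 ≤ p) :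
    1 - 1200 / 1199 * (Real.log p / Real.log N) ≤ wt k (cost (1200 * k) N p) := by
  unfold wt cost
  have hk0 : (0 : ℝ) < k := by exact_mod_cast hk
  have hN1 : (1 : ℝ) < N := by exact_mod_cast (by omega : 1 < N)
  have hl : 0 < Real.log N := Real.log_pos hN1
  have hlp : 0 ≤ Real.log p := Real.log_nonneg (by exact_mod_cast hp)
  have h0 : 0 ≤ ((1200 * k : ℕ) : ℝ) * (Real.log p / Real.log N) := by positivity
  have h1 := Nat.floor_le h0
  push_cast at h1 ⊢
  have h2 : ((⌊1200 * (k : ℝ) * (Real.log p / Real.log N)⌋₊ : ℝ) + 1 - 1) / (1199 * k)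
      ≤ (1200 * (k : ℝ) * (Real.log p / Real.log N)) / (1199 * k) := by
    apply div_le_div_of_nonneg_right _ (by positivity)
    linarith
  have h3 : (1200 * (k : ℝ) * (Real.log p / Real.log N)) / (1199 * k)
      = 1200 / 1199 * (Real.log p / Real.log N) := by
    field_simp
  linarith

theorem wt_weight_nonneg (N k p : ℕ) (hN : 2 ≤ N) (hk : 1 ≤ k) (hp : 1 ≤ p)
    (hy : p < pw N yExp) : 0 ≤ wt k (cost (1200 * k) N p) := by
  have hk0 : (0 : ℝ) < k := by exact_mod_cast hk
  have h1 : yExp = ((1199 * k : ℕ) : ℝ) / ((1200 * k : ℕ) : ℝ) := by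
    unfold yExp
    push_cast
    field_simp
  rw [h1] at hy
  have h2 := (lt_pw_iff_cost (1200 * k) N p (1199 * k) (by omega) hN hp).1 hy
  unfold wt
  have h3 : ((cost (1200 * k) N p : ℕ) : ℝ) ≤ 1199 * k := by exact_mod_cast h2
  have h4 : ((cost (1200 * k) N p : ℝ) - 1) / (1199 * k) ≤ 1 := by
    rw [div_le_one (by positivity)]
    linarith
  linarith

theorem wt_SS_zero (P : Finset ℕ) (a : ℕ → ℕ) (par : Bool) (z : ℕ) (L : ℤ)
    (f : Finset ℕ → ℝ) (h : ∀ T, f T = 0) : SS P a par z L f = 0 := by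
  unfold SS
  exact Finset.sum_eq_zero fun T _ => by rw [h, mul_zero]

theorem wt_WW_le (P : Finset ℕ) (a : ℕ → ℕ) (z y : ℕ) (L : ℤ) (w : ℕ → ℝ) (lam : ℝ)
    (hlam : 0 ≤ lam) (B : Finset ℕ) (hw : ∀ p ∈ P, p < y → 0 ≤ w (a p)) :
    WW P a z y L w lam (fun T => if T ⊆ B then 1 else 0) ≤
      (if ∀ p ∈ P, p < z → p ∉ B then (1 : ℝ) else 0) *
        (1 - lam * ∑ p ∈ P.filter (fun p => z ≤ p ∧ p < y),
          (if p ∈ B then w (a p) else 0)) := by
  set I : ℝ := if ∀ p ∈ P, p < z → p ∉ B then (1 : ℝ) else 0 with hI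
  unfold WW
  have h1 := SS_lower P a z L B
  have h2 : ∑ p ∈ P.filter (fun p => z ≤ p ∧ p < y), (if p ∈ B then w (a p) else 0) * I
      ≤ ∑ p ∈ P.filter (fun p => z ≤ p ∧ p < y),
        w (a p) * SS P a true z (L - a p) (fun T => if insert p T ⊆ B then 1 else 0) := by
    refine Finset.sum_le_sum fun p hp => ?_
    rw [Finset.mem_filter] at hp
    split_ifs with hpB
    · have h3 : (fun T : Finset ℕ => if insert p T ⊆ B then (1 : ℝ) else 0)
          = fun T : Finset ℕ => if T ⊆ B then (1 : ℝ) else 0 := by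
        funext T
        simp only [Finset.insert_subset_iff, hpB, true_and]
      rw [h3]
      exact mul_le_mul_of_nonneg_left (SS_upper P a z (L - a p) B) (hw p hp.1 hp.2.2)
    · rw [wt_SS_zero]
      · simp
      · intro T
        rw [if_neg]
        rw [Finset.insert_subset_iff]
        exact fun h => hpB h.1
  rw [← Finset.sum_mul] at h2
  have h4 := mul_le_mul_of_nonneg_left h2 hlam
  simp only
  nlinarith

theorem wt_core (N : ℕ) (hN : 2 ≤ N) (hlog : 1200 * Real.log 5 ≤ Real.log N) (k m : ℕ)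
    (hk : 1 ≤ k) (hm0 : 0 < m) (hm : (m : ℝ) ≤ 5 * (N : ℝ) ^ 2)
    (hz : ∀ p : ℕ, p.Prime → p ∣ m → pw N zExp ≤ p) (hsq : Squarefree m)
    (h3 : 3 ≤ #m.primeFactors) :
    1196 / 1199 ≤ ∑ p ∈ m.primeFactors.filter (fun p => p < pw N yExp),
      wt k (cost (1200 * k) N p) := by
  have hN1 : (1 : ℝ) < N := by exact_mod_cast (by omega : 1 < N)
  have hN0 : (0 : ℝ) < N := by linarith
  have hl : 0 < Real.log N := Real.log_pos hN1
  set S := m.primeFactors with hS
  set l : ℕ → ℝ := fun p => Real.log p / Real.log N with hldef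
  have hSp : ∀ p ∈ S, p.Prime ∧ p ∣ m := fun p hp =>
    ⟨Nat.prime_of_mem_primeFactors hp, Nat.dvd_of_mem_primeFactors hp⟩
  have hlz : ∀ p ∈ S, 9 / 40 ≤ l p := by
    intro p hp
    exact wt_log_ge N p hN zExp (hSp p hp).1 (hz p (hSp p hp).1 (hSp p hp).2)
  have hl0 : ∀ p ∈ S, 0 ≤ l p := fun p hp => le_trans (by norm_num) (hlz p hp)
  have hsum : ∑ p ∈ S, l p ≤ 2401 / 1200 := by
    have h4 : ∑ p ∈ S, l p = Real.log m / Real.log N := by
      rw [hldef, ← Finset.sum_div, ← Real.log_prod (fun p hp => by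
        have := (hSp p hp).1.pos
        positivity)]
      congr 2
      have h5 := Nat.prod_primeFactors_of_squarefree hsq
      rw [← hS] at h5
      have h55 := congrArg (Nat.cast : ℕ → ℝ) h5
      rw [Nat.cast_prod] at h55
      exact h55
    rw [h4, div_le_iff₀ hl]
    have h6 : Real.log m ≤ Real.log (5 * (N : ℝ) ^ 2) :=
      Real.log_le_log (by exact_mod_cast hm0) hm
    rw [Real.log_mul (by norm_num) (by positivity), Real.log_pow] at h6
    push_cast at h6
    linarith
  have hsplit := Finset.sum_filter_add_sum_filter_not S (fun p => p < pw N yExp) l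
  have hcard := Finset.card_filter_add_card_filter_not (s := S) (fun p => p < pw N yExp)
  set T := S.filter (fun p => p < pw N yExp) with hT
  set U := S.filter (fun p => ¬ p < pw N yExp) with hU
  have hw : ∑ p ∈ T, (1 - 1200 / 1199 * l p) ≤ ∑ p ∈ T, wt k (cost (1200 * k) N p) := by
    refine Finset.sum_le_sum fun p hp => ?_
    have hp' := Finset.mem_of_mem_filter p hp
    exact wt_weight_ge N k p hN hk (hSp p hp').1.pos
  rw [Finset.sum_sub_distrib, ← Finset.mul_sum, Finset.sum_const, nsmul_eq_mul, mul_one] at hw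
  have hlU : ∀ p ∈ U, 1199 / 1200 ≤ l p := by
    intro p hp
    rw [hU, Finset.mem_filter, not_lt] at hp
    exact wt_log_ge N p hN yExp (hSp p hp.1).1 hp.2
  have hUsub : U ⊆ S := Finset.filter_subset _ _
  have hU1 : #U ≤ 1 := by
    by_contra hcon
    push Not at hcon
    obtain ⟨p, hp, q, hq, hpq⟩ := Finset.one_lt_card.1 hcon
    obtain ⟨t, ht, htp, htq⟩ : ∃ t ∈ S, t ≠ p ∧ t ≠ q := by
      have h7 : 0 < #((S.erase p).erase q) := by
        have e1 : #(S.erase p) = #S - 1 := Finset.card_erase_of_mem (hUsub hp)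
        have e2 := Finset.pred_card_le_card_erase (s := S.erase p) (a := q)
        omega
      obtain ⟨t, ht⟩ := Finset.card_pos.1 h7
      rw [Finset.mem_erase, Finset.mem_erase] at ht
      exact ⟨t, ht.2.2, ht.2.1, ht.1⟩
    have h8 : ∑ x ∈ ({p, q, t} : Finset ℕ), l x ≤ ∑ x ∈ S, l x := by
      refine Finset.sum_le_sum_of_subset_of_nonneg ?_ fun x hx _ => hl0 x hx
      intro x hx
      simp only [Finset.mem_insert, Finset.mem_singleton] at hx
      rcases hx with rfl | rfl | rfl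
      · exact hUsub hp
      · exact hUsub hq
      · exact ht
    rw [Finset.sum_insert (by simp [hpq, htp.symm]), Finset.sum_insert (by simp [htq.symm]),
      Finset.sum_singleton] at h8
    have h9 := hlU p hp
    have h10 := hlU q hq
    have h11 := hlz t ht
    linarith
  rcases Nat.lt_or_ge 0 (#U) with hUpos | hUzero
  · have hUeq : #U = 1 := by omega
    obtain ⟨p, hp⟩ := Finset.card_eq_one.1 hUeq
    have h12 : 1199 / 1200 ≤ ∑ x ∈ U, l x := by
      rw [hp, Finset.sum_singleton]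
      exact hlU p (by rw [hp]; exact Finset.mem_singleton_self p)
    have h13 : 2 ≤ #T := by omega
    have h14 : (2 : ℝ) ≤ #T := by exact_mod_cast h13
    have h15 : ∑ x ∈ T, l x ≤ 1202 / 1200 := by linarith
    linarith
  · have hU0 : U = ∅ := Finset.card_eq_zero.1 (by omega)
    rw [hU0, Finset.sum_empty, add_zero] at hsplit
    rw [hU0, Finset.card_empty, add_zero] at hcard
    have h14 : (3 : ℝ) ≤ #T := by rw [hcard]; exact_mod_cast h3
    have h15 : ∑ x ∈ T, l x ≤ 2401 / 1200 := by rw [hsplit]; exact hsum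
    linarith

open Classical in
theorem wt_ineq : ∃ N₀ : ℕ, ∀ N : ℕ, N₀ ≤ N → ∀ (k : ℕ) (δ : ℝ) (n : ℕ), 1 ≤ k → 0 < δ →
    δ ≤ 1 / 10 → n ∈ Ioc N (2 * N) → Rough (pw N δ) n →
    WW (PQ (pw N δ) N) (cost (1200 * k) N) (pw N zExp) (pw N yExp) (1298 * k) (wt k) lamb
        (fun T => if T ⊆ (PQ (pw N δ) N).filter (fun p => p ∣ n ^ 2 + 1) then 1 else 0) ≤
      (if ArithmeticFunction.cardFactors (n ^ 2 + 1) ≤ 2 then 1 else 0) +
        (if Bad N n then 1 else 0) := by
  have htend : Filter.Tendsto (fun N : ℕ => Real.log (N : ℝ)) Filter.atTop Filter.atTop :=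
    Real.tendsto_log_atTop.comp tendsto_natCast_atTop_atTop
  obtain ⟨N₁, hN₁⟩ := Filter.eventually_atTop.1
    (htend.eventually_ge_atTop (1200 * Real.log 5))
  refine ⟨max N₁ 2, fun N hN k δ n hk hδ hδ1 hn hR => ?_⟩
  have hN2 : 2 ≤ N := (le_max_right _ _).trans hN
  have hlog := hN₁ N ((le_max_left _ _).trans hN)
  rw [Finset.mem_Ioc] at hn
  set P := PQ (pw N δ) N with hP
  set B := P.filter (fun p => p ∣ n ^ 2 + 1) with hB
  set z := pw N zExp with hz
  set y := pw N yExp with hy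
  have hzN : z ≤ N := wt_pw_le N hN2 _ (by unfold zExp; norm_num)
  have hyN : y ≤ N := wt_pw_le N hN2 _ (by unfold yExp; norm_num)
  have hPmem : ∀ p, p ∈ P ↔ (pw N δ ≤ p ∧ p < N) ∧ p.Prime := by
    intro p
    rw [hP]
    unfold PQ
    rw [Finset.mem_filter, Finset.mem_Ico]
  have hlam : (0 : ℝ) ≤ lamb := by unfold lamb; norm_num
  have h1 := wt_WW_le P (cost (1200 * k) N) z y (1298 * k) (wt k) lamb hlam B
    (fun p hp hpy => wt_weight_nonneg N k p hN2 hk ((hPmem p).1 hp).2.pos hpy)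
  have hbound : WW P (cost (1200 * k) N) z y (1298 * k) (wt k) lamb
      (fun T => if T ⊆ B then 1 else 0) ≤
      (if ArithmeticFunction.cardFactors (n ^ 2 + 1) ≤ 2 then (1 : ℝ) else 0) +
        (if Bad N n then 1 else 0) := by
    refine h1.trans ?_
    have hR1 : (0 : ℝ) ≤ (if ArithmeticFunction.cardFactors (n ^ 2 + 1) ≤ 2 then (1 : ℝ) else 0) := by
      split_ifs <;> norm_num
    have hR2 : (0 : ℝ) ≤ (if Bad N n then (1 : ℝ) else 0) := by
      split_ifs <;> norm_num
    by_cases hI : ∀ p ∈ P, p < z → p ∉ B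
    · rw [if_pos hI, one_mul]
      have hsumnn : 0 ≤ ∑ p ∈ P.filter (fun p => z ≤ p ∧ p < y),
          (if p ∈ B then wt k (cost (1200 * k) N p) else 0) := by
        refine Finset.sum_nonneg fun p hp => ?_
        rw [Finset.mem_filter] at hp
        split_ifs
        · exact wt_weight_nonneg N k p hN2 hk ((hPmem p).1 hp.1).2.pos hp.2.2
        · exact le_rfl
      by_cases hc : ArithmeticFunction.cardFactors (n ^ 2 + 1) ≤ 2
      · rw [if_pos hc]
        nlinarith [mul_nonneg hlam hsumnn]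
      by_cases hbad : Bad N n
      · rw [if_pos hbad]
        nlinarith [mul_nonneg hlam hsumnn]
      rw [if_neg hc, if_neg hbad]
      have hfac : ∀ p : ℕ, p.Prime → p ∣ n ^ 2 + 1 → z ≤ p := by
        intro p hp hdvd
        by_contra hlt
        push Not at hlt
        have hpR := hR p hp (Dvd.dvd.mul_right hdvd _)
        have hpP : p ∈ P := (hPmem p).2 ⟨⟨hpR, by omega⟩, hp⟩
        exact hI p hpP hlt (by rw [hB, Finset.mem_filter]; exact ⟨hpP, hdvd⟩)
      have hsq : Squarefree (n ^ 2 + 1) := by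
        rw [Nat.squarefree_iff_prime_squarefree]
        intro p hp hpp
        apply hbad
        exact ⟨⟨p, hp, by rw [sq]; exact hpp⟩, hfac⟩
      have hcard : 3 ≤ #(n ^ 2 + 1).primeFactors := by
        have h4 : ArithmeticFunction.cardDistinctFactors (n ^ 2 + 1)
            = ArithmeticFunction.cardFactors (n ^ 2 + 1) :=
          (ArithmeticFunction.cardDistinctFactors_eq_cardFactors_iff_squarefree
            (Nat.succ_ne_zero _)).2 hsq
        have h5 : ArithmeticFunction.cardDistinctFactors (n ^ 2 + 1)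
            = #(n ^ 2 + 1).primeFactors := rfl
        omega
      have hm : (((n ^ 2 + 1 : ℕ)) : ℝ) ≤ 5 * (N : ℝ) ^ 2 := by
        have h6 : (n : ℝ) ≤ 2 * N := by exact_mod_cast hn.2
        have h7 : (1 : ℝ) ≤ N := by exact_mod_cast (by omega : 1 ≤ N)
        push_cast
        nlinarith [Nat.cast_nonneg (α := ℝ) n]
      have hcore := wt_core N hN2 hlog k (n ^ 2 + 1) hk (Nat.succ_pos _) hm hfac hsq hcard
      have hsumeq : ∑ p ∈ (n ^ 2 + 1).primeFactors.filter (fun p => p < pw N yExp),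
          wt k (cost (1200 * k) N p)
          ≤ ∑ p ∈ P.filter (fun p => z ≤ p ∧ p < y),
            (if p ∈ B then wt k (cost (1200 * k) N p) else 0) := by
        rw [← Finset.sum_filter]
        refine Finset.sum_le_sum_of_subset_of_nonneg ?_ ?_
        · intro p hp
          rw [Finset.mem_filter, Nat.mem_primeFactors] at hp
          obtain ⟨⟨hp1, hp2, _⟩, hp3⟩ := hp
          have hpR := hR p hp1 (Dvd.dvd.mul_right hp2 _)
          have hpP : p ∈ P := (hPmem p).2 ⟨⟨hpR, lt_of_lt_of_le hp3 hyN⟩, hp1⟩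
          rw [Finset.mem_filter, Finset.mem_filter]
          exact ⟨⟨hpP, hfac p hp1 hp2, hp3⟩, by rw [hB, Finset.mem_filter]; exact ⟨hpP, hp2⟩⟩
        · intro p hp _
          rw [Finset.mem_filter, Finset.mem_filter] at hp
          exact wt_weight_nonneg N k p hN2 hk ((hPmem p).1 hp.1.1).2.pos hp.1.2.2
      have hfin : lamb * (1196 / 1199) = 1 := by unfold lamb; norm_num
      have h8 := mul_le_mul_of_nonneg_left (hcore.trans hsumeq) hlam
      linarith
    · rw [if_neg hI, zero_mul]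
      linarith
  exact hbound

end Pool.Agent.Work.MP_2dba45_nt.Sv
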