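import Mathlib
import Pool.Agent.Work.MP_2dba45_nt.Sv.Defs
import Pool.Agent.Work.MP_2dba45_nt.Sv.Wt

set_option autoImplicit false

/-!
Module NSQ. Few exceptional n.
-/

namespace Pool.Agent.Work.MP_2dba45_nt.Sv

open Finset Pool.Agent.Work.MP_2dba45_nt.BilDef

theorem nsq_class (N m v : ℕ) (hm : 0 < m) :
    (#((Ioc N (2 * N)).filter (fun n => n ≡ v [MOD m])) : ℝ) ≤ (N : ℝ) / m + 1 := by
  have h := Nat.Ioc_filter_modEq_card N (2 * N) hm v
  have hm' : (0 : ℚ) < m := by exact_mod_cast hm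
  have h1 : ((#((Ioc N (2 * N)).filter (fun n => n ≡ v [MOD m])) : ℕ) : ℚ) ≤ (N : ℚ) / m + 1 := by
    have h2 : ((#((Ioc N (2 * N)).filter (fun n => n ≡ v [MOD m])) : ℤ) : ℚ)
        = ((max (⌊(((2 * N : ℕ) : ℚ) - (v : ℚ)) / (m : ℚ)⌋ - ⌊((N : ℚ) - (v : ℚ)) / (m : ℚ)⌋) 0
          : ℤ) : ℚ) := by
      exact_mod_cast congrArg (Int.cast : ℤ → ℚ) h
    have h3 : ((#((Ioc N (2 * N)).filter (fun n => n ≡ v [MOD m])) : ℕ) : ℚ)
        = ((#((Ioc N (2 * N)).filter (fun n => n ≡ v [MOD m])) : ℤ) : ℚ) := by push_cast; rfl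
    rw [h3, h2, Int.cast_max]
    refine max_le ?_ ?_
    · push_cast
      have e1 := Int.floor_le ((2 * (N : ℚ) - (v : ℚ)) / (m : ℚ))
      have e2 := Int.lt_floor_add_one (((N : ℚ) - (v : ℚ)) / (m : ℚ))
      have e3 : (2 * (N : ℚ) - (v : ℚ)) / (m : ℚ) = ((N : ℚ) - (v : ℚ)) / (m : ℚ) + (N : ℚ) / m := by
        field_simp
        ring
      rw [e3] at e1
      rw [e3]
      linarith
    · simp only [Int.cast_zero]
      positivity
  have h4 : (((#((Ioc N (2 * N)).filter (fun n => n ≡ v [MOD m])) : ℕ) : ℚ) : ℝ)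
      ≤ (((N : ℚ) / m + 1 : ℚ) : ℝ) := by exact_mod_cast h1
  push_cast at h4
  exact h4

theorem nsq_prime (N p : ℕ) (hp : p.Prime) (h2 : 3 ≤ p) :
    (#((Ioc N (2 * N)).filter (fun n => p ^ 2 ∣ n ^ 2 + 1)) : ℝ) ≤ 2 * ((N : ℝ) / (p ^ 2 : ℕ) + 1) := by
  classical
  have hpp : 0 < p ^ 2 := pow_pos hp.pos 2
  rcases ((Ioc N (2 * N)).filter (fun n => p ^ 2 ∣ n ^ 2 + 1)).eq_empty_or_nonempty with he | ⟨m, hm⟩
  · rw [he, Finset.card_empty, Nat.cast_zero]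
    positivity
  rw [Finset.mem_filter] at hm
  set v := p ^ 2 - m % p ^ 2 with hv
  have hvm : v + m ≡ 0 [MOD p ^ 2] := by
    have h3 : m % p ^ 2 < p ^ 2 := Nat.mod_lt _ hpp
    have h4 : v + m ≡ v + m % p ^ 2 [MOD p ^ 2] := Nat.ModEq.add_left _ (Nat.mod_modEq m _).symm
    have h5 : v + m % p ^ 2 = p ^ 2 := by omega
    rw [h5] at h4
    exact h4.trans (by simp [Nat.ModEq])
  have hsub : (Ioc N (2 * N)).filter (fun n => p ^ 2 ∣ n ^ 2 + 1)
      ⊆ (Ioc N (2 * N)).filter (fun n => n ≡ m [MOD p ^ 2])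
        ∪ (Ioc N (2 * N)).filter (fun n => n ≡ v [MOD p ^ 2]) := by
    intro n hn
    rw [Finset.mem_filter] at hn
    rw [Finset.mem_union, Finset.mem_filter, Finset.mem_filter]
    have h6 : ((p ^ 2 : ℕ) : ℤ) ∣ ((n : ℤ) - m) * ((n : ℤ) + m) := by
      have e1 : ((n : ℤ) - m) * ((n : ℤ) + m) = ((n ^ 2 + 1 : ℕ) : ℤ) - ((m ^ 2 + 1 : ℕ) : ℤ) := by
        push_cast; ring
      rw [e1]
      exact dvd_sub (Int.natCast_dvd_natCast.2 hn.2) (Int.natCast_dvd_natCast.2 hm.2)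
    have hpI : Prime (p : ℤ) := Nat.prime_iff_prime_int.1 hp
    have hnot : ¬ ((p : ℤ) ∣ (n : ℤ) - m ∧ (p : ℤ) ∣ (n : ℤ) + m) := by
      rintro ⟨a1, a2⟩
      have a3 : (p : ℤ) ∣ 2 * n := by
        have := dvd_add a1 a2
        have e : (n : ℤ) - m + (n + m) = 2 * n := by ring
        rwa [e] at this
      rcases hpI.dvd_or_dvd a3 with a4 | a4
      · have a5 : p ∣ 2 := by exact_mod_cast a4
        have := Nat.le_of_dvd (by norm_num) a5
        omega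
      · have a5 : p ∣ n := by exact_mod_cast a4
        have a6 : p ∣ n ^ 2 + 1 := (dvd_pow_self p two_ne_zero).trans hn.2
        have a7 : p ∣ 1 := (Nat.dvd_add_right (a5.trans (dvd_pow_self n two_ne_zero))).1 a6
        have := Nat.le_of_dvd one_pos a7
        omega
    by_cases hc : (p : ℤ) ∣ (n : ℤ) - m
    · left
      refine ⟨hn.1, ?_⟩
      have hcop : IsCoprime ((p ^ 2 : ℕ) : ℤ) ((n : ℤ) + m) := by
        push_cast
        refine IsCoprime.pow_left ?_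
        rw [Int.isCoprime_iff_gcd_eq_one, ← Int.isCoprime_iff_gcd_eq_one]
        exact (Prime.coprime_iff_not_dvd hpI).2 fun h => hnot ⟨hc, h⟩
      have h7 : ((p ^ 2 : ℕ) : ℤ) ∣ (n : ℤ) - m := hcop.dvd_of_dvd_mul_right h6
      exact ((Nat.modEq_iff_dvd).2 h7).symm
    · right
      refine ⟨hn.1, ?_⟩
      have hcop : IsCoprime ((p ^ 2 : ℕ) : ℤ) ((n : ℤ) - m) := by
        push_cast
        refine IsCoprime.pow_left ?_
        exact (Prime.coprime_iff_not_dvd hpI).2 hc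
      have h7 : ((p ^ 2 : ℕ) : ℤ) ∣ (n : ℤ) + m := hcop.dvd_of_dvd_mul_left h6
      have h8 : p ^ 2 ∣ n + m := by exact_mod_cast h7
      have h9 : n + m ≡ v + m [MOD p ^ 2] :=
        ((Nat.modEq_zero_iff_dvd).2 h8).trans hvm.symm
      exact Nat.ModEq.add_right_cancel' m h9
  have h10 := Finset.card_le_card hsub
  have h11 := h10.trans (Finset.card_union_le _ _)
  have h12 : (#((Ioc N (2 * N)).filter (fun n => p ^ 2 ∣ n ^ 2 + 1)) : ℝ)
      ≤ (#((Ioc N (2 * N)).filter (fun n => n ≡ m [MOD p ^ 2])) : ℝ)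
        + (#((Ioc N (2 * N)).filter (fun n => n ≡ v [MOD p ^ 2])) : ℝ) := by exact_mod_cast h11
  have h13 := nsq_class N (p ^ 2) m hpp
  have h14 := nsq_class N (p ^ 2) v hpp
  linarith

open Classical in
theorem nsq : ∃ N₀ : ℕ, ∀ N : ℕ, N₀ ≤ N →
    (#((Ioc N (2 * N)).filter (fun n => Bad N n)) : ℝ) ≤ (N : ℝ) ^ ((19 : ℝ) / 20) := by
  have ht : Filter.Tendsto (fun N : ℕ => (N : ℝ) ^ ((1 : ℝ) / 16)) Filter.atTop Filter.atTop :=
    (tendsto_rpow_atTop (by norm_num)).comp tendsto_natCast_atTop_atTop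
  have ht2 : Filter.Tendsto (fun N : ℕ => (N : ℝ) ^ zExp) Filter.atTop Filter.atTop :=
    (tendsto_rpow_atTop (by unfold zExp; norm_num)).comp tendsto_natCast_atTop_atTop
  obtain ⟨N₁, hN₁⟩ := Filter.eventually_atTop.1
    ((ht.eventually_ge_atTop 12).and (ht2.eventually_ge_atTop 3))
  refine ⟨max N₁ 2, fun N hN => ?_⟩
  have hN2 : 2 ≤ N := (le_max_right _ _).trans hN
  obtain ⟨h12, hz3⟩ := hN₁ N ((le_max_left _ _).trans hN)
  have hN1 : (1 : ℝ) ≤ N := by exact_mod_cast (by omega : 1 ≤ N)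
  have hN0 : (0 : ℝ) < N := by linarith
  set z := pw N zExp with hz
  have hzr : (N : ℝ) ^ zExp ≤ z := Nat.le_ceil _
  have hz3' : 3 ≤ z := by
    have : (3 : ℝ) ≤ z := hz3.trans hzr
    exact_mod_cast this
  set A : ℝ := (N : ℝ) ^ ((71 : ℝ) / 80) with hA
  have hA1 : 1 ≤ A := Real.one_le_rpow hN1 (by norm_num)
  set Y := ⌊3 * A⌋₊ + 1 with hY
  have hcover : (Ioc N (2 * N)).filter (fun n => Bad N n) ⊆
      ((Ico z Y).filter Nat.Prime).biUnion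
        (fun p => (Ioc N (2 * N)).filter (fun n => p ^ 2 ∣ n ^ 2 + 1)) := by
    intro n hn
    rw [Finset.mem_filter] at hn
    obtain ⟨hnI, ⟨p, hp, hdvd⟩, hfac⟩ := hn
    rw [Finset.mem_Ioc] at hnI
    rw [Finset.mem_biUnion]
    refine ⟨p, ?_, by rw [Finset.mem_filter, Finset.mem_Ioc]; exact ⟨hnI, hdvd⟩⟩
    rw [Finset.mem_filter, Finset.mem_Ico]
    have hpz : z ≤ p := hfac p hp ((dvd_pow_self p two_ne_zero).trans hdvd)
    refine ⟨⟨hpz, ?_⟩, hp⟩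
    obtain ⟨k, hk⟩ := hdvd
    have hk1 : k ≠ 1 := by
      rintro rfl
      rw [mul_one] at hk
      have h1 : n < p := by
        by_contra hcon
        push Not at hcon
        have : p ^ 2 ≤ n ^ 2 := Nat.pow_le_pow_left hcon 2
        omega
      have h2 : (n + 1) ^ 2 ≤ p ^ 2 := Nat.pow_le_pow_left h1 2
      rw [← hk] at h2
      nlinarith
    have hk0 : 0 < k := by
      rcases Nat.eq_zero_or_pos k with rfl | h
      · simp at hk
      · exact h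
    obtain ⟨q, hq, hqk⟩ := Nat.exists_prime_and_dvd hk1
    have hqz : z ≤ q := hfac q hq (by rw [hk]; exact hqk.mul_left _)
    have h3 : p ^ 2 * z ≤ n ^ 2 + 1 := by
      rw [hk]
      exact Nat.mul_le_mul_left _ (hqz.trans (Nat.le_of_dvd hk0 hqk))
    have h4 : ((p : ℝ)) ^ 2 * (N : ℝ) ^ zExp ≤ 5 * (N : ℝ) ^ 2 := by
      have h5 : ((p : ℝ)) ^ 2 * z ≤ (n : ℝ) ^ 2 + 1 := by exact_mod_cast h3
      have h6 : (n : ℝ) ≤ 2 * N := by exact_mod_cast hnI.2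
      have h7 : ((p : ℝ)) ^ 2 * (N : ℝ) ^ zExp ≤ ((p : ℝ)) ^ 2 * z :=
        mul_le_mul_of_nonneg_left hzr (by positivity)
      nlinarith [Nat.cast_nonneg (α := ℝ) n]
    have h8 : A ^ 2 * (N : ℝ) ^ zExp = (N : ℝ) ^ 2 := by
      rw [hA, ← Real.rpow_natCast ((N : ℝ) ^ ((71 : ℝ) / 80)) 2, ← Real.rpow_mul hN0.le,
        ← Real.rpow_add hN0, ← Real.rpow_natCast (N : ℝ) 2]
      congr 1
      unfold zExp
      norm_num
    have hzpos : 0 < (N : ℝ) ^ zExp := Real.rpow_pos_of_pos hN0 _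
    have h9 : (p : ℝ) ^ 2 ≤ 5 * A ^ 2 := by
      have : (p : ℝ) ^ 2 * (N : ℝ) ^ zExp ≤ (5 * A ^ 2) * (N : ℝ) ^ zExp := by
        rw [mul_assoc, h8]; exact h4
      exact le_of_mul_le_mul_right this hzpos
    have h10 : (p : ℝ) ≤ 3 * A := by
      apply le_of_sq_le_sq _ (by positivity)
      nlinarith
    have h11 : p ≤ ⌊3 * A⌋₊ := Nat.le_floor h10
    omega
  have hc1 := Finset.card_le_card hcover
  have hc2 := hc1.trans Finset.card_biUnion_le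
  have hc3 : (#((Ioc N (2 * N)).filter (fun n => Bad N n)) : ℝ)
      ≤ ∑ p ∈ (Ico z Y).filter Nat.Prime,
        (#((Ioc N (2 * N)).filter (fun n => p ^ 2 ∣ n ^ 2 + 1)) : ℝ) := by exact_mod_cast hc2
  refine hc3.trans ?_
  have hc4 : ∑ p ∈ (Ico z Y).filter Nat.Prime,
        (#((Ioc N (2 * N)).filter (fun n => p ^ 2 ∣ n ^ 2 + 1)) : ℝ)
      ≤ ∑ p ∈ Ico z Y, (2 * (N : ℝ) * ((p : ℝ) ^ 2)⁻¹ + 2) := by
    rw [Finset.sum_filter]
    refine Finset.sum_le_sum fun p hp => ?_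
    rw [Finset.mem_Ico] at hp
    split_ifs with hpp
    · refine (nsq_prime N p hpp (by omega)).trans (le_of_eq ?_)
      push_cast
      ring
    · positivity
  refine hc4.trans ?_
  rw [Finset.sum_add_distrib, ← Finset.mul_sum, Finset.sum_const, nsmul_eq_mul]
  have hIoo : Ico z Y = Ioo (z - 1) Y := by
    ext x
    rw [Finset.mem_Ico, Finset.mem_Ioo]
    omega
  have hs1 : ∑ p ∈ Ico z Y, ((p : ℝ) ^ 2)⁻¹ ≤ 2 / z := by
    rw [hIoo]
    have := sum_Ioo_inv_sq_le (α := ℝ) (z - 1) Y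
    have e : ((z - 1 : ℕ) : ℝ) + 1 = z := by
      rw [Nat.cast_sub (by omega)]; push_cast; ring
    rwa [e] at this
  have hs2 : (#(Ico z Y) : ℝ) ≤ 3 * A := by
    rw [Nat.card_Ico]
    have h1 : Y - z ≤ ⌊3 * A⌋₊ := by omega
    have h2 : ((Y - z : ℕ) : ℝ) ≤ (⌊3 * A⌋₊ : ℝ) := by exact_mod_cast h1
    exact h2.trans (Nat.floor_le (by positivity))
  have hzpos : 0 < (N : ℝ) ^ zExp := Real.rpow_pos_of_pos hN0 _
  have hs3 : 2 * (N : ℝ) * (2 / z) ≤ 4 * A := by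
    have h1 : 2 / (z : ℝ) ≤ 2 / (N : ℝ) ^ zExp :=
      div_le_div_of_nonneg_left (by norm_num) hzpos hzr
    have h2 : (N : ℝ) ≤ A * (N : ℝ) ^ zExp := by
      rw [hA, ← Real.rpow_add hN0]
      calc (N : ℝ) = (N : ℝ) ^ (1 : ℝ) := (Real.rpow_one _).symm
        _ ≤ _ := Real.rpow_le_rpow_of_exponent_le hN1 (by unfold zExp; norm_num)
    calc 2 * (N : ℝ) * (2 / z) ≤ 2 * (N : ℝ) * (2 / (N : ℝ) ^ zExp) := by gcongr
      _ = 4 * (N : ℝ) / (N : ℝ) ^ zExp := by ring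
      _ ≤ 4 * A := by
        rw [div_le_iff₀ hzpos]
        nlinarith
  have hs4 : 12 * A ≤ (N : ℝ) ^ ((19 : ℝ) / 20) := by
    have h1 : (N : ℝ) ^ ((19 : ℝ) / 20) = (N : ℝ) ^ ((1 : ℝ) / 16) * A := by
      rw [hA, ← Real.rpow_add hN0]; norm_num
    rw [h1]
    exact mul_le_mul_of_nonneg_right h12 (by positivity)
  have hs5 : 2 * (N : ℝ) * ∑ p ∈ Ico z Y, ((p : ℝ) ^ 2)⁻¹ ≤ 2 * (N : ℝ) * (2 / z) :=
    mul_le_mul_of_nonneg_left hs1 (by positivity)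
  linarith

end Pool.Agent.Work.MP_2dba45_nt.Sv
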