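import Mathlib
import Pool.Agent.Work.MP_2dba45_nt.Sv.Defs
import Pool.Agent.Work.MP_2dba45_nt.Psum

set_option autoImplicit false

/-!
Module MERT1. Partial summation from Nu.mert_nu with error O(1 / log w).
-/

namespace Pool.Agent.Work.MP_2dba45_nt.Sv

open Finset Pool.Agent.Work.MP_2dba45_nt.BilDef
open Pool.Agent.Work.MP_2dba45_nt.Mert Pool.Agent.Work.MP_2dba45_nt.Nu
open Pool.Agent.Work.MP_2dba45_nt.Psum

/-- partial summation from a Mertens type estimate -/
theorem mt_psum (a : ℕ → ℝ) (C : ℝ) (hC0 : 0 ≤ C)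
    (hC : ∀ N : ℕ, 0 < N → |∑ n ∈ Ioc 0 N, a n * (Real.log n / n) - Real.log N| ≤ C)
    (w z : ℕ) (hw : 2 ≤ w) (hwz : w ≤ z) :
    |∑ n ∈ Ioc w z, a n / n - (Real.log (Real.log z) - Real.log (Real.log w))| ≤ (2 * C + 7) / Real.log w := by
  have hI : ∀ w z : ℕ, Ioc w z = Ico (w + 1) (z + 1) := by
    intro w z; ext x; simp only [Finset.mem_Ioc, Finset.mem_Ico]; omega
  set c : ℕ → ℝ := fun n => (a n * (Real.log n / n) - (Real.log n - Real.log ((n - 1 : ℕ) : ℝ))) /
    (2 * C + 1) with hc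
  have hCpos : 0 < 2 * C + 1 := by linarith
  have hS : ∀ m, w + 1 ≤ m → |∑ j ∈ Ico (w + 1) m, c j| ≤ 1 := by
    intro m hm
    obtain ⟨m, rfl⟩ : ∃ k, m = k + 1 := ⟨m - 1, by omega⟩
    have hm' : w ≤ m := by omega
    have e1 : ∑ j ∈ Ico (w + 1) (m + 1), a j * (Real.log j / j) =
        ∑ n ∈ Ioc 0 m, a n * (Real.log n / n) - ∑ n ∈ Ioc 0 w, a n * (Real.log n / n) := by
      rw [hI 0 m, hI 0 w, ← Finset.sum_Ico_consecutive _ (show 0 + 1 ≤ w + 1 by omega)
        (show w + 1 ≤ m + 1 by omega)]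
      ring
    have e2 : ∑ j ∈ Ico (w + 1) (m + 1), (Real.log j - Real.log ((j - 1 : ℕ) : ℝ)) =
        Real.log m - Real.log w := by
      clear hm
      induction m, hm' using Nat.le_induction with
      | base => simp
      | succ m hm ih =>
        have e1' : ∑ j ∈ Ico (w + 1) (m + 1), a j * (Real.log j / j) =
            ∑ n ∈ Ioc 0 m, a n * (Real.log n / n) - ∑ n ∈ Ioc 0 w, a n * (Real.log n / n) := by
          rw [hI 0 m, hI 0 w, ← Finset.sum_Ico_consecutive _ (show 0 + 1 ≤ w + 1 by omega)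
            (show w + 1 ≤ m + 1 by omega)]
          ring
        rw [Finset.sum_Ico_succ_top (by omega), ih e1']
        simp
    have e3 : ∑ j ∈ Ico (w + 1) (m + 1), c j =
        ((∑ n ∈ Ioc 0 m, a n * (Real.log n / n) - Real.log m) -
          (∑ n ∈ Ioc 0 w, a n * (Real.log n / n) - Real.log w)) / (2 * C + 1) := by
      rw [hc, ← Finset.sum_div, Finset.sum_sub_distrib, e1, e2]
      ring
    rw [e3, abs_div, abs_of_pos hCpos, div_le_one hCpos]
    have h1 := hC m (by omega)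
    have h2 := hC w (by omega)
    have := abs_sub (∑ n ∈ Ioc 0 m, a n * (Real.log n / n) - Real.log m)
          (∑ n ∈ Ioc 0 w, a n * (Real.log n / n) - Real.log w)
    linarith
  have hlog : ∀ n : ℕ, w + 1 ≤ n → 0 < Real.log n := by
    intro n hn
    apply Real.log_pos
    exact_mod_cast (by omega : 1 < n)
  have hab := abel_bound c (fun n => 1 / Real.log n) (w + 1) (z + 1) (by omega) hS
    (fun n hn => by have := hlog n hn; positivity)
    (fun n hn => by
      have := hlog n hn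
      apply one_div_le_one_div_of_le this
      apply Real.log_le_log
      · exact_mod_cast (by omega : 0 < n)
      · push_cast; linarith)
  have hlogw : 0 < Real.log w := by
    apply Real.log_pos
    exact_mod_cast (by omega : 1 < w)
  have hf : 1 / Real.log ((w + 1 : ℕ) : ℝ) ≤ 1 / Real.log w := by
    apply one_div_le_one_div_of_le hlogw
    apply Real.log_le_log
    · exact_mod_cast (by omega : 0 < w)
    · push_cast; linarith
  have hls := log_sum w z hw hwz
  have e4 : ∑ n ∈ Ioc w z, a n / n =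
      (2 * C + 1) * ∑ n ∈ Ico (w + 1) (z + 1), c n * (1 / Real.log n) +
      ∑ n ∈ Ico (w + 1) (z + 1),
        (Real.log n - Real.log ((n - 1 : ℕ) : ℝ)) * (1 / Real.log n) := by
    rw [hI, Finset.mul_sum, ← Finset.sum_add_distrib]
    refine Finset.sum_congr rfl fun n hn => ?_
    rw [Finset.mem_Ico] at hn
    have := (hlog n hn.1).ne'
    have hn0 : (n : ℝ) ≠ 0 := by
      have : 0 < n := by omega
      positivity
    simp only [hc]
    field_simp
    ring
  have h5 : |(2 * C + 1) * ∑ n ∈ Ico (w + 1) (z + 1), c n * (1 / Real.log n)|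
      ≤ (2 * C + 1) * (1 / Real.log w) := by
    rw [abs_mul, abs_of_pos hCpos]
    gcongr
    exact hab.trans hf
  rw [e4]
  have hwpos : (0 : ℝ) < w := by exact_mod_cast (by omega : 0 < w)
  have hw' : 1 / (w : ℝ) ≤ 1 / Real.log w := by
    apply one_div_le_one_div_of_le hlogw
    linarith [Real.log_le_sub_one_of_pos hwpos]
  have hz' : 0 ≤ 1 / (z : ℝ) := by positivity
  have e6 : (2 * C + 7) / Real.log w = (2 * C + 1) * (1 / Real.log w) + 6 * (1 / Real.log w) := by
    ring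
  rw [e6]
  have h0 : 0 ≤ 1 / Real.log w := by positivity
  rw [abs_le] at h5 ⊢
  constructor
  · linarith [h5.1, hls.2]
  · linarith [h5.2, hls.1]

theorem mt_psum_nu : ∃ C : ℝ, 0 ≤ C ∧ ∀ w z : ℕ, 2 ≤ w → w ≤ z →
    |∑ p ∈ (Ioc w z).filter Nat.Prime, g1 p -
      (Real.log (Real.log z) - Real.log (Real.log w))| ≤ C / Real.log w := by
  obtain ⟨C, hC0, hC⟩ := mert_nu
  refine ⟨2 * C + 7, by linarith, fun w z hw hwz => ?_⟩
  have := mt_psum (fun n => if n.Prime then (nu 1 n : ℝ) else 0) C hC0 (fun N hN => ?_) w z hw hwz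
  · rw [Finset.sum_filter]
    convert this using 3
    refine Finset.sum_congr rfl fun n _ => ?_
    unfold g1
    split_ifs <;> simp
  · have h := hC 1 (Or.inl rfl) N hN
    rw [Finset.sum_filter] at h
    convert h using 3
    refine Finset.sum_congr rfl fun n _ => ?_
    split_ifs <;> simp

theorem mt_loglog {w W : ℝ} (hw : 2 ≤ w) (h1 : w ≤ W) (h2 : W ≤ w + 1) :
    0 ≤ Real.log (Real.log W) - Real.log (Real.log w) ∧
      Real.log (Real.log W) - Real.log (Real.log w) ≤ 1 / Real.log w := by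
  have hlw : 0 < Real.log w := Real.log_pos (by linarith)
  have hlW : Real.log w ≤ Real.log W := Real.log_le_log (by linarith) h1
  have hlW0 : 0 < Real.log W := lt_of_lt_of_le hlw hlW
  constructor
  · linarith [Real.log_le_log hlw hlW]
  · rw [← Real.log_div hlW0.ne' hlw.ne']
    refine (Real.log_le_sub_one_of_pos (by positivity)).trans ?_
    have h3 : Real.log W - Real.log w ≤ 1 := by
      rw [← Real.log_div (by linarith) (by linarith)]
      refine (Real.log_le_sub_one_of_pos (div_pos (by linarith) (by linarith))).trans ?_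
      rw [sub_le_iff_le_add, div_le_iff₀ (by linarith)]
      linarith
    have h4 : Real.log W / Real.log w - 1 = (Real.log W - Real.log w) / Real.log w := by
      field_simp
    rw [h4]
    exact div_le_div_of_nonneg_right h3 hlw.le

theorem mt_g1_nonneg (p : ℕ) : 0 ≤ g1 p := by unfold g1; positivity

theorem mt_g1_le (p : ℕ) (hp : p.Prime) : g1 p ≤ 2 / p := by
  unfold g1
  have : (Nu.nu 1 p : ℝ) ≤ 2 := by exact_mod_cast nu_le 1 p hp
  have hp0 : (0 : ℝ) < p := by exact_mod_cast hp.pos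
  exact div_le_div_of_nonneg_right this hp0.le

theorem mt_shift (f : ℕ → ℝ) (W X : ℕ) (h : W ≤ X) :
    ∑ p ∈ (Ico W X).filter Nat.Prime, f p
      = ∑ p ∈ (Ioc W X).filter Nat.Prime, f p + (if W.Prime then f W else 0)
        - (if X.Prime then f X else 0) := by
  rw [Finset.sum_filter, Finset.sum_filter]
  have h1 := Finset.sum_Ico_add_eq_sum_Icc (f := fun p => if p.Prime then f p else 0) h
  have h2 := Finset.sum_Ioc_add_eq_sum_Icc (f := fun p => if p.Prime then f p else 0) h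
  linarith

theorem sum_g1 : ∃ C : ℝ, 0 ≤ C ∧ ∀ w x : ℝ, 2 ≤ w → w ≤ x →
    |∑ p ∈ (Ico ⌈w⌉₊ ⌈x⌉₊).filter Nat.Prime, g1 p -
      (Real.log (Real.log x) - Real.log (Real.log w))| ≤ C / Real.log w := by
  obtain ⟨C, hC0, hC⟩ := mt_psum_nu
  refine ⟨C + 6, by linarith, fun w x hw hwx => ?_⟩
  set W := ⌈w⌉₊ with hW
  set X := ⌈x⌉₊ with hX
  have hwW : w ≤ W := Nat.le_ceil w
  have hWw : (W : ℝ) ≤ w + 1 := (Nat.ceil_lt_add_one (by linarith)).le
  have hxX : x ≤ X := Nat.le_ceil x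
  have hXx : (X : ℝ) ≤ x + 1 := (Nat.ceil_lt_add_one (by linarith)).le
  have hWX : W ≤ X := Nat.ceil_le_ceil hwx
  have hW2 : 2 ≤ W := by
    have : (2 : ℝ) ≤ W := hw.trans hwW
    exact_mod_cast this
  have hlw : 0 < Real.log w := Real.log_pos (by linarith)
  have hlW : Real.log w ≤ Real.log W := Real.log_le_log (by linarith) hwW
  have hlx : Real.log w ≤ Real.log x := Real.log_le_log (by linarith) hwx
  have h1 := hC W X hW2 hWX
  have h2 := mt_loglog hw hwW hWw
  have h3 := mt_loglog (hw.trans hwx) hxX hXx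
  have h4 : ∀ Y : ℕ, w ≤ Y → 0 ≤ (if Y.Prime then g1 Y else 0) ∧
      (if Y.Prime then g1 Y else 0) ≤ 2 / Real.log w := by
    intro Y hY
    have hb : 2 / (Y : ℝ) ≤ 2 / Real.log w := by
      apply div_le_div_of_nonneg_left (by norm_num) hlw
      have := Real.log_le_sub_one_of_pos (x := w) (by linarith)
      linarith
    split_ifs with hp
    · exact ⟨mt_g1_nonneg Y, (mt_g1_le Y hp).trans hb⟩
    · exact ⟨le_rfl, by positivity⟩
  have h5 := h4 W hwW
  have h6 := h4 X (hwx.trans hxX)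
  have h7 : C / Real.log W ≤ C / Real.log w := div_le_div_of_nonneg_left hC0 hlw hlW
  have h8 : 1 / Real.log x ≤ 1 / Real.log w := one_div_le_one_div_of_le hlw hlx
  rw [mt_shift g1 W X hWX]
  have e6 : (C + 6) / Real.log w = C / Real.log w + 2 / Real.log w + 2 / Real.log w
      + 1 / Real.log w + 1 / Real.log w := by ring
  rw [e6]
  have h0 : 0 ≤ 1 / Real.log w := by positivity
  have h00 : 0 ≤ 2 / Real.log w := by positivity
  rw [abs_le] at h1 ⊢
  constructor
  · linarith [h1.1, h2.1, h2.2, h3.1, h3.2, h5.1, h5.2, h6.1, h6.2]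
  · linarith [h1.2, h2.1, h2.2, h3.1, h3.2, h5.1, h5.2, h6.1, h6.2]

/-- block sums of the two dimensional density -/
theorem gom_block : ∃ L₀ : ℝ, 0 ≤ L₀ ∧ ∀ (z : ℕ) (y : ℝ), 1 ≤ y →
    ∑ p ∈ (VV.PP z).filter (fun p : ℕ => y ≤ (p : ℝ) ∧ (p : ℝ) < y ^ 2), VV.gom p ≤ L₀ := by
  obtain ⟨C, hC0, hC⟩ := psum_nu
  refine ⟨2 * C + 2 * Real.log 4 + 5, by have := Real.log_nonneg (x := 4) (by norm_num); linarith,
    fun z y hy => ?_⟩
  have hlog4 : 0 ≤ Real.log 4 := Real.log_nonneg (by norm_num)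
  rcases lt_or_ge y 3 with hy3 | hy3
  · have hsub : (VV.PP z).filter (fun p : ℕ => y ≤ (p : ℝ) ∧ (p : ℝ) < y ^ 2)
        ⊆ Finset.Icc 1 9 := by
      intro p hp
      rw [Finset.mem_filter, VV.mem_PP] at hp
      rw [Finset.mem_Icc]
      refine ⟨hp.1.2.pos, ?_⟩
      have h1 : (p : ℝ) < 9 := by nlinarith [hp.2.2]
      exact_mod_cast h1.le
    have h1 : ∑ p ∈ (VV.PP z).filter (fun p : ℕ => y ≤ (p : ℝ) ∧ (p : ℝ) < y ^ 2), VV.gom p
        ≤ ∑ p ∈ (VV.PP z).filter (fun p : ℕ => y ≤ (p : ℝ) ∧ (p : ℝ) < y ^ 2), (1 / 2 : ℝ) := by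
      refine Finset.sum_le_sum fun p hp => ?_
      rw [Finset.mem_filter, VV.mem_PP] at hp
      exact VV.gom_le_half p hp.1.2
    refine h1.trans ?_
    rw [Finset.sum_const, nsmul_eq_mul]
    have h2 := Finset.card_le_card hsub
    rw [Nat.card_Icc] at h2
    have h3 : ((#((VV.PP z).filter (fun p : ℕ => y ≤ (p : ℝ) ∧ (p : ℝ) < y ^ 2)) : ℕ) : ℝ)
        ≤ 9 := by exact_mod_cast h2
    linarith
  · set W := ⌈y⌉₊ - 1 with hW
    set X := ⌈y ^ 2⌉₊ with hX
    have hy0 : (0 : ℝ) ≤ y := by linarith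
    have hceil : 3 ≤ ⌈y⌉₊ := by
      have : (3 : ℝ) ≤ ⌈y⌉₊ := hy3.trans (Nat.le_ceil y)
      exact_mod_cast this
    have hW2 : 2 ≤ W := by omega
    have hWc : (W : ℝ) + 1 = (⌈y⌉₊ : ℝ) := by
      rw [hW]
      have : ((⌈y⌉₊ - 1 : ℕ) : ℝ) = (⌈y⌉₊ : ℝ) - 1 := by
        rw [Nat.cast_sub (by omega)]; simp
      rw [this]; ring
    have hWlt : (W : ℝ) < y := by
      have := Nat.ceil_lt_add_one hy0
      linarith
    have hyW : y - 1 ≤ W := by
      have := Nat.le_ceil y
      linarith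
    have hXge : y ^ 2 ≤ X := Nat.le_ceil _
    have hXle : (X : ℝ) ≤ y ^ 2 + 1 := (Nat.ceil_lt_add_one (by positivity)).le
    have hWX : W ≤ X := by
      have : (W : ℝ) ≤ X := by nlinarith
      exact_mod_cast this
    have hsub : (VV.PP z).filter (fun p : ℕ => y ≤ (p : ℝ) ∧ (p : ℝ) < y ^ 2)
        ⊆ (Ioc W X).filter Nat.Prime := by
      intro p hp
      rw [Finset.mem_filter, VV.mem_PP] at hp
      rw [Finset.mem_filter, Finset.mem_Ioc]
      refine ⟨⟨?_, ?_⟩, hp.1.2⟩
      · have : (W : ℝ) < p := lt_of_lt_of_le hWlt hp.2.1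
        exact_mod_cast this
      · have : (p : ℝ) ≤ X := hp.2.2.le.trans hXge
        exact_mod_cast this
    have h1 : ∑ p ∈ (VV.PP z).filter (fun p : ℕ => y ≤ (p : ℝ) ∧ (p : ℝ) < y ^ 2), VV.gom p
        ≤ ∑ p ∈ (Ioc W X).filter Nat.Prime, ((nu 1 p : ℝ) / p + (nu 3 p : ℝ) / p) := by
      refine (Finset.sum_le_sum_of_subset_of_nonneg hsub fun p _ _ => VV.gom_nonneg p).trans ?_
      refine Finset.sum_le_sum fun p hp => ?_
      rw [Finset.mem_filter] at hp
      unfold VV.gom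
      rw [← add_div]
      have hp0 : (0 : ℝ) ≤ p := Nat.cast_nonneg p
      refine div_le_div_of_nonneg_right ?_ hp0
      exact_mod_cast VV.om_le_nu p hp.2
    rw [Finset.sum_add_distrib] at h1
    have h2 := hC 1 (Or.inl rfl) W X hW2 hWX
    have h3 := hC 3 (Or.inr rfl) W X hW2 hWX
    have hWr : (2 : ℝ) ≤ W := by exact_mod_cast hW2
    have hlW : 0 < Real.log W := Real.log_pos (by linarith)
    have hlX : Real.log X ≤ 4 * Real.log W := by
      have h4 : (X : ℝ) ≤ (W : ℝ) ^ 4 := by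
        have h5 : y ≤ W + 1 := by linarith
        have h6 : y ^ 2 ≤ ((W : ℝ) + 1) ^ 2 := by nlinarith
        have h7 : ((W : ℝ) + 1) ^ 2 + 1 ≤ (W : ℝ) ^ 4 := by
          nlinarith [sq_nonneg ((W : ℝ) - 2), mul_nonneg (by linarith : (0 : ℝ) ≤ (W : ℝ) - 2)
            (by positivity : (0 : ℝ) ≤ (W : ℝ) ^ 3), mul_nonneg (by linarith : (0 : ℝ) ≤ (W : ℝ) - 2)
            (by positivity : (0 : ℝ) ≤ (W : ℝ) ^ 2), mul_nonneg (by linarith : (0 : ℝ) ≤ (W : ℝ) - 2)
            (by positivity : (0 : ℝ) ≤ (W : ℝ))]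
        linarith
      have hX0 : (0 : ℝ) < X := by nlinarith
      have h8 := Real.log_le_log hX0 h4
      rw [Real.log_pow] at h8
      exact_mod_cast h8
    have hlX0 : 0 < Real.log X := by
      apply Real.log_pos
      nlinarith
    have h9 : Real.log (Real.log X) - Real.log (Real.log W) ≤ Real.log 4 := by
      have h10 := Real.log_le_log hlX0 hlX
      rw [Real.log_mul (by norm_num) hlW.ne'] at h10
      linarith
    have h11 := (abs_le.1 h2).2
    have h12 := (abs_le.1 h3).2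
    linarith

end Pool.Agent.Work.MP_2dba45_nt.Sv
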