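import Mathlib
import Pool.Agent.Work.MP_2dba45_nt.Sv.Defs

set_option autoImplicit false

/-!
Module WWEQ. WW as a sum over all T ⊆ P with coefficient phi (costs a T): the sets with all
elements < z come from the first term; insert p T with z ≤ p < y, T below z comes from the second
(costs a (insert p T) = a p :: costs a T, (-1)^#T); other sets have phi = 0.
-/

namespace Pool.Agent.Work.MP_2dba45_nt.Sv

open Finset Pool.Agent.Work.MP_2dba45_nt.BilDef

private lemma mem_costs_iff (a : ℕ → ℕ) (T : Finset ℕ) (x : ℕ) :
    x ∈ costs a T ↔ ∃ p ∈ T, a p = x := by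
  unfold costs
  simp [List.mem_map, Finset.mem_sort]

private lemma costs_length (a : ℕ → ℕ) (T : Finset ℕ) : (costs a T).length = #T := by
  unfold costs
  rw [List.length_map, Finset.length_sort]

private lemma costs_insert (a : ℕ → ℕ) (p : ℕ) (T : Finset ℕ) (h : ∀ q ∈ T, q < p) :
    costs a (insert p T) = a p :: costs a T := by
  unfold costs
  rw [Finset.sort_insert (r := (· ≥ ·)) (fun b hb => (h b hb).le) (fun hp => lt_irrefl _ (h p hp)),
    List.map_cons]

theorem WW_eq (P : Finset ℕ) (a : ℕ → ℕ) (z y : ℕ) (L : ℤ) (w : ℕ → ℝ) (lam : ℝ) (jz jy : ℕ)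
    (hz : ∀ p ∈ P, (p < z ↔ a p ≤ jz)) (hy : ∀ p ∈ P, (p < y ↔ a p ≤ jy)) (hzy : z ≤ y)
    (f : Finset ℕ → ℝ) :
    WW P a z y L w lam f = ∑ T ∈ P.powerset, phi jz jy L w lam (costs a T) * f T := by
  classical
  set Pz := P.filter (fun p => p < z) with hPz
  set Py := P.filter (fun p => z ≤ p ∧ p < y) with hPy
  -- small sets
  have hsmall : ∀ T ∈ P.powerset, T ⊆ Pz → (∀ x ∈ costs a T, x ≤ jz) := by
    intro T hT hTz x hx
    rw [mem_costs_iff] at hx
    obtain ⟨p, hp, rfl⟩ := hx
    have := hTz hp
    rw [hPz, mem_filter] at this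
    exact (hz p this.1).1 this.2
  have hsmall' : ∀ T ∈ P.powerset, (∀ x ∈ costs a T, x ≤ jz) → T ⊆ Pz := by
    intro T hT h p hp
    have hpP : p ∈ P := (mem_powerset.1 hT) hp
    rw [hPz, mem_filter]
    exact ⟨hpP, (hz p hpP).2 (h _ ((mem_costs_iff a T _).2 ⟨p, hp, rfl⟩))⟩
  have h1 : ∑ T ∈ P.powerset.filter (fun T => T ⊆ Pz), phi jz jy L w lam (costs a T) * f T =
      SS P a false z L f := by
    have e : P.powerset.filter (fun T => T ⊆ Pz) = Pz.powerset := by
      ext T
      rw [mem_filter, mem_powerset, mem_powerset]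
      exact ⟨fun h => h.2, fun h => ⟨h.trans (filter_subset _ _), h⟩⟩
    rw [e]
    unfold SS Dset
    rw [Finset.sum_filter]
    refine Finset.sum_congr rfl fun T hT => ?_
    rw [mem_powerset] at hT
    have hTP : T ∈ P.powerset := mem_powerset.2 (hT.trans (filter_subset _ _))
    unfold phi
    rw [if_pos (hsmall T hTP hT), costs_length]
    split_ifs
    · rfl
    · rw [zero_mul]
  have h2 : ∑ T ∈ P.powerset.filter (fun T => ¬ T ⊆ Pz), phi jz jy L w lam (costs a T) * f T =
      ∑ x ∈ Py ×ˢ Pz.powerset, phi jz jy L w lam (costs a (insert x.1 x.2)) *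
        f (insert x.1 x.2) := by
    have hinj : Set.InjOn (fun x : ℕ × Finset ℕ => insert x.1 x.2) (Py ×ˢ Pz.powerset : Finset _) := by
      rintro ⟨p, T⟩ hx ⟨q, U⟩ hy' h
      simp only [Finset.coe_product, Set.mem_prod, Finset.mem_coe] at hx hy'
      simp only at h hx hy'
      rw [hPy, mem_filter, mem_powerset] at hx hy'
      have hpq : ∀ (p q : ℕ) (U : Finset ℕ), z ≤ p → U ⊆ Pz → p ∈ insert q U → p = q := by
        intro p q U hp hU hmem
        rcases mem_insert.1 hmem with h | h
        · exact h
        · have := hU h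
          rw [hPz, mem_filter] at this
          omega
      have e : p = q := hpq p q U hx.1.2.1 hy'.2 (h ▸ mem_insert_self p T)
      subst e
      have hpT : p ∉ T := fun hm => by
        have := hx.2 hm
        rw [hPz, mem_filter] at this
        omega
      have hpU : p ∉ U := fun hm => by
        have := hy'.2 hm
        rw [hPz, mem_filter] at this
        omega
      have e2 : T = U := by
        rw [← erase_insert hpT, ← erase_insert hpU, h]
      rw [e2]
    rw [← Finset.sum_image (f := fun T => phi jz jy L w lam (costs a T) * f T) hinj]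
    symm
    apply Finset.sum_subset
    · intro T hT
      rw [mem_image] at hT
      obtain ⟨⟨p, U⟩, hx, rfl⟩ := hT
      rw [mem_product, hPy, mem_filter, mem_powerset] at hx
      rw [mem_filter, mem_powerset]
      refine ⟨insert_subset hx.1.1 (hx.2.trans (filter_subset _ _)), ?_⟩
      intro hsub
      have := hsub (mem_insert_self p U)
      rw [hPz, mem_filter] at this
      omega
    · intro T hT hTn
      rw [mem_filter] at hT
      have hns : ¬ ∀ x ∈ costs a T, x ≤ jz := fun h => hT.2 (hsmall' T hT.1 h)
      have hne : T.Nonempty := by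
        rw [Finset.nonempty_iff_ne_empty]
        rintro rfl
        exact hT.2 (empty_subset _)
      set p := T.max' hne with hp
      have hpT : p ∈ T := max'_mem T hne
      have hpP : p ∈ P := (mem_powerset.1 hT.1) hpT
      have hlt : ∀ q ∈ T.erase p, q < p := by
        intro q hq
        rw [mem_erase] at hq
        exact lt_of_le_of_ne (le_max' T q hq.2) hq.1
      have hTe : insert p (T.erase p) = T := insert_erase hpT
      have hcost : costs a T = a p :: costs a (T.erase p) := by
        conv_lhs => rw [← hTe]
        exact costs_insert a p _ hlt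
      unfold phi
      rw [if_neg hns, hcost]
      simp only
      rw [if_neg, zero_mul]
      rintro ⟨h3, h4, -⟩
      apply hTn
      rw [mem_image]
      have herP : T.erase p ∈ P.powerset :=
        mem_powerset.2 ((erase_subset _ _).trans (mem_powerset.1 hT.1))
      have herz : T.erase p ⊆ Pz := hsmall' _ herP h3
      refine ⟨(p, T.erase p), ?_, hTe⟩
      rw [mem_product, mem_powerset, hPy, mem_filter]
      refine ⟨⟨hpP, ?_, (hy p hpP).2 h4⟩, herz⟩
      by_contra hlt'
      push Not at hlt'
      apply hT.2
      rw [← hTe]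
      refine insert_subset ?_ herz
      rw [hPz, mem_filter]
      exact ⟨hpP, hlt'⟩
  have h3 : ∑ x ∈ Py ×ˢ Pz.powerset, phi jz jy L w lam (costs a (insert x.1 x.2)) *
        f (insert x.1 x.2) = - (lam * ∑ p ∈ Py,
      w (a p) * SS P a true z (L - a p) (fun T => f (insert p T))) := by
    rw [Finset.sum_product, Finset.mul_sum, ← Finset.sum_neg_distrib]
    refine Finset.sum_congr rfl fun p hp => ?_
    rw [hPy, mem_filter] at hp
    unfold SS Dset
    rw [Finset.sum_filter, Finset.mul_sum, Finset.mul_sum, ← Finset.sum_neg_distrib]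
    refine Finset.sum_congr rfl fun T hT => ?_
    rw [mem_powerset] at hT
    have hTP : T ∈ P.powerset := mem_powerset.2 (hT.trans (filter_subset _ _))
    have hcz := hsmall T hTP hT
    have hcost : costs a (insert p T) = a p :: costs a T := by
      apply costs_insert
      intro q hq
      have := hT hq
      rw [mem_filter] at this
      omega
    have hapz : ¬ (a p ≤ jz) := fun h => by
      have := (hz p hp.1).2 h
      omega
    have hns : ¬ ∀ x ∈ costs a (insert p T), x ≤ jz := fun h =>
      hapz (h _ (by rw [hcost]; exact List.mem_cons_self))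
    unfold phi
    simp only
    rw [if_neg hns, hcost]
    simp only
    have hapy : a p ≤ jy := (hy p hp.1).1 hp.2.2
    by_cases hadm : adm true (L - a p) (costs a T)
    · rw [if_pos ⟨hcz, hapy, hadm⟩, if_pos hadm, costs_length]
      ring
    · rw [if_neg (fun h => hadm h.2.2), if_neg hadm]
      ring
  rw [← Finset.sum_filter_add_sum_filter_not P.powerset (fun T => T ⊆ Pz), h1, h2, h3]
  unfold WW
  ring

theorem phi_bound (k : ℕ) (hk : 1 ≤ k) (c : List ℕ) :
    |phi (270 * k) (1199 * k) (1298 * k) (wt k) lamb c| ≤ 2 := by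
  classical
  have hk' : (1 : ℝ) ≤ k := by exact_mod_cast hk
  unfold phi
  split_ifs with h1 h2
  · rw [abs_pow, abs_neg, abs_one, one_pow]
    norm_num
  · rw [abs_zero]
    norm_num
  · cases c with
    | nil => simp
    | cons x t =>
      simp only
      split_ifs with h3
      · have hx : (x : ℝ) ≤ 1199 * k := by exact_mod_cast h3.2.1
        have hx0 : (0 : ℝ) ≤ x := Nat.cast_nonneg x
        have hk0 : (0 : ℝ) < 1199 * k := by positivity
        have hw1 : wt k x ≤ 1 + 1 / 1199 := by
          unfold wt
          have : -(1 / 1199 : ℝ) ≤ ((x : ℝ) - 1) / (1199 * k) := by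
            rw [le_div_iff₀ hk0]
            nlinarith
          linarith
        have hw0 : 0 ≤ wt k x := by
          unfold wt
          have : ((x : ℝ) - 1) / (1199 * k) ≤ 1 := by
            rw [div_le_one hk0]
            linarith
          linarith
        rw [abs_neg, abs_mul, abs_mul, abs_pow, abs_neg, abs_one, one_pow, mul_one,
          abs_of_nonneg hw0]
        unfold lamb
        rw [abs_of_nonneg (by norm_num)]
        nlinarith
      · rw [abs_zero]
        norm_num

end Pool.Agent.Work.MP_2dba45_nt.Sv
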