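import Mathlib
import Pool.Agent.Work.MP_2dba45_nt.Sv.Defs
import Pool.Agent.Work.MP_2dba45_nt.Sv.WWEq
import Pool.Agent.Work.MP_2dba45_nt.Sv.Mert2

set_option autoImplicit false

/-!
Module ABS. sum over T ⊆ P of |phi| GG T ≤ 2 ∏ (1 + g1 p) ≤ 2 exp(sum g1) ≤ 2 e^C / δ (mass_le).
-/

namespace Pool.Agent.Work.MP_2dba45_nt.Sv

open Finset Pool.Agent.Work.MP_2dba45_nt.BilDef

theorem abs_sum : ∃ C : ℝ, 0 < C ∧ ∀ δ : ℝ, 0 < δ → δ ≤ 1 / 10 → ∃ N₀ : ℕ, ∀ N : ℕ, N₀ ≤ N →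
    ∀ k : ℕ, 1 ≤ k → ∑ T ∈ (PQ (pw N δ) N).powerset,
      |phi (270 * k) (1199 * k) (1298 * k) (wt k) lamb (costs (cost (1200 * k) N) T)| * GG T ≤
        C / δ := by
  obtain ⟨C, hC, hmass⟩ := mass_le
  refine ⟨2 * Real.exp C, by positivity, ?_⟩
  intro δ hδ hδ1
  obtain ⟨N₀, hN₀⟩ := hmass δ hδ (by linarith)
  refine ⟨N₀, ?_⟩
  intro N hN k hk
  have hg : ∀ p : ℕ, 0 ≤ g1 p := fun p => by unfold g1; positivity
  have hG : ∀ T : Finset ℕ, 0 ≤ GG T := fun T => Finset.prod_nonneg fun p _ => hg p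
  have h1 : ∑ T ∈ (PQ (pw N δ) N).powerset,
      |phi (270 * k) (1199 * k) (1298 * k) (wt k) lamb (costs (cost (1200 * k) N) T)| * GG T ≤
      ∑ T ∈ (PQ (pw N δ) N).powerset, 2 * GG T :=
    Finset.sum_le_sum fun T _ => mul_le_mul_of_nonneg_right (phi_bound k hk _) (hG T)
  have h2 : ∑ T ∈ (PQ (pw N δ) N).powerset, 2 * GG T = 2 * ∏ p ∈ PQ (pw N δ) N, (1 + g1 p) := by
    rw [← Finset.mul_sum, Finset.prod_one_add]
    rfl
  have h3 : ∏ p ∈ PQ (pw N δ) N, (1 + g1 p) ≤ Real.exp (∑ p ∈ PQ (pw N δ) N, g1 p) := by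
    rw [Real.exp_sum]
    refine Finset.prod_le_prod (fun p _ => by linarith [hg p]) fun p _ => ?_
    rw [add_comm]
    exact Real.add_one_le_exp _
  have h4 : Real.exp (∑ p ∈ PQ (pw N δ) N, g1 p) ≤ Real.exp C / δ := by
    refine (Real.exp_le_exp.2 (hN₀ N hN)).trans (le_of_eq ?_)
    rw [Real.exp_add, Real.exp_log (by positivity)]
    ring
  calc _ ≤ _ := h1
    _ = _ := h2
    _ ≤ 2 * (Real.exp C / δ) := by linarith [h3.trans h4]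
    _ = 2 * Real.exp C / δ := by ring

end Pool.Agent.Work.MP_2dba45_nt.Sv
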