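import Mathlib
import Pool.Agent.Work.MP_2dba45_nt.Sv.Defs

set_option autoImplicit false

/-!
Module DDE. Existence of the functions of the linear sieve (with constant 1 instead of 2 e^gamma).
With p = s (F + f), q = s (F - f) the equations become p(s) = q(s) = 1 for s ≤ 2,
p'(s) = p(s-1)/(s-1), q'(s) = -q(s-1)/(s-1) for s > 2 (so q(s) is the Dickman function at s - 1 and
p(s)/s is the Buchstab function). Both are solved by the iteration `uu`.
Positivity of q: (s-1) q(s) = int_{s-1}^s q(t) dt. Monotonicity: s f'(s) = F(s-1) - f(s),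
s F'(s) = f(s-1) - F(s); at the first point s0 where f(s-1) < F(s), f(s) < F(s-1) fails, F is antitone
and f is monotone up to s0, so f(s0-1) ≤ f(s0) < F(s0) ≤ F(s0-1), a contradiction.
-/

namespace Pool.Agent.Work.MP_2dba45_nt.Sv

open Finset Pool.Agent.Work.MP_2dba45_nt.BilDef

private noncomputable def TT (c : ℝ) (u : ℝ → ℝ) (s : ℝ) : ℝ :=
  1 + c * ∫ x in (2 : ℝ)..(max s 2), u (x - 1) / max (x - 1) 1

private theorem phi_cont {u : ℝ → ℝ} (hu : Continuous u) :
    Continuous (fun x : ℝ => u (x - 1) / max (x - 1) 1) := by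
  refine (hu.comp (continuous_id.sub continuous_const)).div
    ((continuous_id.sub continuous_const).max continuous_const) (fun x => ?_)
  have : (1 : ℝ) ≤ max (x - 1) 1 := le_max_right _ _
  exact (by linarith : (max (x - 1) 1 : ℝ) ≠ 0)

private theorem TT_cont (c : ℝ) {u : ℝ → ℝ} (hu : Continuous u) : Continuous (TT c u) := by
  have h1 : Continuous (fun b : ℝ => ∫ x in (2 : ℝ)..b, u (x - 1) / max (x - 1) 1) :=
    intervalIntegral.continuous_primitive (fun a b => (phi_cont hu).intervalIntegrable a b) 2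
  exact continuous_const.add (continuous_const.mul
    (h1.comp (continuous_id.max continuous_const)))

private noncomputable def uu (c : ℝ) : ℕ → ℝ → ℝ
  | 0 => fun _ => 1
  | n + 1 => TT c (uu c n)

private theorem uu_cont (c : ℝ) (n : ℕ) : Continuous (uu c n) := by
  induction n with
  | zero => exact continuous_const
  | succ n ih => exact TT_cont c ih

private theorem TT_congr (c : ℝ) (u v : ℝ → ℝ) (s b : ℝ) (hs : s ≤ b + 1) (hb : 1 ≤ b)
    (h : ∀ x, x ≤ b → u x = v x) : TT c u s = TT c v s := by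
  unfold TT
  congr 2
  refine intervalIntegral.integral_congr fun x hx => ?_
  have h1 : (2 : ℝ) ≤ max s 2 := le_max_right _ _
  rw [Set.uIcc_of_le h1] at hx
  have h2 : x - 1 ≤ b := by
    have : max s 2 ≤ b + 1 := max_le hs (by linarith)
    linarith [hx.2]
  show u (x - 1) / _ = v (x - 1) / _
  rw [h _ h2]

private theorem uu_step (c : ℝ) (n : ℕ) : ∀ s : ℝ, s ≤ n + 2 → uu c (n + 1) s = uu c n s := by
  induction n with
  | zero =>
    intro s hs
    have h1 : max s 2 = 2 := max_eq_right (by simpa using hs)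
    show TT c _ s = 1
    unfold TT
    rw [h1, intervalIntegral.integral_same]
    ring
  | succ n ih =>
    intro s hs
    show TT c (uu c (n + 1)) s = TT c (uu c n) s
    refine TT_congr c _ _ s (n + 2) ?_ ?_ ih
    · push_cast at hs
      linarith
    · have : (0 : ℝ) ≤ n := Nat.cast_nonneg n
      linarith

private theorem uu_stable (c : ℝ) (n k : ℕ) (s : ℝ) (hs : s ≤ n + 2) :
    uu c (n + k) s = uu c n s := by
  induction k with
  | zero => rfl
  | succ k ih =>
    rw [← ih]
    refine uu_step c (n + k) s ?_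
    push_cast
    have : (0 : ℝ) ≤ k := Nat.cast_nonneg k
    linarith

private noncomputable def sol (c : ℝ) (s : ℝ) : ℝ := uu c ⌈s⌉₊ s

private theorem sol_eq (c : ℝ) (n : ℕ) (s : ℝ) (hs : s ≤ n + 2) : sol c s = uu c n s := by
  have h1 : s ≤ (⌈s⌉₊ : ℝ) + 2 := by
    have := Nat.le_ceil s
    linarith
  unfold sol
  rcases le_total n ⌈s⌉₊ with h | h
  · obtain ⟨k, hk⟩ := Nat.exists_eq_add_of_le h
    rw [hk]
    exact uu_stable c n k s hs
  · obtain ⟨k, hk⟩ := Nat.exists_eq_add_of_le h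
    have h2 := uu_stable c ⌈s⌉₊ k s h1
    rw [← hk] at h2
    exact h2.symm

private theorem sol_cont (c : ℝ) : Continuous (sol c) := by
  rw [continuous_iff_continuousAt]
  intro s
  have h1 : Set.Iio ((⌈s⌉₊ : ℝ) + 2) ∈ nhds s := Iio_mem_nhds (by
    have := Nat.le_ceil s
    linarith)
  refine ((uu_cont c ⌈s⌉₊).continuousAt (x := s)).congr ?_
  filter_upwards [h1] with x hx
  exact (sol_eq c ⌈s⌉₊ x (le_of_lt hx)).symm

private theorem sol_fix (c : ℝ) (s : ℝ) : sol c s = TT c (sol c) s := by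
  have h1 : s ≤ (⌈s⌉₊ : ℝ) := Nat.le_ceil s
  have h0 : (0 : ℝ) ≤ (⌈s⌉₊ : ℝ) := Nat.cast_nonneg _
  have h2 : sol c s = uu c (⌈s⌉₊ + 1) s := sol_eq c _ s (by push_cast; linarith)
  rw [h2]
  show TT c (uu c ⌈s⌉₊) s = _
  exact TT_congr c _ _ s ((⌈s⌉₊ : ℝ) + 2) (by linarith) (by linarith)
    (fun x hx => (sol_eq c _ x hx).symm)

private theorem sol_le_two (c : ℝ) (s : ℝ) (hs : s ≤ 2) : sol c s = 1 := by
  rw [sol_fix]
  unfold TT
  rw [max_eq_right hs, intervalIntegral.integral_same]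
  ring

private theorem sol_ge_two (c : ℝ) (s : ℝ) (hs : 2 ≤ s) :
    sol c s = 1 + c * ∫ x in (2 : ℝ)..s, sol c (x - 1) / max (x - 1) 1 := by
  conv_lhs => rw [sol_fix]
  unfold TT
  rw [max_eq_left hs]

private theorem sol_sub (c : ℝ) (s t : ℝ) (hs : 2 ≤ s) (ht : s ≤ t) :
    sol c t - sol c s = ∫ x in s..t, c * (sol c (x - 1) / (x - 1)) := by
  have hint : ∀ a b : ℝ, IntervalIntegrable (fun x : ℝ => sol c (x - 1) / max (x - 1) 1)
      MeasureTheory.volume a b := fun a b => (phi_cont (sol_cont c)).intervalIntegrable a b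
  rw [sol_ge_two c t (hs.trans ht), sol_ge_two c s hs, intervalIntegral.integral_const_mul,
    ← intervalIntegral.integral_add_adjacent_intervals (hint 2 s) (hint s t)]
  have h1 : ∫ x in s..t, sol c (x - 1) / max (x - 1) 1 = ∫ x in s..t, sol c (x - 1) / (x - 1) := by
    refine intervalIntegral.integral_congr fun x hx => ?_
    rw [Set.uIcc_of_le ht] at hx
    show _ / _ = _ / _
    rw [max_eq_left (by linarith [hx.1])]
  rw [h1]
  ring

private theorem sol_deriv (c : ℝ) (s : ℝ) (hs : 2 < s) :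
    HasDerivAt (sol c) (c * (sol c (s - 1) / (s - 1))) s := by
  have h1 : HasDerivAt (fun t => 1 + c * ∫ x in (2 : ℝ)..t, sol c (x - 1) / max (x - 1) 1)
      (c * (sol c (s - 1) / max (s - 1) 1)) s :=
    ((intervalIntegral.integral_hasDerivAt_right ((phi_cont (sol_cont c)).intervalIntegrable _ _)
      ((phi_cont (sol_cont c)).stronglyMeasurableAtFilter _ _)
      (phi_cont (sol_cont c)).continuousAt).const_mul c).const_add 1
  rw [max_eq_left (by linarith : (1 : ℝ) ≤ s - 1)] at h1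
  refine h1.congr_of_eventuallyEq ?_
  filter_upwards [Ioi_mem_nhds hs] with t ht
  exact sol_ge_two c t (le_of_lt ht)

/-- the Dickman type function -/
private noncomputable def qq : ℝ → ℝ := sol (-1)

private theorem qq_int (s : ℝ) (hs : 2 ≤ s) : (s - 1) * qq s = ∫ x in (s - 1)..s, qq x := by
  have hc : Continuous qq := sol_cont _
  have hI : ∀ t : ℝ, HasDerivAt (fun t => ∫ x in (0 : ℝ)..t, qq x) (qq t) t := fun t =>
    intervalIntegral.integral_hasDerivAt_right (hc.intervalIntegrable _ _)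
      (hc.stronglyMeasurableAtFilter _ _) hc.continuousAt
  have hsub : ∀ t : ℝ, ∫ x in (t - 1)..t, qq x =
      (∫ x in (0 : ℝ)..t, qq x) - ∫ x in (0 : ℝ)..(t - 1), qq x := fun t =>
    (intervalIntegral.integral_interval_sub_left (hc.intervalIntegrable _ _)
      (hc.intervalIntegrable _ _)).symm
  set W : ℝ → ℝ := fun t => (t - 1) * qq t -
    ((∫ x in (0 : ℝ)..t, qq x) - ∫ x in (0 : ℝ)..(t - 1), qq x) with hW
  have hW2 : W 2 = 0 := by
    simp only [hW]
    rw [← hsub 2]
    have h1 : ∫ x in ((2 : ℝ) - 1)..2, qq x = ∫ x in ((2 : ℝ) - 1)..2, (1 : ℝ) := by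
      refine intervalIntegral.integral_congr fun x hx => ?_
      rw [Set.uIcc_of_le (by norm_num)] at hx
      exact sol_le_two _ x hx.2
    have h2 : qq 2 = 1 := sol_le_two _ 2 le_rfl
    rw [h1, h2]
    simp
    norm_num
  have hWd : ∀ t, 2 < t → HasDerivAt W 0 t := by
    intro t ht
    have h1 : HasDerivAt qq (-1 * (qq (t - 1) / (t - 1))) t := sol_deriv (-1) t ht
    have h2 : HasDerivAt (fun t : ℝ => t - 1) 1 t := (hasDerivAt_id t).sub_const 1
    have h3 := h2.mul h1
    have h4 : HasDerivAt (fun t => ∫ x in (0 : ℝ)..(t - 1), qq x) (qq (t - 1)) t := by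
      have h5 := (hI (t - 1)).comp t h2
      rw [mul_one] at h5
      exact h5
    have h6 := h3.sub ((hI t).sub h4)
    refine h6.congr_deriv ?_
    have h7 : t - 1 ≠ 0 := by linarith
    field_simp
    ring
  have hWc : Continuous W := by
    have h1 : Continuous (fun t => ∫ x in (0 : ℝ)..t, qq x) :=
      intervalIntegral.continuous_primitive (fun a b => hc.intervalIntegrable a b) 0
    exact ((continuous_id.sub continuous_const).mul hc).sub
      (h1.sub (h1.comp (continuous_id.sub continuous_const)))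
  have hWs : W s = 0 := by
    rcases eq_or_lt_of_le hs with h | h
    · rw [← h]; exact hW2
    · obtain ⟨x, hx, hx'⟩ := exists_hasDerivAt_eq_slope W (fun _ => 0) h hWc.continuousOn
        (fun x hx => hWd x hx.1)
      have h1 : s - 2 ≠ 0 := by linarith
      rw [eq_comm, div_eq_iff h1, zero_mul, hW2, sub_zero] at hx'
      exact hx'
  have h8 : (s - 1) * qq s - ((∫ x in (0 : ℝ)..s, qq x) - ∫ x in (0 : ℝ)..(s - 1), qq x) = 0 := hWs
  rw [hsub s]
  linarith

private theorem qq_pos (s : ℝ) : 0 < qq s := by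
  have hc : Continuous qq := sol_cont _
  by_contra hcon
  have hcon := not_lt.1 hcon
  have hs2 : 2 ≤ s := by
    by_contra h
    have := sol_le_two (-1) s (not_le.1 h).le
    have h1 : qq s = 1 := this
    linarith
  have hK : IsCompact (Set.Icc 2 s ∩ {x | qq x ≤ 0}) :=
    isCompact_Icc.inter_right (isClosed_le hc continuous_const)
  obtain ⟨s₀, ⟨⟨h2, _⟩, h0⟩, hmin⟩ := hK.exists_isLeast ⟨s, ⟨hs2, le_rfl⟩, hcon⟩
  have hpos : ∀ x, x < s₀ → 0 < qq x := by
    intro x hx
    rcases le_or_gt x 2 with h | h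
    · have : qq x = 1 := sol_le_two _ x h
      linarith
    · by_contra hx'
      have hx' := not_lt.1 hx'
      have hx3 : x ≤ s := by linarith [hmin ⟨⟨hs2, le_rfl⟩, hcon⟩]
      have := hmin ⟨⟨h.le, hx3⟩, hx'⟩
      linarith
  have h3 : 0 < ∫ x in (s₀ - 1)..s₀, qq x :=
    intervalIntegral.intervalIntegral_pos_of_pos_on (hc.intervalIntegrable _ _)
      (fun x hx => hpos x hx.2) (by linarith)
  rw [← qq_int s₀ h2] at h3
  have h4 : qq s₀ ≤ 0 := h0
  nlinarith

private noncomputable def FF (s : ℝ) : ℝ := (sol 1 s + qq s) / (2 * s)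

private noncomputable def ff (s : ℝ) : ℝ := (sol 1 s - qq s) / (2 * s)

private theorem ff_two (s : ℝ) (hs : s ≤ 2) : ff s = 0 := by
  unfold ff
  have h1 : sol 1 s = 1 := sol_le_two 1 s hs
  have h2 : qq s = 1 := sol_le_two (-1) s hs
  rw [h1, h2, sub_self, zero_div]

private theorem FF_cont : ContinuousOn FF (Set.Ioi 0) := by
  refine ((sol_cont 1).add (sol_cont (-1))).continuousOn.div
    (continuous_const.mul continuous_id).continuousOn (fun x hx => ?_)
  have hx' : (0 : ℝ) < x := hx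
  exact (by positivity : (2 : ℝ) * x ≠ 0)

private theorem ff_cont : Continuous ff := by
  rw [continuous_iff_continuousAt]
  intro s
  rcases lt_or_ge s 2 with h | h
  · have h1 : ff =ᶠ[nhds s] fun _ => 0 := by
      filter_upwards [Iio_mem_nhds h] with x hx
      exact ff_two x (le_of_lt hx)
    exact continuousAt_const.congr h1.symm
  · have h2 : ContinuousAt (fun s => (sol 1 s - qq s) / (2 * s)) s :=
      ((sol_cont 1).sub (sol_cont (-1))).continuousAt.div
        (continuous_const.mul continuous_id).continuousAt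
        ((by positivity : (2 : ℝ) * s ≠ 0))
    exact h2

private theorem FF_mul (s : ℝ) (hs : 0 < s) : s * FF s = (sol 1 s + qq s) / 2 := by
  unfold FF
  field_simp

private theorem ff_mul (s : ℝ) (hs : 0 < s) : s * ff s = (sol 1 s - qq s) / 2 := by
  unfold ff
  field_simp

private theorem int_cont (c : ℝ) (s t : ℝ) (hs : 2 ≤ s) (ht : s ≤ t) :
    IntervalIntegrable (fun x => c * (sol c (x - 1) / (x - 1))) MeasureTheory.volume s t := by
  refine ContinuousOn.intervalIntegrable ?_
  rw [Set.uIcc_of_le ht]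
  refine ContinuousOn.mul continuousOn_const (ContinuousOn.div
    ((sol_cont c).comp (continuous_id.sub continuous_const)).continuousOn
    (continuous_id.sub continuous_const).continuousOn (fun x hx => ?_))
  have : s ≤ x := hx.1
  exact (by linarith : x - 1 ≠ 0)

private theorem FF_sub (s t : ℝ) (hs : 2 ≤ s) (ht : s ≤ t) :
    t * FF t - s * FF s = ∫ x in s..t, ff (x - 1) := by
  rw [FF_mul s (by linarith), FF_mul t (by linarith)]
  have h1 := sol_sub 1 s t hs ht
  have h2 := sol_sub (-1) s t hs ht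
  have h3 : ∫ x in s..t, ff (x - 1) = ∫ x in s..t,
      ((1 / 2 : ℝ) * (1 * (sol 1 (x - 1) / (x - 1))) +
        (1 / 2) * (-1 * (sol (-1) (x - 1) / (x - 1)))) := by
    refine intervalIntegral.integral_congr fun x hx => ?_
    rw [Set.uIcc_of_le ht] at hx
    have hx1 : x - 1 ≠ 0 := by linarith [hx.1]
    show (sol 1 (x - 1) - sol (-1) (x - 1)) / (2 * (x - 1)) = _
    field_simp
    ring
  have e1 : ∫ x in s..t, (1 / 2 : ℝ) * (1 * (sol 1 (x - 1) / (x - 1))) =
      (1 / 2 : ℝ) * ∫ x in s..t, 1 * (sol 1 (x - 1) / (x - 1)) :=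
    intervalIntegral.integral_const_mul _ _
  have e2 : ∫ x in s..t, (1 / 2 : ℝ) * (-1 * (sol (-1) (x - 1) / (x - 1))) =
      (1 / 2 : ℝ) * ∫ x in s..t, -1 * (sol (-1) (x - 1) / (x - 1)) :=
    intervalIntegral.integral_const_mul _ _
  rw [h3, intervalIntegral.integral_add ((int_cont 1 s t hs ht).const_mul _)
    ((int_cont (-1) s t hs ht).const_mul _), e1, e2, ← h1, ← h2]
  unfold qq
  ring

private theorem ff_sub (s t : ℝ) (hs : 2 ≤ s) (ht : s ≤ t) :
    t * ff t - s * ff s = ∫ x in s..t, FF (x - 1) := by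
  rw [ff_mul s (by linarith), ff_mul t (by linarith)]
  have h1 := sol_sub 1 s t hs ht
  have h2 := sol_sub (-1) s t hs ht
  have h3 : ∫ x in s..t, FF (x - 1) = ∫ x in s..t,
      ((1 / 2 : ℝ) * (1 * (sol 1 (x - 1) / (x - 1))) -
        (1 / 2) * (-1 * (sol (-1) (x - 1) / (x - 1)))) := by
    refine intervalIntegral.integral_congr fun x hx => ?_
    rw [Set.uIcc_of_le ht] at hx
    have hx1 : x - 1 ≠ 0 := by linarith [hx.1]
    show (sol 1 (x - 1) + sol (-1) (x - 1)) / (2 * (x - 1)) = _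
    field_simp
    ring
  have e1 : ∫ x in s..t, (1 / 2 : ℝ) * (1 * (sol 1 (x - 1) / (x - 1))) =
      (1 / 2 : ℝ) * ∫ x in s..t, 1 * (sol 1 (x - 1) / (x - 1)) :=
    intervalIntegral.integral_const_mul _ _
  have e2 : ∫ x in s..t, (1 / 2 : ℝ) * (-1 * (sol (-1) (x - 1) / (x - 1))) =
      (1 / 2 : ℝ) * ∫ x in s..t, -1 * (sol (-1) (x - 1) / (x - 1)) :=
    intervalIntegral.integral_const_mul _ _
  rw [h3, intervalIntegral.integral_sub ((int_cont 1 s t hs ht).const_mul _)
    ((int_cont (-1) s t hs ht).const_mul _), e1, e2, ← h1, ← h2]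
  unfold qq
  ring

private theorem FF_three (s : ℝ) (hs : 0 < s) (hs3 : s ≤ 3) : FF s = 1 / s := by
  rcases le_or_gt s 2 with h | h
  · unfold FF
    have h1 : sol 1 s = 1 := sol_le_two 1 s h
    have h2 : qq s = 1 := sol_le_two (-1) s h
    rw [h1, h2]
    field_simp
    norm_num
  · have h1 := FF_sub 2 s le_rfl h.le
    have h2 : ∫ x in (2 : ℝ)..s, ff (x - 1) = ∫ x in (2 : ℝ)..s, (0 : ℝ) := by
      refine intervalIntegral.integral_congr fun x hx => ?_
      rw [Set.uIcc_of_le h.le] at hx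
      exact ff_two (x - 1) (by linarith [hx.2])
    rw [h2, intervalIntegral.integral_zero] at h1
    have h3 := FF_mul 2 (by norm_num)
    have h4 : sol 1 2 = 1 := sol_le_two 1 2 le_rfl
    have h5 : qq 2 = 1 := sol_le_two (-1) 2 le_rfl
    rw [h4, h5] at h3
    rw [eq_div_iff hs.ne']
    linarith

private theorem ff_lt_FF (s : ℝ) (hs : 0 < s) : ff s < FF s := by
  have h1 := FF_mul s hs
  have h2 := ff_mul s hs
  have h3 := qq_pos s
  have h4 : s * ff s < s * FF s := by rw [h1, h2]; linarith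
  exact lt_of_mul_lt_mul_left h4 hs.le

private theorem FF_deriv (s : ℝ) (hs : 2 < s) :
    HasDerivAt FF ((ff (s - 1) - FF s) / s) s := by
  have h1 : HasDerivAt (sol 1) (1 * (sol 1 (s - 1) / (s - 1))) s := sol_deriv 1 s hs
  have h2 : HasDerivAt qq (-1 * (qq (s - 1) / (s - 1))) s := sol_deriv (-1) s hs
  have h3 : HasDerivAt (fun s : ℝ => 2 * s) (2 * 1) s := (hasDerivAt_id s).const_mul 2
  have hs0 : (2 : ℝ) * s ≠ 0 := by positivity
  have h4 := (h1.add h2).div h3 hs0
  refine h4.congr_deriv ?_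
  have hs1 : s - 1 ≠ 0 := by linarith
  have hs' : s ≠ 0 := by linarith
  unfold ff FF
  simp only [Pi.add_apply]
  field_simp
  ring

private theorem ff_deriv (s : ℝ) (hs : 2 < s) :
    HasDerivAt ff ((FF (s - 1) - ff s) / s) s := by
  have h1 : HasDerivAt (sol 1) (1 * (sol 1 (s - 1) / (s - 1))) s := sol_deriv 1 s hs
  have h2 : HasDerivAt qq (-1 * (qq (s - 1) / (s - 1))) s := sol_deriv (-1) s hs
  have h3 : HasDerivAt (fun s : ℝ => 2 * s) (2 * 1) s := (hasDerivAt_id s).const_mul 2
  have hs0 : (2 : ℝ) * s ≠ 0 := by positivity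
  have h4 := (h1.sub h2).div h3 hs0
  refine h4.congr_deriv ?_
  have hs1 : s - 1 ≠ 0 := by linarith
  have hs' : s ≠ 0 := by linarith
  unfold ff FF
  simp only [Pi.sub_apply]
  field_simp
  ring

/-- if the two inequalities hold up to `s₀` then the functions are monotone up to `s₀` -/
private theorem mono_upto (s₀ : ℝ) (hs₀ : 2 ≤ s₀)
    (h : ∀ x, 2 < x → x < s₀ → ff (x - 1) < FF x ∧ ff x < FF (x - 1)) :
    AntitoneOn FF (Set.Ioc 0 s₀) ∧ MonotoneOn ff (Set.Iic s₀) := by
  have h1 : AntitoneOn FF (Set.Icc 2 s₀) := by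
    refine antitoneOn_of_deriv_nonpos (convex_Icc 2 s₀)
      (FF_cont.mono fun x hx => lt_of_lt_of_le (by norm_num) hx.1) ?_ ?_
    · rw [interior_Icc]
      exact fun x hx => (FF_deriv x hx.1).differentiableAt.differentiableWithinAt
    · rw [interior_Icc]
      intro x hx
      rw [(FF_deriv x hx.1).deriv]
      refine div_nonpos_of_nonpos_of_nonneg ?_ (by linarith [hx.1])
      linarith [(h x hx.1 hx.2).1]
  have h2 : MonotoneOn ff (Set.Icc 2 s₀) := by
    refine monotoneOn_of_deriv_nonneg (convex_Icc 2 s₀) ff_cont.continuousOn ?_ ?_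
    · rw [interior_Icc]
      exact fun x hx => (ff_deriv x hx.1).differentiableAt.differentiableWithinAt
    · rw [interior_Icc]
      intro x hx
      rw [(ff_deriv x hx.1).deriv]
      refine div_nonneg ?_ (by linarith [hx.1])
      linarith [(h x hx.1 hx.2).2]
  have h3 : AntitoneOn FF (Set.Ioc 0 2) := by
    intro x hx y hy hxy
    rw [FF_three x hx.1 (by linarith [hx.2]), FF_three y hy.1 (by linarith [hy.2])]
    exact one_div_le_one_div_of_le hx.1 hxy
  have h4 : MonotoneOn ff (Set.Iic 2) := by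
    intro x hx y hy _
    rw [ff_two x hx, ff_two y hy]
  constructor
  · have h5 := h3.union_right h1 (c := 2) ⟨⟨by norm_num, le_rfl⟩, fun x hx => hx.2⟩
      ⟨⟨le_rfl, hs₀⟩, fun x hx => hx.1⟩
    rwa [Set.Ioc_union_Icc_eq_Ioc (by norm_num) hs₀] at h5
  · have h5 := h4.union_right h2 (c := 2) ⟨Set.mem_Iic.2 le_rfl, fun x hx => hx⟩
      ⟨⟨le_rfl, hs₀⟩, fun x hx => hx.1⟩
    rwa [Set.Iic_union_Icc_eq_Iic hs₀] at h5

private theorem key (s : ℝ) (hs : 2 ≤ s) : ff (s - 1) < FF s ∧ ff s < FF (s - 1) := by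
  by_contra hcon
  have hcl : IsCompact (Set.Icc 2 s ∩ {x | FF x ≤ ff (x - 1) ∨ FF (x - 1) ≤ ff x}) := by
    have hF : ContinuousOn FF (Set.Icc 2 s) :=
      FF_cont.mono fun x hx => lt_of_lt_of_le (by norm_num) hx.1
    have hF1 : ContinuousOn (fun x => FF (x - 1)) (Set.Icc 2 s) :=
      FF_cont.comp (continuous_id.sub continuous_const).continuousOn
        (fun x hx => by
          have : (2 : ℝ) ≤ x := hx.1
          exact (by linarith : (0 : ℝ) < x - 1))
    have hf1 : ContinuousOn (fun x => ff (x - 1)) (Set.Icc 2 s) :=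
      (ff_cont.comp (continuous_id.sub continuous_const)).continuousOn
    have h1 := isClosed_Icc.isClosed_le hF hf1
    have h2 := isClosed_Icc.isClosed_le hF1 ff_cont.continuousOn
    refine isCompact_Icc.of_isClosed_subset ?_ Set.inter_subset_left
    convert h1.union h2 using 1
    ext x
    simp only [Set.mem_inter_iff, Set.mem_ofPred_eq, Set.mem_union]
    tauto
  have hsm : s ∈ Set.Icc 2 s ∩ {x | FF x ≤ ff (x - 1) ∨ FF (x - 1) ≤ ff x} := by
    refine ⟨⟨hs, le_rfl⟩, ?_⟩
    by_contra h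
    have h' : ¬ (FF s ≤ ff (s - 1) ∨ FF (s - 1) ≤ ff s) := h
    push Not at h'
    exact hcon h'
  obtain ⟨s₀, ⟨⟨h2, h2'⟩, h0⟩, hmin⟩ := hcl.exists_isLeast ⟨s, hsm⟩
  obtain ⟨hA, hM⟩ := mono_upto s₀ h2 (fun x hx1 hx2 => by
    by_contra h
    have hx : x ∈ Set.Icc 2 s ∩ {x | FF x ≤ ff (x - 1) ∨ FF (x - 1) ≤ ff x} := by
      refine ⟨⟨hx1.le, by linarith⟩, ?_⟩
      by_contra h'
      have h'' : ¬ (FF x ≤ ff (x - 1) ∨ FF (x - 1) ≤ ff x) := h'
      push Not at h''
      exact h h''
    linarith [hmin hx])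
  have h3 : ff s₀ < FF s₀ := ff_lt_FF s₀ (by linarith)
  have h4 : ff (s₀ - 1) ≤ ff s₀ :=
    hM (show s₀ - 1 ≤ s₀ by linarith) (show s₀ ≤ s₀ from le_rfl) (by linarith)
  have h5 : FF s₀ ≤ FF (s₀ - 1) :=
    hA ⟨by linarith, by linarith⟩ ⟨by linarith, le_rfl⟩ (by linarith)
  have h0' : FF s₀ ≤ ff (s₀ - 1) ∨ FF (s₀ - 1) ≤ ff s₀ := h0
  rcases h0' with h | h
  · linarith
  · linarith

theorem dde_exists : ∃ F f : ℝ → ℝ, DDE F f := by
  have hmono : Monotone ff := by
    intro x y hxy
    have h := (mono_upto (max y 2) (le_max_right _ _) (fun x hx _ => key x hx.le)).2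
    exact h (show x ≤ max y 2 from hxy.trans (le_max_left _ _))
      (show y ≤ max y 2 from le_max_left _ _) hxy
  refine ⟨FF, ff, ⟨FF_three, ff_two, FF_cont, ff_cont, fun s t hs ht => FF_sub s t (by linarith) ht,
    fun s t hs ht => ff_sub s t hs ht, ?_, hmono, ?_, fun s hs => (ff_lt_FF s hs).le⟩⟩
  · intro x hx y hy hxy
    have h := (mono_upto (max y 2) (le_max_right _ _) (fun x hx _ => key x hx.le)).1
    exact h ⟨hx, hxy.trans (le_max_left _ _)⟩ ⟨hy, le_max_left _ _⟩ hxy
  · intro s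
    rcases le_or_gt s 2 with h | h
    · rw [ff_two s h]
    · rw [← ff_two 2 le_rfl]
      exact hmono h.le

end Pool.Agent.Work.MP_2dba45_nt.Sv
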