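import Mathlib
import Pool.Agent.Work.MP_2dba45_nt.Sv.Defs

set_option autoImplicit false

/-!
Module DDEFORM. f_formula: s f(s) = ∫_2^s F(x-1) dx and F(x-1) = 1/(x-1) for x ≤ 4. F_formula:
s F(s) = 3 F(3) + ∫_3^s f(x-1) dx, f(x-1) = log(x-2)/(x-1) for 3 ≤ x ≤ 5, shift the variable by 1.
f_pos: f s ≥ f 3 = log 2/3.
-/

namespace Pool.Agent.Work.MP_2dba45_nt.Sv

open Finset Pool.Agent.Work.MP_2dba45_nt.BilDef

theorem f_formula {F f : ℝ → ℝ} (h : DDE F f) (s : ℝ) (h2 : 2 ≤ s) (h4 : s ≤ 4) :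
    f s = Real.log (s - 1) / s := by
  have h1 := h.fint 2 s le_rfl h2
  rw [h.f2 2 le_rfl, mul_zero, sub_zero] at h1
  have h3 : ∫ x in (2 : ℝ)..s, F (x - 1) = ∫ x in (2 : ℝ)..s, 1 / (x - 1) := by
    apply intervalIntegral.integral_congr
    intro x hx
    rw [Set.uIcc_of_le h2] at hx
    exact h.F3 (x - 1) (by linarith [hx.1]) (by linarith [hx.2])
  rw [h3, intervalIntegral.integral_comp_sub_right (fun x => 1 / x) 1,
    integral_one_div_of_pos (by norm_num) (by linarith)] at h1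
  have h5 : (s - 1) / (2 - 1) = s - 1 := by norm_num
  rw [h5] at h1
  rw [eq_div_iff (by linarith : (0 : ℝ) < s).ne', mul_comm]
  exact h1

theorem F_formula {F f : ℝ → ℝ} (h : DDE F f) (s : ℝ) (h3 : 3 ≤ s) (h5 : s ≤ 5) :
    F s = (1 + ∫ x in (2 : ℝ)..(s - 1), Real.log (x - 1) / x) / s := by
  have hs : s ≠ 0 := (by linarith : (0 : ℝ) < s).ne'
  have h1 := h.Fint 3 s le_rfl h3
  rw [h.F3 3 (by norm_num) le_rfl] at h1
  have h2 : ∫ x in (3 : ℝ)..s, f (x - 1) = ∫ x in (3 : ℝ)..s, (fun y => Real.log (y - 1) / y) (x - 1) := by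
    apply intervalIntegral.integral_congr
    intro x hx
    rw [Set.uIcc_of_le h3] at hx
    exact f_formula h (x - 1) (by linarith [hx.1]) (by linarith [hx.2])
  rw [h2, intervalIntegral.integral_comp_sub_right (fun y => Real.log (y - 1) / y) 1] at h1
  rw [show (3 : ℝ) - 1 = 2 by norm_num] at h1
  rw [eq_div_iff hs, ← h1]
  ring

theorem f_pos {F f : ℝ → ℝ} (h : DDE F f) (s : ℝ) (h3 : 3 ≤ s) : 1 / 5 ≤ f s := by
  have h1 : f 3 ≤ f s := h.fmono h3
  rw [f_formula h 3 (by norm_num) (by norm_num)] at h1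
  have h2 := Real.log_two_gt_d9
  rw [show (3 : ℝ) - 1 = 2 by norm_num] at h1
  linarith

end Pool.Agent.Work.MP_2dba45_nt.Sv
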