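import Mathlib
import Pool.Agent.Work.MP_2dba45_nt.Sv.Defs

set_option autoImplicit false

/-!
Module DDEINT. Substitute x = τ/v (or differentiate v ↦ F(τ/v)/v, derivative -f(τ/v-1)/v^2 for
τ/v > 3, resp. v ↦ f(τ/v)/v, derivative -F(τ/v-1)/v^2 for τ/v > 2) in Fint and fint.
-/

namespace Pool.Agent.Work.MP_2dba45_nt.Sv

open Finset Pool.Agent.Work.MP_2dba45_nt.BilDef

private theorem sub_int {g : ℝ → ℝ} (α β τ : ℝ) (hα : 0 < α) (hαβ : α ≤ β) (hτ : 0 < τ)
    (hg : ContinuousOn g (Set.Ici (τ / β))) :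
    ∫ v in α..β, g (τ / v) / v ^ 2 = (1 / τ) * ∫ x in (τ / β)..(τ / α), g x := by
  have hβ : 0 < β := lt_of_lt_of_le hα hαβ
  have hI : Set.uIcc α β = Set.Icc α β := Set.uIcc_of_le hαβ
  have h1 := intervalIntegral.integral_comp_mul_deriv'' (a := α) (b := β) (f := fun v => τ / v)
    (f' := fun v => -(τ / v ^ 2)) (g := g)
    (by
      rw [hI]
      exact continuousOn_const.div continuousOn_id
        (fun x hx => (lt_of_lt_of_le hα hx.1).ne'))
    (by
      intro x hx
      rw [min_eq_left hαβ, max_eq_right hαβ] at hx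
      have hx0 : x ≠ 0 := (hα.trans hx.1).ne'
      have h2 := (hasDerivAt_inv hx0).const_mul τ
      have h3 : HasDerivAt (fun v => τ / v) (-(τ / x ^ 2)) x := by
        have h4 : (fun v : ℝ => τ / v) = fun v => τ * v⁻¹ := by
          funext v
          rw [div_eq_mul_inv]
        have h5 : τ * -(x ^ 2)⁻¹ = -(τ / x ^ 2) := by
          rw [div_eq_mul_inv, mul_neg]
        rw [h4, ← h5]
        exact h2
      exact h3.hasDerivWithinAt)
    (by
      rw [hI]
      exact (continuousOn_const.div (continuousOn_id.pow 2)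
        (fun x hx => (pow_pos (lt_of_lt_of_le hα hx.1) 2).ne')).neg)
    (by
      apply hg.mono
      rintro _ ⟨x, hx, rfl⟩
      rw [hI] at hx
      exact div_le_div_of_nonneg_left hτ.le (lt_of_lt_of_le hα hx.1) hx.2)
  have h5 : ∫ v in α..β, g (τ / v) / v ^ 2 =
      -(1 / τ) * ∫ v in α..β, (g ∘ fun v => τ / v) v * (fun v => -(τ / v ^ 2)) v := by
    rw [← intervalIntegral.integral_const_mul]
    apply intervalIntegral.integral_congr
    intro v hv
    simp only [Function.comp_apply]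
    field_simp
  rw [h5, h1, intervalIntegral.integral_symm]
  ring

theorem int_f {F f : ℝ → ℝ} (h : DDE F f) (α β τ : ℝ) (hα : 0 < α) (hαβ : α ≤ β)
    (hβ : 3 * β ≤ τ) : ∫ v in α..β, f (τ / v - 1) / v ^ 2 = F (τ / α) / α - F (τ / β) / β := by
  have hβ0 : 0 < β := lt_of_lt_of_le hα hαβ
  have hτ : 0 < τ := by linarith
  have h1 := sub_int (g := fun x => f (x - 1)) α β τ hα hαβ hτ
    (h.fc.comp (continuous_id.sub continuous_const)).continuousOn
  rw [h1]
  have h3 : 3 ≤ τ / β := by rw [le_div_iff₀ hβ0]; exact hβ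
  have hle : τ / β ≤ τ / α := div_le_div_of_nonneg_left hτ.le hα hαβ
  rw [← h.Fint (τ / β) (τ / α) h3 hle]
  field_simp

theorem int_F {F f : ℝ → ℝ} (h : DDE F f) (α β τ : ℝ) (hα : 0 < α) (hαβ : α ≤ β)
    (hβ : 2 * β ≤ τ) : ∫ v in α..β, F (τ / v - 1) / v ^ 2 = f (τ / α) / α - f (τ / β) / β := by
  have hβ0 : 0 < β := lt_of_lt_of_le hα hαβ
  have hτ : 0 < τ := by linarith
  have h2 : 2 ≤ τ / β := by rw [le_div_iff₀ hβ0]; exact hβ
  have h1 := sub_int (g := fun x => F (x - 1)) α β τ hα hαβ hτ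
    (by
      apply h.Fc.comp (continuous_id.sub continuous_const).continuousOn
      intro x hx
      have : τ / β ≤ x := hx
      show 0 < x - 1
      linarith)
  rw [h1]
  have hle : τ / β ≤ τ / α := div_le_div_of_nonneg_left hτ.le hα hαβ
  rw [← h.fint (τ / β) (τ / α) h2 hle]
  field_simp

end Pool.Agent.Work.MP_2dba45_nt.Sv
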