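import Mathlib
import Pool.Agent.Work.MP_2dba45_nt.Sv.Defs

set_option autoImplicit false

/-!
Module DDELIP. On [1/20, 3] from F s = 1/s; beyond, from Fint: t F t - s F s = ∫ f ≤ (t - s) sup f, and
f ≤ F ≤ 1 there. Similarly f. Any constant.
-/

namespace Pool.Agent.Work.MP_2dba45_nt.Sv

open Finset Pool.Agent.Work.MP_2dba45_nt.BilDef

private theorem F_one {F f : ℝ → ℝ} (h : DDE F f) : F 1 = 1 := by
  rw [h.F3 1 (by norm_num) (by norm_num)]
  norm_num

private theorem F_nonneg {F f : ℝ → ℝ} (h : DDE F f) {s : ℝ} (hs : 0 < s) : 0 ≤ F s :=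
  (h.fnn s).trans (h.fF s hs)

private theorem F_le_one {F f : ℝ → ℝ} (h : DDE F f) {s : ℝ} (hs : 1 ≤ s) : F s ≤ 1 := by
  rw [← F_one h]
  exact h.Fanti (show (0 : ℝ) < 1 by norm_num) (show (0 : ℝ) < s by linarith) hs

private theorem f_le_one {F f : ℝ → ℝ} (h : DDE F f) (s : ℝ) : f s ≤ 1 := by
  rcases le_total s 2 with h2 | h2
  · rw [h.f2 s h2]
    norm_num
  · exact (h.fF s (by linarith)).trans (F_le_one h (by linarith))

private theorem Phi_bound {F f : ℝ → ℝ} (h : DDE F f) {s t : ℝ} (hs : 0 < s) (hst : s ≤ t) :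
    0 ≤ t * F t - s * F s ∧ t * F t - s * F s ≤ t - s := by
  have key : ∀ s t : ℝ, 3 ≤ s → s ≤ t → 0 ≤ t * F t - s * F s ∧ t * F t - s * F s ≤ t - s := by
    intro s t hs hst
    rw [h.Fint s t hs hst]
    constructor
    · exact intervalIntegral.integral_nonneg hst (fun x _ => h.fnn _)
    · calc ∫ x in s..t, f (x - 1) ≤ ∫ x in s..t, (1 : ℝ) := by
            apply intervalIntegral.integral_mono_on hst
            · exact (h.fc.comp (continuous_id.sub continuous_const)).intervalIntegrable _ _
            · exact intervalIntegrable_const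
            · intro x _
              exact f_le_one h _
        _ = t - s := by rw [intervalIntegral.integral_const, smul_eq_mul, mul_one]
  have one : ∀ s : ℝ, 0 < s → s ≤ 3 → s * F s = 1 := by
    intro s hs hs3
    rw [h.F3 s hs hs3, mul_one_div_cancel hs.ne']
  rcases le_total t 3 with ht | ht
  · rw [one t (by linarith) ht, one s hs (by linarith)]
    constructor <;> linarith
  · rcases le_total s 3 with hs3 | hs3
    · have h1 := key 3 t le_rfl ht
      rw [one s hs hs3]
      rw [one 3 (by norm_num) le_rfl] at h1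
      exact ⟨h1.1, by linarith [h1.2]⟩
    · exact key s t hs3 hst

theorem lip_F {F f : ℝ → ℝ} (h : DDE F f) :
    ∃ C : ℝ, 0 ≤ C ∧ ∀ s t : ℝ, 1 / 20 ≤ s → 1 / 20 ≤ t → |F s - F t| ≤ C * |s - t| := by
  have key : ∀ s t : ℝ, 1 / 20 ≤ s → s ≤ t → |F s - F t| ≤ 420 * |s - t| := by
    intro s t hs hst
    have hs0 : 0 < s := by linarith
    have ht0 : 0 < t := by linarith
    obtain ⟨h1, h2⟩ := Phi_bound h hs0 hst
    have h3 : F s ≤ 20 := by
      have h4 := h.Fanti (show (0 : ℝ) < 1 / 20 by norm_num) (show (0 : ℝ) < s from hs0) hs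
      rw [h.F3 (1 / 20) (by norm_num) (by norm_num)] at h4
      norm_num at h4
      exact h4
    have h5 : 0 ≤ F s := F_nonneg h hs0
    have h6 : F s - F t = (F s * (t - s) - (t * F t - s * F s)) / t := by
      field_simp
      ring
    have h7 : |F s * (t - s) - (t * F t - s * F s)| ≤ 21 * (t - s) := by
      have h8 : 0 ≤ t - s := by linarith
      have h9 : F s * (t - s) ≤ 20 * (t - s) := mul_le_mul_of_nonneg_right h3 h8
      have h10 : 0 ≤ F s * (t - s) := mul_nonneg h5 h8
      rw [abs_le]
      constructor <;> linarith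
    rw [h6, abs_div, abs_of_pos ht0, div_le_iff₀ ht0, abs_sub_comm s t,
      abs_of_nonneg (by linarith : (0 : ℝ) ≤ t - s)]
    refine h7.trans ?_
    have h8 : 0 ≤ t - s := by linarith
    nlinarith
  refine ⟨420, by norm_num, fun s t hs ht => ?_⟩
  rcases le_total s t with hst | hst
  · exact key s t hs hst
  · rw [abs_sub_comm, abs_sub_comm s t]
    exact key t s ht hst

theorem lip_f {F f : ℝ → ℝ} (h : DDE F f) :
    ∃ C : ℝ, 0 ≤ C ∧ ∀ s t : ℝ, |f s - f t| ≤ C * |s - t| := by
  have key2 : ∀ s t : ℝ, 2 ≤ s → s ≤ t → f t - f s ≤ t - s := by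
    intro s t hs hst
    have h1 := h.fint s t hs hst
    have h2 : ∫ x in s..t, F (x - 1) ≤ t - s := by
      calc ∫ x in s..t, F (x - 1) ≤ ∫ x in s..t, (1 : ℝ) := by
            apply intervalIntegral.integral_mono_on hst
            · apply ContinuousOn.intervalIntegrable
              apply h.Fc.comp (continuous_id.sub continuous_const).continuousOn
              intro x hx
              rw [Set.uIcc_of_le hst] at hx
              show 0 < x - 1
              linarith [hx.1]
            · exact intervalIntegrable_const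
            · intro x hx
              exact F_le_one h (by linarith [hx.1])
        _ = t - s := by rw [intervalIntegral.integral_const, smul_eq_mul, mul_one]
    have h3 := h.fnn t
    have h4 := h.fnn s
    have h5 : t * f t - s * f s ≤ t - s := by rw [h1]; exact h2
    have h6 : f s ≤ f t := h.fmono hst
    nlinarith
  have key : ∀ s t : ℝ, s ≤ t → |f s - f t| ≤ 1 * |s - t| := by
    intro s t hst
    have h6 : f s ≤ f t := h.fmono hst
    rw [abs_sub_comm, abs_sub_comm s t, abs_of_nonneg (by linarith : (0 : ℝ) ≤ f t - f s),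
      abs_of_nonneg (by linarith : (0 : ℝ) ≤ t - s), one_mul]
    rcases le_total t 2 with ht | ht
    · rw [h.f2 t ht, h.f2 s (by linarith)]
      linarith
    · rcases le_total s 2 with hs | hs
      · have h7 := key2 2 t le_rfl ht
        rw [h.f2 2 le_rfl] at h7
        rw [h.f2 s hs]
        linarith
      · exact key2 s t hs hst
  refine ⟨1, by norm_num, fun s t => ?_⟩
  rcases le_total s t with hst | hst
  · exact key s t hst
  · rw [abs_sub_comm, abs_sub_comm s t]
    exact key t s hst

end Pool.Agent.Work.MP_2dba45_nt.Sv
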