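import Mathlib
import Pool.Agent.Work.MP_2dba45_nt.Sv.Defs
import Pool.Agent.Work.MP_2dba45_nt.Sv.DdeForm

set_option autoImplicit false

/-!
Module NUM. Numerical inequality (value about 0.0040). With θ = 1298/1200, ζ = 9/40, u = θ/ζ = 4.8074..,
v0 = 1199/1200, λ = 1199/1196 and I(s) = ∫_2^{s-1} log(x-1)/x dx (so F s = (1 + I s)/s on [3,5], F s = 1/s
below 3), multiply by u:
 u f(u) = log(u-1) + ∫_3^{u-1} I(s)/s ds   (f fint: u f(u) = ∫_2^u F(x-1) dx, F(s) = (1+I s)/s on [3,u-1]),
 θ ∫_ζ^{v0} (1 - v/v0) / ((θ - v) v) dv = log(v0/ζ) - (θ/v0 - 1) log((θ-ζ)/(θ-v0)),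
 and the part with I: substitute s = (θ-v)/ζ, v = θ(1 - s/u), s from 3 to u-1. Total:
 log(u-1) - λ [log(v0/ζ) - (θ/v0 - 1) log((θ-ζ)/(θ-v0))] - ∫_3^{u-1} (I(s)/s) [λ u/(u-s) - 1 - λ θ/v0] ds
 = 0.03610.. - 0.01674.. > 0. We use 0 ≤ I(s) ≤ (s-3)^2/4 (log(x-1) ≤ x-2, x ≥ 2) and the bound
 0.72 for the factor [..]/s: the last integral is at most 0.0316 and the logarithms give 0.0334.
-/

namespace Pool.Agent.Work.MP_2dba45_nt.Sv

open Finset Pool.Agent.Work.MP_2dba45_nt.BilDef

private theorem rm_bound {F f : ℝ → ℝ} (h : DDE F f) (s : ℝ) (h3 : 3 ≤ s) (h5 : s ≤ 5) :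
    0 ≤ s * F s - 1 ∧ s * F s - 1 ≤ (s - 3) ^ 2 / 4 := by
  have h1 := F_formula h s h3 h5
  have hs : s ≠ 0 := by linarith
  have h2 : s * F s - 1 = ∫ x in (2 : ℝ)..(s - 1), Real.log (x - 1) / x := by
    rw [h1]
    field_simp
    ring
  rw [h2]
  have hle : (2 : ℝ) ≤ s - 1 := by linarith
  constructor
  · refine intervalIntegral.integral_nonneg hle fun x hx => ?_
    exact div_nonneg (Real.log_nonneg (by linarith [hx.1])) (by linarith [hx.1])
  · have h4 : ∫ x in (2 : ℝ)..(s - 1), Real.log (x - 1) / x ≤ ∫ x in (2 : ℝ)..(s - 1), (x - 2) / 2 := by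
      refine intervalIntegral.integral_mono_on hle ?_ ?_ fun x hx => ?_
      · refine ContinuousOn.intervalIntegrable ?_
        rw [Set.uIcc_of_le hle]
        refine ContinuousOn.div ?_ continuousOn_id fun x hx => ?_
        · refine ContinuousOn.log (continuousOn_id.sub continuousOn_const) fun x hx => ?_
          have : (2 : ℝ) ≤ x := hx.1
          exact (by linarith : x - 1 ≠ 0)
        · have : (2 : ℝ) ≤ x := hx.1
          exact (by linarith : x ≠ 0)
      · exact Continuous.intervalIntegrable (by fun_prop) _ _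
      · have hx2 : (2 : ℝ) ≤ x := hx.1
        have h6 : Real.log (x - 1) ≤ x - 2 := by
          have := Real.log_le_sub_one_of_pos (by linarith : (0 : ℝ) < x - 1)
          linarith
        rw [div_le_div_iff₀ (by linarith) (by norm_num)]
        nlinarith
    refine h4.trans (le_of_eq ?_)
    have h7 : ∫ x in (2 : ℝ)..(s - 1), (x - 2) / 2 = (1 / 2) * ∫ x in (2 : ℝ)..(s - 1), (x - 2) := by
      rw [← intervalIntegral.integral_const_mul]
      refine intervalIntegral.integral_congr fun x _ => ?_
      show (x - 2) / 2 = 1 / 2 * (x - 2)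
      ring
    rw [h7, intervalIntegral.integral_sub intervalIntegral.intervalIntegrable_id
      intervalIntegrable_const, integral_id, intervalIntegral.integral_const, smul_eq_mul]
    ring

theorem num_ineq (F f : ℝ → ℝ) (h : DDE F f) : ∃ c : ℝ, 0 < c ∧
    c ≤ f ((1298 / 1200) / zExp) -
      lamb * ∫ v in zExp..yExp, (1 - v / yExp) * F ((1298 / 1200 - v) / zExp) / v := by
  refine ⟨_, ?_, le_rfl⟩
  rw [sub_pos]
  -- parameters
  set u : ℝ := 649 / 135 with hu
  have hu1 : (1298 / 1200 : ℝ) / zExp = u := by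
    unfold zExp
    rw [hu]
    norm_num
  rw [hu1]
  set s1 : ℝ := 11 / 30 with hs1
  -- the substitution
  have hJ : ∫ v in zExp..yExp, (1 - v / yExp) * F ((1298 / 1200 - v) / zExp) / v =
      ∫ s in s1..(u - 1), (1 / (u - s) - 270 / 1199) * F s := by
    have h1 : ∫ v in zExp..yExp, (1 - v / yExp) * F ((1298 / 1200 - v) / zExp) / v =
        ∫ v in zExp..yExp, (fun s => (40 / 9) * ((1 / (u - s) - 270 / 1199) * F s))
          (u - v / zExp) := by
      refine intervalIntegral.integral_congr fun v hv => ?_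
      rw [Set.uIcc_of_le (by unfold zExp yExp; norm_num)] at hv
      have hv0 : 0 < v := lt_of_lt_of_le (by unfold zExp; norm_num) hv.1
      show (1 - v / yExp) * F ((1298 / 1200 - v) / zExp) / v =
        (40 / 9) * ((1 / (u - (u - v / zExp)) - 270 / 1199) * F (u - v / zExp))
      have h2 : (1298 / 1200 - v) / zExp = u - v / zExp := by
        rw [← hu1]
        ring
      rw [h2]
      have h3 : u - (u - v / zExp) = v / zExp := by ring
      rw [h3]
      unfold zExp yExp
      field_simp
      ring
    have h7 := intervalIntegral.integral_comp_sub_div (a := zExp) (b := yExp) (c := zExp)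
      (fun s => (40 / 9) * ((1 / (u - s) - 270 / 1199) * F s))
      (by unfold zExp; norm_num) u
    rw [h1, h7, intervalIntegral.integral_const_mul, smul_eq_mul, ← mul_assoc]
    have h4 : zExp * (40 / 9) = 1 := by unfold zExp; norm_num
    have h5 : u - yExp / zExp = s1 := by unfold yExp zExp; rw [hu, hs1]; norm_num
    have h6 : u - zExp / zExp = u - 1 := by unfold zExp; norm_num
    rw [h4, one_mul, h5, h6]
  rw [hJ]
  -- splitting F = 1/s + R
  set R : ℝ → ℝ := fun s => F s - 1 / s with hR
  set w : ℝ → ℝ := fun s => 1 / (u - s) - 270 / 1199 with hw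
  have hu4 : (4 : ℝ) < u := by rw [hu]; norm_num
  have hu5 : u < 5 := by rw [hu]; norm_num
  have hs1p : (0 : ℝ) < s1 := by rw [hs1]; norm_num
  have hs11 : s1 ≤ 1 := by rw [hs1]; norm_num
  have hRc : ∀ a b : ℝ, 0 < a → ContinuousOn R (Set.Icc a b) := by
    intro a b ha
    refine ContinuousOn.sub (h.Fc.mono fun x hx => lt_of_lt_of_le ha hx.1)
      (continuousOn_const.div continuousOn_id fun x hx => ?_)
    have : a ≤ x := hx.1
    exact (by linarith : x ≠ 0)
  have hwc : ∀ a b : ℝ, b < u → ContinuousOn w (Set.Icc a b) := by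
    intro a b hb
    refine ContinuousOn.sub (continuousOn_const.div (continuousOn_const.sub continuousOn_id)
      fun x hx => ?_) continuousOn_const
    have : x ≤ b := hx.2
    exact (by linarith : u - x ≠ 0)
  have hic : ∀ a b : ℝ, 0 < a → ContinuousOn (fun s : ℝ => 1 / s) (Set.Icc a b) := by
    intro a b ha
    refine continuousOn_const.div continuousOn_id fun x hx => ?_
    have : a ≤ x := hx.1
    exact (by linarith : x ≠ 0)
  have hii : ∀ (g : ℝ → ℝ) (a b : ℝ), a ≤ b → ContinuousOn g (Set.Icc a b) →
      IntervalIntegrable g MeasureTheory.volume a b := by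
    intro g a b hab hg
    refine ContinuousOn.intervalIntegrable ?_
    rwa [Set.uIcc_of_le hab]
  have hR0 : ∀ s, 0 < s → s ≤ 3 → R s = 0 := by
    intro s hs0 hs3
    simp only [hR]
    rw [h.F3 s hs0 hs3, sub_self]
  have iA : IntervalIntegrable (fun s => w s * (1 / s)) MeasureTheory.volume s1 (u - 1) :=
    hii _ _ _ (by linarith) ((hwc _ _ (by linarith)).mul (hic _ _ hs1p))
  have iB : IntervalIntegrable (fun s => w s * R s) MeasureTheory.volume s1 (u - 1) :=
    hii _ _ _ (by linarith) ((hwc _ _ (by linarith)).mul (hRc _ _ hs1p))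
  have iB1 : IntervalIntegrable (fun s => w s * R s) MeasureTheory.volume s1 3 :=
    hii _ _ _ (by linarith) ((hwc _ _ (by linarith)).mul (hRc _ _ hs1p))
  have iB2 : IntervalIntegrable (fun s => w s * R s) MeasureTheory.volume 3 (u - 1) :=
    hii _ _ _ (by linarith) ((hwc _ _ (by linarith)).mul (hRc _ _ (by norm_num)))
  have iR : IntervalIntegrable (fun s => R s) MeasureTheory.volume 3 (u - 1) :=
    hii _ _ _ (by linarith) (hRc _ _ (by norm_num))
  -- f u
  have hfu : u * f u = Real.log (u - 1) + ∫ s in (3 : ℝ)..(u - 1), R s := by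
    have h1 := h.fint 2 u le_rfl (by linarith)
    rw [h.f2 2 le_rfl, mul_zero, sub_zero] at h1
    rw [h1, intervalIntegral.integral_comp_sub_right (fun x => F x) 1]
    have h21 : (2 : ℝ) - 1 = 1 := by norm_num
    rw [h21]
    have h2 : ∫ x in (1 : ℝ)..(u - 1), F x = ∫ x in (1 : ℝ)..(u - 1), (1 / x + R x) := by
      refine intervalIntegral.integral_congr fun x _ => ?_
      show F x = 1 / x + (F x - 1 / x)
      ring
    rw [h2, intervalIntegral.integral_add (hii _ _ _ (by linarith) (hic _ _ one_pos))
      (hii _ _ _ (by linarith) (hRc _ _ one_pos)),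
      integral_one_div_of_pos one_pos (by linarith), div_one]
    congr 1
    rw [← intervalIntegral.integral_add_adjacent_intervals
      (hii R 1 3 (by norm_num) (hRc _ _ one_pos))
      (hii R 3 (u - 1) (by linarith) (hRc _ _ (by norm_num)))]
    have h3 : ∫ x in (1 : ℝ)..3, R x = ∫ x in (1 : ℝ)..3, (0 : ℝ) := by
      refine intervalIntegral.integral_congr fun x hx => ?_
      rw [Set.uIcc_of_le (by norm_num)] at hx
      exact hR0 x (by linarith [hx.1]) hx.2
    rw [h3, intervalIntegral.integral_zero, zero_add]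
  -- the main part of J
  have hJ1 : ∫ s in s1..(u - 1), w s * (1 / s) =
      (1 / u - 270 / 1199) * (Real.log (u - 1) - Real.log s1) + 1 / u * Real.log (u - s1) := by
    have h1 : ∫ s in s1..(u - 1), w s * (1 / s) =
        ((1 / u - 270 / 1199) * Real.log (u - 1) - 1 / u * Real.log (u - (u - 1))) -
        ((1 / u - 270 / 1199) * Real.log s1 - 1 / u * Real.log (u - s1)) := by
      refine intervalIntegral.integral_eq_sub_of_hasDerivAt
        (f := fun s => (1 / u - 270 / 1199) * Real.log s - 1 / u * Real.log (u - s)) ?_ ?_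
      · intro x hx
        rw [Set.uIcc_of_le (by linarith)] at hx
        have hx0 : x ≠ 0 := by linarith [hx.1]
        have hxu : u - x ≠ 0 := by linarith [hx.2]
        have h2 : HasDerivAt (fun s : ℝ => u - s) (-1) x := (hasDerivAt_id x).const_sub u
        have h3 := ((Real.hasDerivAt_log hx0).const_mul (1 / u - 270 / 1199)).sub
          ((h2.log hxu).const_mul (1 / u))
        refine h3.congr_deriv ?_
        simp only [hw]
        have hu0 : u ≠ 0 := by linarith
        field_simp
        ring
      · exact iA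
    rw [h1]
    have h2 : u - (u - 1) = 1 := by ring
    rw [h2, Real.log_one]
    ring
  have hJ2 : ∫ s in s1..(u - 1), (1 / (u - s) - 270 / 1199) * F s =
      (∫ s in s1..(u - 1), w s * (1 / s)) + ∫ s in (3 : ℝ)..(u - 1), w s * R s := by
    have h1 : ∫ s in s1..(u - 1), (1 / (u - s) - 270 / 1199) * F s =
        ∫ s in s1..(u - 1), (w s * (1 / s) + w s * R s) := by
      refine intervalIntegral.integral_congr fun x _ => ?_
      show w x * F x = w x * (1 / x) + w x * (F x - 1 / x)
      ring
    rw [h1, intervalIntegral.integral_add iA iB]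
    congr 1
    rw [← intervalIntegral.integral_add_adjacent_intervals iB1 iB2]
    have h3 : ∫ x in s1..3, w x * R x = ∫ x in s1..3, (0 : ℝ) := by
      refine intervalIntegral.integral_congr fun x hx => ?_
      rw [Set.uIcc_of_le (by linarith)] at hx
      show w x * R x = 0
      rw [hR0 x (by linarith [hx.1]) hx.2, mul_zero]
    rw [h3, intervalIntegral.integral_zero, zero_add]
  rw [hJ2, hJ1]
  -- the remaining integral
  have hlam : lamb = 1199 / 1196 := rfl
  have hrest : (∫ s in (3 : ℝ)..(u - 1), (lamb * (w s * R s) - 1 / u * R s)) ≤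
      ∫ s in (3 : ℝ)..(u - 1), (72 / 100 / u / 4) * (s - 3) ^ 2 := by
    refine intervalIntegral.integral_mono_on (by linarith) ?_ ?_ ?_
    · exact (iB2.const_mul lamb).sub (iR.const_mul (1 / u))
    · exact Continuous.intervalIntegrable (by fun_prop) _ _
    · intro x hx
      have hx3 : 3 ≤ x := hx.1
      have hxu : x ≤ u - 1 := hx.2
      obtain ⟨hb0, hb1⟩ := rm_bound h x hx3 (by linarith)
      have hx0 : 0 < x := by linarith
      have hRx : R x = (x * F x - 1) / x := by
        simp only [hR]
        field_simp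
      have hux : 0 < u - x := by linarith
      have hkey : lamb * w x - 1 / u ≤ 72 / 100 / u * x := by
        have h1 : 0 ≤ (72 / 100 / u * x - (lamb * w x - 1 / u)) * (u - x) * u := by
          have h2 : (72 / 100 / u * x - (lamb * w x - 1 / u)) * (u - x) * u =
              72 / 100 * x * (u - x) - lamb * u + lamb * (270 / 1199) * (u - x) * u + (u - x) := by
            simp only [hw]
            field_simp
            ring
          rw [h2, hlam, hu]
          rw [hu] at hxu
          nlinarith [mul_nonneg (sub_nonneg.2 hx3) (sub_nonneg.2 hxu)]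
        by_contra hcon
        have hcon := not_le.1 hcon
        have h3 : (72 / 100 / u * x - (lamb * w x - 1 / u)) * (u - x) * u < 0 := by
          have h4 : 72 / 100 / u * x - (lamb * w x - 1 / u) < 0 := by linarith
          exact mul_neg_of_neg_of_pos (mul_neg_of_neg_of_pos h4 hux) (by linarith)
        linarith
      have h5 : lamb * (w x * R x) - 1 / u * R x = (lamb * w x - 1 / u) * ((x * F x - 1) / x) := by
        rw [hRx]; ring
      rw [h5]
      have h6 : (lamb * w x - 1 / u) * ((x * F x - 1) / x) ≤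
          72 / 100 / u * x * ((x * F x - 1) / x) :=
        mul_le_mul_of_nonneg_right hkey (div_nonneg hb0 hx0.le)
      refine h6.trans ?_
      have h7 : 72 / 100 / u * x * ((x * F x - 1) / x) = 72 / 100 / u * (x * F x - 1) := by
        field_simp
      rw [h7]
      have h8 : 0 ≤ 72 / 100 / u := by positivity
      have h9 := mul_le_mul_of_nonneg_left hb1 h8
      linarith
  have hrest2 : ∫ s in (3 : ℝ)..(u - 1), (72 / 100 / u / 4) * (s - 3) ^ 2 =
      72 / 100 / u / 12 * (u - 4) ^ 3 := by
    rw [intervalIntegral.integral_const_mul,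
      intervalIntegral.integral_comp_sub_right (fun x => x ^ 2) 3, integral_pow]
    norm_num
  have hrest3 : (∫ s in (3 : ℝ)..(u - 1), (lamb * (w s * R s) - 1 / u * R s)) =
      lamb * (∫ s in (3 : ℝ)..(u - 1), w s * R s) - 1 / u * ∫ s in (3 : ℝ)..(u - 1), R s := by
    rw [intervalIntegral.integral_sub (iB2.const_mul lamb) (iR.const_mul (1 / u)),
      intervalIntegral.integral_const_mul, intervalIntegral.integral_const_mul]
  rw [hrest2, hrest3] at hrest
  -- logarithms
  have hA : u - 1 = 514 / 135 := by rw [hu]; norm_num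
  have hB : u - s1 = 1199 / 270 := by rw [hu, hs1]; norm_num
  have hl2 := Real.log_two_gt_d9
  have hl2' := Real.log_two_lt_d9
  have e1 : Real.log (514 / 135) - Real.log (1199 / 270) ≥ -(15405 / 100000) := by
    rw [← Real.log_div (by norm_num) (by norm_num)]
    have h1 := Real.abs_log_sub_add_sum_range_le (x := 171 / 1199) (by norm_num [abs_lt]) 4
    rw [abs_le] at h1
    have h2 := h1.1
    simp only [Finset.sum_range_succ, Finset.sum_range_zero] at h2
    have h3 : (514 / 135 : ℝ) / (1199 / 270) = 1 - 171 / 1199 := by norm_num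
    rw [h3]
    norm_num [abs_of_pos] at h2 ⊢
    linarith
  have e2 : Real.log (1199 / 270) ≤ 14965 / 10000 := by
    have h1 : (1199 / 270 : ℝ) = 2 * 2 * (1199 / 1080) := by norm_num
    rw [h1, Real.log_mul (by norm_num) (by norm_num), Real.log_mul (by norm_num) (by norm_num)]
    have h2 := Real.log_le_sub_one_of_pos (by norm_num : (0 : ℝ) < 1199 / 1080)
    linarith
  have e3 : Real.log (514 / 135) - Real.log s1 ≥ 2309 / 1000 := by
    rw [hs1, ← Real.log_div (by norm_num) (by norm_num)]
    have h1 : (514 / 135 : ℝ) / (11 / 30) = 2 * 2 * 2 * (1028 / 792) := by norm_num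
    rw [h1, Real.log_mul (by norm_num) (by norm_num), Real.log_mul (by norm_num) (by norm_num),
      Real.log_mul (by norm_num) (by norm_num)]
    have h2 := Real.one_sub_inv_le_log_of_pos (by norm_num : (0 : ℝ) < 1028 / 792)
    norm_num at h2 ⊢
    linarith
  have hu0 : (0 : ℝ) < u := by linarith
  have hfu' : f u = 1 / u * Real.log (u - 1) + 1 / u * ∫ s in (3 : ℝ)..(u - 1), R s := by
    rw [← mul_add, ← hfu]
    field_simp
  rw [hfu', hA, hB]
  rw [hA] at hrest
  set I1 : ℝ := ∫ s in (3 : ℝ)..(514 / 135), w s * R s with hI1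
  set I2 : ℝ := ∫ s in (3 : ℝ)..(514 / 135), R s with hI2
  have e4 : 72 / 100 / u / 12 * (u - 4) ^ 3 ≤ 1 / u * (316 / 10000) := by
    rw [hu]
    norm_num
  have e5 : 1 / u * (316 / 10000) < 1 / u * Real.log (514 / 135) -
      lamb * ((1 / u - 270 / 1199) * (Real.log (514 / 135) - Real.log s1) +
        1 / u * Real.log (1199 / 270)) := by
    rw [hlam, hu]
    set la := Real.log (514 / 135)
    set lb := Real.log (1199 / 270)
    set lc := Real.log s1
    norm_num
    linarith
  have e6 : lamb * ((1 / u - 270 / 1199) * (Real.log (514 / 135) - Real.log s1) +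
      1 / u * Real.log (1199 / 270) + I1) = lamb * ((1 / u - 270 / 1199) *
      (Real.log (514 / 135) - Real.log s1) + 1 / u * Real.log (1199 / 270)) + lamb * I1 := by ring
  rw [e6]
  linarith

end Pool.Agent.Work.MP_2dba45_nt.Sv
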