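import Mathlib
import Pool.Agent.Work.MP_2dba45_nt.Sv.Defs
import Pool.Agent.Work.MP_2dba45_nt.Sv.MainInd
import Pool.Agent.Work.MP_2dba45_nt.Sv.Dde
import Pool.Agent.Work.MP_2dba45_nt.Sv.Box
import Pool.Agent.Work.MP_2dba45_nt.Sv.Num

set_option autoImplicit false

/-!
Module MAINW. The main term of the weighted sum; see blueprint_2dba45.md, section MAINW.
-/

namespace Pool.Agent.Work.MP_2dba45_nt.Sv

open Finset Pool.Agent.Work.MP_2dba45_nt.BilDef

theorem mw_F_nonneg {F f : ℝ → ℝ} (h : DDE F f) {s : ℝ} (hs : 0 < s) : 0 ≤ F s :=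
  (h.fnn s).trans (h.fF s hs)

theorem mw_F_le {F f : ℝ → ℝ} (h : DDE F f) {s : ℝ} (hs : 1 / 20 ≤ s) : F s ≤ 20 := by
  have h1 : F s ≤ F (1 / 20) :=
    h.Fanti (show (0 : ℝ) < 1 / 20 by norm_num) (show (0 : ℝ) < s by linarith) hs
  rw [h.F3 (1 / 20) (by norm_num) (by norm_num)] at h1
  linarith

theorem mw_SS_smul (P : Finset ℕ) (a : ℕ → ℕ) (par : Bool) (z : ℕ) (L : ℤ) (c : ℝ)
    (f : Finset ℕ → ℝ) : SS P a par z L (fun T => c * f T) = c * SS P a par z L f := by
  unfold SS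
  rw [Finset.mul_sum]
  refine Finset.sum_congr rfl fun T _ => ?_
  ring

theorem mw_insert (P : Finset ℕ) (a : ℕ → ℕ) (par : Bool) (z : ℕ) (L : ℤ) (p : ℕ) (hp : z ≤ p) :
    SS P a par z L (fun T => GG (insert p T)) = g1 p * SS P a par z L GG := by
  rw [← mw_SS_smul]
  refine SS_congr P a par z L _ _ fun T hT => ?_
  have hnot : p ∉ T := by
    intro h
    have := hT h
    rw [Finset.mem_filter] at this
    omega
  unfold GG
  rw [Finset.prod_insert hnot]

/-- the weights, from above -/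
theorem mw_weight (N k p : ℕ) (hk : 1 ≤ k) :
    wt k (cost (1200 * k) N p) ≤ (1 - Real.log p / Real.log N / yExp) + 1 / (1199 * k) ∧
      wt k (cost (1200 * k) N p) ≤ 1 := by
  have hk0 : (0 : ℝ) < k := by exact_mod_cast hk
  unfold wt cost
  have h1 := Nat.lt_floor_add_one (((1200 * k : ℕ) : ℝ) * (Real.log p / Real.log N))
  push_cast at h1 ⊢
  constructor
  · have h2 : (1200 * (k : ℝ) * (Real.log p / Real.log N) - 1) / (1199 * k)
        ≤ ((⌊1200 * (k : ℝ) * (Real.log p / Real.log N)⌋₊ : ℝ) + 1 - 1) / (1199 * k) := by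
      apply div_le_div_of_nonneg_right _ (by positivity)
      linarith
    have h3 : (1200 * (k : ℝ) * (Real.log p / Real.log N) - 1) / (1199 * k)
        = Real.log p / Real.log N / yExp - 1 / (1199 * k) := by
      unfold yExp
      field_simp
    linarith
  · have h4 : 0 ≤ ((⌊1200 * (k : ℝ) * (Real.log p / Real.log N)⌋₊ : ℝ) + 1 - 1) / (1199 * k) := by
      apply div_nonneg _ (by positivity)
      simp
    linarith

theorem mw_filter (N : ℕ) (hN : 2 ≤ N) (δ : ℝ) (hδ : δ ≤ zExp) :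
    (PQ (pw N δ) N).filter (fun p => pw N zExp ≤ p ∧ p < pw N yExp)
      = (range N).filter (fun p : ℕ => p.Prime ∧ zExp ≤ Real.log p / Real.log N ∧
          Real.log p / Real.log N < yExp) := by
  ext p
  unfold PQ
  simp only [Finset.mem_filter, Finset.mem_Ico, Finset.mem_range]
  constructor
  · rintro ⟨⟨⟨_, h2⟩, h3⟩, h4, h5⟩
    refine ⟨h2, h3, ?_, (lt_pw_iff_log N p yExp hN h3.pos).1 h5⟩
    by_contra hcon
    push Not at hcon
    have := (lt_pw_iff_log N p zExp hN h3.pos).2 hcon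
    omega
  · rintro ⟨h1, h2, h3, h4⟩
    refine ⟨⟨⟨?_, h1⟩, h2⟩, ?_, (lt_pw_iff_log N p yExp hN h2.pos).2 h4⟩
    · by_contra hcon
      push Not at hcon
      have := (lt_pw_iff_log N p δ hN h2.pos).1 hcon
      linarith
    · by_contra hcon
      push Not at hcon
      have := (lt_pw_iff_log N p zExp hN h2.pos).1 hcon
      linarith

theorem mw_lip {F f : ℝ → ℝ} (h : DDE F f) {C : ℝ} (hC0 : 0 ≤ C)
    (hC : ∀ s t : ℝ, 1 / 20 ≤ s → 1 / 20 ≤ t → |F s - F t| ≤ C * |s - t|) (v w : ℝ)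
    (hv : v ∈ Set.Icc zExp yExp) (hw : w ∈ Set.Icc zExp yExp) :
    |(1 - v / yExp) * F ((1298 / 1200 - v) / zExp) - (1 - w / yExp) * F ((1298 / 1200 - w) / zExp)|
      ≤ (40 + C * 5) * |v - w| := by
  have hz : zExp = 9 / 40 := rfl
  have hy : yExp = 1199 / 1200 := rfl
  rw [hz, hy] at hv hw ⊢
  obtain ⟨hv1, hv2⟩ := hv
  obtain ⟨hw1, hw2⟩ := hw
  have e1 : 1 / 20 ≤ (1298 / 1200 - v) / (9 / 40) := by
    rw [le_div_iff₀ (by norm_num)]; linarith
  have e2 : 1 / 20 ≤ (1298 / 1200 - w) / (9 / 40) := by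
    rw [le_div_iff₀ (by norm_num)]; linarith
  have e3 := hC _ _ e1 e2
  have e4 := mw_F_le h e1
  have e5 := mw_F_nonneg h (lt_of_lt_of_le (by norm_num) e1)
  have e6 : (1298 / 1200 - v) / (9 / 40) - (1298 / 1200 - w) / (9 / 40) = (w - v) * (40 / 9) := by
    ring
  rw [e6, abs_mul, abs_sub_comm w v, abs_of_pos (by norm_num : (0 : ℝ) < 40 / 9)] at e3
  have e7 : (1 - v / (1199 / 1200)) * F ((1298 / 1200 - v) / (9 / 40))
      - (1 - w / (1199 / 1200)) * F ((1298 / 1200 - w) / (9 / 40))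
      = (w - v) * (1200 / 1199) * F ((1298 / 1200 - v) / (9 / 40))
        + (1 - w / (1199 / 1200)) * (F ((1298 / 1200 - v) / (9 / 40))
          - F ((1298 / 1200 - w) / (9 / 40))) := by ring
  rw [e7]
  refine (abs_add_le _ _).trans ?_
  rw [abs_mul, abs_mul, abs_mul, abs_sub_comm w v, abs_of_nonneg e5,
    abs_of_pos (by norm_num : (0 : ℝ) < 1200 / 1199)]
  have e8 : |1 - w / (1199 / 1200)| ≤ 1 := by
    rw [abs_le]
    constructor
    · have : w / (1199 / 1200) ≤ 1 := by rw [div_le_one (by norm_num)]; exact hw2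
      linarith
    · have : 0 ≤ w / (1199 / 1200) := div_nonneg (by linarith) (by norm_num)
      linarith
  have e9 : |v - w| * (1200 / 1199) * F ((1298 / 1200 - v) / (9 / 40)) ≤ 40 * |v - w| := by
    have := abs_nonneg (v - w)
    calc |v - w| * (1200 / 1199) * F ((1298 / 1200 - v) / (9 / 40))
        ≤ |v - w| * (1200 / 1199) * 20 := by gcongr
      _ ≤ 40 * |v - w| := by nlinarith
  have e10 : |1 - w / (1199 / 1200)| * |F ((1298 / 1200 - v) / (9 / 40))
      - F ((1298 / 1200 - w) / (9 / 40))| ≤ 1 * (C * (|v - w| * (40 / 9))) := by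
    exact mul_le_mul e8 e3 (abs_nonneg _) zero_le_one
  have e11 : 0 ≤ C * |v - w| := mul_nonneg hC0 (abs_nonneg _)
  nlinarith

theorem main_W : ∃ c : ℝ, 0 < c ∧ ∀ δ : ℝ, 0 < δ → δ ≤ 1 / 10 → ∃ k₀ : ℕ, ∀ k : ℕ, k₀ ≤ k →
    ∃ N₀ : ℕ, ∀ N : ℕ, N₀ ≤ N →
      c * δ ≤ WW (PQ (pw N δ) N) (cost (1200 * k) N) (pw N zExp) (pw N yExp) (1298 * k) (wt k) lamb
        GG := by
  obtain ⟨F, f, h⟩ := dde_exists
  obtain ⟨c, hc, hnum⟩ := num_ineq F f h
  obtain ⟨CF, hCF0, hCF⟩ := lip_F h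
  obtain ⟨CM, hCM0, hCM⟩ := mass_le
  have hz : zExp = 9 / 40 := rfl
  have hy : yExp = 1199 / 1200 := rfl
  have hlam1 : (0 : ℝ) ≤ lamb := by unfold lamb; norm_num
  have hlam2 : lamb ≤ 2 := by unfold lamb; norm_num
  refine ⟨c, hc, fun δ hδ hδ1 => ?_⟩
  -- constants
  set Gam := Real.log (1 / δ) + CM with hGam
  have hGam0 : 0 ≤ Gam := by
    have : 0 ≤ Real.log (1 / δ) := Real.log_nonneg (by rw [le_div_iff₀ hδ]; linarith)
    linarith
  set A := 1 / f (2 / δ) with hA
  have h2d : 3 ≤ 2 / δ := by rw [le_div_iff₀ hδ]; linarith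
  have hf1 : 1 / 5 ≤ f (2 / δ) := f_pos h _ h2d
  have hf2 : f (2 / δ) ≤ 1 / 3 := by
    have h1 := h.fF (2 / δ) (by linarith)
    have h2 : F (2 / δ) ≤ F 3 :=
      h.Fanti (show (0 : ℝ) < 3 by norm_num) (show (0 : ℝ) < 2 / δ by linarith) h2d
    rw [h.F3 3 (by norm_num) le_rfl] at h2
    linarith
  have hf0 : 0 < f (2 / δ) := by linarith
  have hA3 : 3 ≤ A := by
    rw [hA, le_div_iff₀ hf0]; linarith
  have hA5 : A ≤ 5 := by
    rw [hA, div_le_iff₀ hf0]; linarith
  set ε := δ * c / (1 + 2 * Gam) with hε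
  have hεpos : 0 < ε := by positivity
  obtain ⟨K₀, hK₀⟩ := main_ind F f h δ ε hδ hδ1 hεpos
  obtain ⟨k₁, hk₁⟩ := exists_nat_gt (50 * Gam * (20 + CF) / c)
  refine ⟨max (max K₀ k₁) 1, fun k hk => ?_⟩
  have hk1 : 1 ≤ k := (le_max_right _ _).trans hk
  have hkK : K₀ ≤ 1200 * k := by
    have : K₀ ≤ k := (le_max_left _ _).trans ((le_max_left _ _).trans hk)
    omega
  have hkk : (k₁ : ℝ) ≤ k := by
    exact_mod_cast (le_max_right K₀ k₁).trans ((le_max_left _ _).trans hk)
  have hk0 : (0 : ℝ) < k := by exact_mod_cast hk1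
  have hksmall : 50 * Gam * ((20 + CF) / k) ≤ c := by
    rw [div_lt_iff₀ hc] at hk₁
    rw [← mul_div_assoc, div_le_iff₀ hk0]
    nlinarith
  obtain ⟨N₁, hN₁⟩ := hK₀ (1200 * k) hkK
  obtain ⟨N₂, hN₂⟩ := mert_lip zExp 20 (40 + CF * 5) (c / 50) (by rw [hz]; norm_num)
    (by norm_num) (by positivity) (by positivity)
  obtain ⟨N₃, hN₃⟩ := hCM δ hδ (by linarith)
  refine ⟨max (max N₁ N₂) (max N₃ 2), fun N hN => ?_⟩
  have hNN1 : N₁ ≤ N := (le_max_left _ _).trans ((le_max_left _ _).trans hN)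
  have hNN2 : N₂ ≤ N := (le_max_right _ _).trans ((le_max_left _ _).trans hN)
  have hNN3 : N₃ ≤ N := (le_max_left _ _).trans ((le_max_right _ _).trans hN)
  have hNN4 : 2 ≤ N := (le_max_right _ _).trans ((le_max_right _ _).trans hN)
  set P := PQ (pw N δ) N with hP
  have hPmem : ∀ p, p ∈ P ↔ (pw N δ ≤ p ∧ p < N) ∧ p.Prime := by
    intro p
    rw [hP]
    unfold PQ
    rw [Finset.mem_filter, Finset.mem_Ico]
  have hmass : ∑ p ∈ P, g1 p ≤ Gam := hN₃ N hNN3
  set z := pw N zExp with hzdef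
  set y := pw N yExp with hydef
  have hziff : ∀ p ∈ P, (p < z ↔ Real.log p / Real.log N < zExp) := fun p hp =>
    lt_pw_iff_log N p zExp hNN4 ((hPmem p).1 hp).2.pos
  -- integral quantity
  set Int := ∫ v in zExp..yExp, (1 - v / yExp) * F ((1298 / 1200 - v) / zExp) / v with hInt
  -- the lower bound for the first term
  have hLK : (((1298 * k : ℕ) : ℝ)) / ((1200 * k : ℕ) : ℝ) = 1298 / 1200 := by
    push_cast
    field_simp
  have hfirst := (hN₁ N hNN1 (1298 * k) (by omega) (by omega) z zExp (by rw [hz]; linarith)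
    (by rw [hz]; norm_num) hziff).2 (by rw [hLK, hz]; norm_num)
  rw [hLK] at hfirst
  -- the second term
  set S := P.filter (fun p => z ≤ p ∧ p < y) with hS
  have hSm : ∀ p ∈ S, p ∈ P ∧ z ≤ p ∧ p < y := fun p hp => by
    rw [hS, Finset.mem_filter] at hp; exact hp
  have hyc : yExp = ((1199 * k : ℕ) : ℝ) / ((1200 * k : ℕ) : ℝ) := by
    rw [hy]
    push_cast
    field_simp
  set e0 := (20 + CF) / (k : ℝ) with he0
  have he0nn : 0 ≤ e0 := by positivity
  have hterm : ∀ p ∈ S, wt k (cost (1200 * k) N p) *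
      SS P (cost (1200 * k) N) true z ((1298 * k : ℤ) - (cost (1200 * k) N p : ℤ))
        (fun T => GG (insert p T))
      ≤ g1 p * (A * (δ / zExp) * ((1 - Real.log p / Real.log N / yExp)
          * F ((1298 / 1200 - Real.log p / Real.log N) / zExp) + e0) + ε) := by
    intro p hp
    obtain ⟨hpP, hpz, hpy⟩ := hSm p hp
    have hpp := ((hPmem p).1 hpP).2
    rw [mw_insert P _ true z _ p hpz]
    have hcost : cost (1200 * k) N p ≤ 1199 * k := by
      refine (lt_pw_iff_cost (1200 * k) N p (1199 * k) (by omega) hNN4 hpp.pos).1 ?_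
      rw [← hyc]; exact hpy
    obtain ⟨L', hL'⟩ : ∃ L' : ℕ, L' + cost (1200 * k) N p = 1298 * k :=
      ⟨1298 * k - cost (1200 * k) N p, by omega⟩
    have hLint : ((1298 * k : ℤ) - (cost (1200 * k) N p : ℤ)) = (L' : ℤ) := by
      have : ((L' + cost (1200 * k) N p : ℕ) : ℤ) = ((1298 * k : ℕ) : ℤ) := by rw [hL']
      push_cast at this
      linarith
    rw [hLint]
    have hmain := (hN₁ N hNN1 L' (by omega) (by omega) z zExp (by rw [hz]; linarith)
      (by rw [hz]; norm_num) hziff).1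
    have hclose := cost_close (1200 * k) N p (by omega) hNN4 hpp.pos
    set l := Real.log p / Real.log N with hl
    set w := wt k (cost (1200 * k) N p) with hw
    have hKpos : (0 : ℝ) < ((1200 * k : ℕ) : ℝ) := by push_cast; positivity
    have hcK : (cost (1200 * k) N p : ℝ) / ((1200 * k : ℕ) : ℝ) ≤ 1199 / 1200 := by
      rw [← hy, hyc]
      apply div_le_div_of_nonneg_right _ hKpos.le
      exact_mod_cast hcost
    have hLr : (L' : ℝ) / ((1200 * k : ℕ) : ℝ)
        = 1298 / 1200 - (cost (1200 * k) N p : ℝ) / ((1200 * k : ℕ) : ℝ) := by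
      have e1 : (L' : ℝ) = ((1298 * k : ℕ) : ℝ) - (cost (1200 * k) N p : ℝ) := by
        rw [← hL']; push_cast; ring
      rw [e1, sub_div, hLK]
    set cK := (cost (1200 * k) N p : ℝ) / ((1200 * k : ℕ) : ℝ) with hcKdef
    have a1 : 1 / 20 ≤ (L' : ℝ) / ((1200 * k : ℕ) : ℝ) / zExp := by
      rw [hLr, hz, le_div_iff₀ (by norm_num)]
      linarith only [hcK]
    have a2 : 1 / 20 ≤ (1298 / 1200 - l) / zExp := by
      rw [hz, le_div_iff₀ (by norm_num)]
      linarith only [hclose.1, hcK]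
    have a3 := hCF _ _ a1 a2
    have a4 : |(L' : ℝ) / ((1200 * k : ℕ) : ℝ) / zExp - (1298 / 1200 - l) / zExp|
        ≤ 1 / k := by
      rw [hLr, hz]
      have e1 : (1298 / 1200 - cK) / (9 / 40) - (1298 / 1200 - l) / (9 / 40)
          = -((cK - l) * (40 / 9)) := by ring
      rw [e1, abs_neg, abs_mul, abs_of_nonneg (by linarith only [hclose.1]),
        abs_of_pos (by norm_num : (0 : ℝ) < 40 / 9)]
      have e2 : cK - l ≤ 1 / ((1200 * k : ℕ) : ℝ) := by linarith only [hclose.2]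
      have e3 : 1 / ((1200 * k : ℕ) : ℝ) = (1 / k) * (1 / 1200) := by push_cast; ring
      rw [e3] at e2
      have e4 : (0 : ℝ) ≤ 1 / k := by positivity
      linarith only [e2, e4]
    have a5 : F ((L' : ℝ) / ((1200 * k : ℕ) : ℝ) / zExp) ≤ F ((1298 / 1200 - l) / zExp) + CF / k := by
      have e1 := (abs_le.1 a3).2
      have e2 : CF * |(L' : ℝ) / ((1200 * k : ℕ) : ℝ) / zExp - (1298 / 1200 - l) / zExp|
          ≤ CF * (1 / k) := mul_le_mul_of_nonneg_left a4 hCF0
      have e3 : CF * (1 / k) = CF / k := by ring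
      linarith only [e1, e2, e3]
    have a6 : 0 ≤ F ((1298 / 1200 - l) / zExp) := mw_F_nonneg h (lt_of_lt_of_le (by norm_num) a2)
    have a7 : F ((1298 / 1200 - l) / zExp) ≤ 20 := mw_F_le h a2
    obtain ⟨a8, a9⟩ := mw_weight N k p hk1
    rw [← hl] at a8
    have a10 : 0 ≤ w := by
      rw [hw]
      unfold wt
      have e1 : ((cost (1200 * k) N p : ℕ) : ℝ) ≤ 1199 * k := by exact_mod_cast hcost
      have e2 : ((cost (1200 * k) N p : ℝ) - 1) / (1199 * k) ≤ 1 := by
        rw [div_le_one (by positivity)]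
        linarith only [e1]
      linarith only [e2]
    have a11 : w * F ((L' : ℝ) / ((1200 * k : ℕ) : ℝ) / zExp)
        ≤ (1 - l / yExp) * F ((1298 / 1200 - l) / zExp) + e0 := by
      have e1 : w * F ((L' : ℝ) / ((1200 * k : ℕ) : ℝ) / zExp)
          ≤ w * (F ((1298 / 1200 - l) / zExp) + CF / k) := mul_le_mul_of_nonneg_left a5 a10
      have e2 : w * F ((1298 / 1200 - l) / zExp)
          ≤ ((1 - l / yExp) + 1 / (1199 * k)) * F ((1298 / 1200 - l) / zExp) :=
        mul_le_mul_of_nonneg_right a8 a6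
      have e3 : w * (CF / k) ≤ 1 * (CF / k) := mul_le_mul_of_nonneg_right a9 (by positivity)
      have e4 : 1 / (1199 * (k : ℝ)) ≤ 1 / k := by
        apply one_div_le_one_div_of_le hk0
        linarith
      have e5 : 1 / (1199 * (k : ℝ)) * F ((1298 / 1200 - l) / zExp) ≤ 1 / k * 20 :=
        mul_le_mul e4 a7 a6 (by positivity)
      have e6 : e0 = 1 / k * 20 + CF / k := by rw [he0]; ring
      rw [e6]
      linarith only [e1, e2, e3, e5]
    have hAd : 0 ≤ A * (δ / zExp) := by rw [hz]; positivity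
    have a12 : w * SS P (cost (1200 * k) N) true z (L' : ℤ) GG
        ≤ A * (δ / zExp) * ((1 - l / yExp) * F ((1298 / 1200 - l) / zExp) + e0) + ε := by
      have e1 : w * SS P (cost (1200 * k) N) true z (L' : ℤ) GG
          ≤ w * (A * (δ / zExp) * F ((L' : ℝ) / ((1200 * k : ℕ) : ℝ) / zExp) + ε) :=
        mul_le_mul_of_nonneg_left hmain a10
      have e2 : w * ε ≤ 1 * ε := mul_le_mul_of_nonneg_right a9 hεpos.le
      have e3 := mul_le_mul_of_nonneg_left a11 hAd
      linarith only [e1, e2, e3]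
    have a13 : 0 ≤ g1 p := mt_g1_nonneg p
    calc w * (g1 p * SS P (cost (1200 * k) N) true z (L' : ℤ) GG)
        = g1 p * (w * SS P (cost (1200 * k) N) true z (L' : ℤ) GG) := by ring
      _ ≤ _ := mul_le_mul_of_nonneg_left a12 a13
  have hsum := Finset.sum_le_sum hterm
  have hSmass : ∑ p ∈ S, g1 p ≤ Gam := by
    refine (Finset.sum_le_sum_of_subset_of_nonneg (Finset.filter_subset _ _)
      fun p _ _ => mt_g1_nonneg p).trans hmass
  have hSmass0 : 0 ≤ ∑ p ∈ S, g1 p := Finset.sum_nonneg fun p _ => mt_g1_nonneg p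
  have hlip := hN₂ N hNN2 zExp yExp le_rfl (by rw [hz, hy]; norm_num) (by rw [hy]; norm_num)
    (fun v => (1 - v / yExp) * F ((1298 / 1200 - v) / zExp))
    (by
      intro v hv
      rw [hz, hy] at hv
      rw [hz, hy]
      have e1 : 1 / 20 ≤ (1298 / 1200 - v) / (9 / 40) := by
        rw [le_div_iff₀ (by norm_num)]; linarith [hv.2]
      have e2 := mw_F_le h e1
      have e3 := mw_F_nonneg h (lt_of_lt_of_le (by norm_num) e1)
      have e4 : |1 - v / (1199 / 1200)| ≤ 1 := by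
        rw [abs_le]
        constructor
        · have : v / (1199 / 1200) ≤ 1 := by rw [div_le_one (by norm_num)]; exact hv.2
          linarith
        · have : 0 ≤ v / (1199 / 1200) := div_nonneg (by linarith [hv.1]) (by norm_num)
          linarith
      rw [abs_mul, abs_of_nonneg e3]
      calc |1 - v / (1199 / 1200)| * F ((1298 / 1200 - v) / (9 / 40)) ≤ 1 * 20 :=
            mul_le_mul e4 e2 e3 zero_le_one
        _ = 20 := one_mul _)
    (fun v hv w hw => mw_lip h hCF0 hCF v w hv hw)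
  rw [← mw_filter N hNN4 δ (by rw [hz]; linarith)] at hlip
  have hlip2 := (abs_le.1 hlip).2
  set Q := ∑ p ∈ S, g1 p * ((1 - Real.log p / Real.log N / yExp)
          * F ((1298 / 1200 - Real.log p / Real.log N) / zExp)) with hQ
  have hQle : Q ≤ Int + c / 50 := by
    have : Q - Int ≤ c / 50 := hlip2
    linarith
  have hsum2 : ∑ p ∈ S, g1 p * (A * (δ / zExp) * ((1 - Real.log p / Real.log N / yExp)
          * F ((1298 / 1200 - Real.log p / Real.log N) / zExp) + e0) + ε)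
      = A * (δ / zExp) * Q + (A * (δ / zExp) * e0 + ε) * ∑ p ∈ S, g1 p := by
    rw [hQ, Finset.mul_sum, Finset.mul_sum, ← Finset.sum_add_distrib]
    refine Finset.sum_congr rfl fun p _ => ?_
    ring
  rw [hsum2] at hsum
  have hAd : 0 ≤ A * (δ / zExp) := by rw [hz]; positivity
  have hnum' : c ≤ f (1298 / 1200 / zExp) - lamb * Int := hnum
  unfold WW
  have hWW : A * (δ / zExp) * f (1298 / 1200 / zExp) - ε
      - lamb * (A * (δ / zExp) * (Int + c / 50) + (A * (δ / zExp) * e0 + ε) * Gam)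
      ≤ SS P (cost (1200 * k) N) false z (1298 * k) GG
        - lamb * ∑ p ∈ P.filter (fun p => z ≤ p ∧ p < y), wt k (cost (1200 * k) N p) *
          SS P (cost (1200 * k) N) true z (1298 * k - cost (1200 * k) N p)
            (fun T => GG (insert p T)) := by
    have e1 : A * (δ / zExp) * Q + (A * (δ / zExp) * e0 + ε) * ∑ p ∈ S, g1 p
        ≤ A * (δ / zExp) * (Int + c / 50) + (A * (δ / zExp) * e0 + ε) * Gam := by
      have e2 : A * (δ / zExp) * Q ≤ A * (δ / zExp) * (Int + c / 50) :=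
        mul_le_mul_of_nonneg_left hQle hAd
      have e3 : (A * (δ / zExp) * e0 + ε) * ∑ p ∈ S, g1 p
          ≤ (A * (δ / zExp) * e0 + ε) * Gam :=
        mul_le_mul_of_nonneg_left hSmass (by positivity)
      linarith
    have e4 := mul_le_mul_of_nonneg_left (hsum.trans e1) hlam1
    have e5 : ((1298 * k : ℕ) : ℤ) = 1298 * (k : ℤ) := by push_cast; ring
    rw [e5] at hfirst
    linarith
  refine le_trans ?_ hWW
  -- final numerics
  have e1 : A * (δ / zExp) * c ≤ A * (δ / zExp) * (f (1298 / 1200 / zExp) - lamb * Int) :=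
    mul_le_mul_of_nonneg_left hnum' hAd
  have e2 : (40 / 3) * (δ * c) ≤ A * (δ / zExp) * c := by
    rw [hz]
    have : 0 ≤ δ * c := by positivity
    have e3 : A * (δ / (9 / 40)) * c = A * (40 / 9) * (δ * c) := by ring
    rw [e3]
    nlinarith
  have e3 : ε * (1 + 2 * Gam) = δ * c := by
    rw [hε]
    field_simp
  have e4 : A * (δ / zExp) ≤ 25 * δ := by
    rw [hz]
    have e5 : A * (δ / (9 / 40)) = A * (40 / 9) * δ := by ring
    rw [e5]
    nlinarith
  have e5 : lamb * (A * (δ / zExp) * (c / 50)) ≤ δ * c := by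
    have e6 : A * (δ / zExp) * (c / 50) ≤ 25 * δ * (c / 50) :=
      mul_le_mul_of_nonneg_right e4 (by positivity)
    have e7 : 0 ≤ A * (δ / zExp) * (c / 50) := by positivity
    nlinarith
  have e6 : lamb * (A * (δ / zExp) * e0 * Gam) ≤ δ * c := by
    have e7 : A * (δ / zExp) * e0 * Gam ≤ 25 * δ * e0 * Gam := by gcongr
    have e8 : 50 * Gam * e0 ≤ c := hksmall
    have e9 : 0 ≤ A * (δ / zExp) * e0 * Gam := by positivity
    have e10 : 2 * (25 * δ * e0 * Gam) = δ * (50 * Gam * e0) := by ring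
    have e11 : δ * (50 * Gam * e0) ≤ δ * c := mul_le_mul_of_nonneg_left e8 hδ.le
    nlinarith
  have e7 : lamb * (ε * Gam) ≤ ε * (2 * Gam) := by
    have : 0 ≤ ε * Gam := by positivity
    nlinarith
  have e8 : 0 ≤ δ * c := by positivity
  nlinarith

end Pool.Agent.Work.MP_2dba45_nt.Sv
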