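import Mathlib
import Pool.Agent.Work.MP_2dba45_nt.Sv.Defs
import Pool.Agent.Work.MP_2dba45_nt.Crt

set_option autoImplicit false

/-!
Module PRE. Splitting into residue classes modulo ∏ d: for n with p | (n^2+1)(n^2+3) for all p in d,
n mod ∏ d lies in Rset d, and (∀ p ∈ T, p | n^2+1) iff ∏ T | n^2+1 (distinct primes). The main terms:
#(Rset d) = ∏ om p (Crt.card_crt with bad p t = p | (t^2+1)(t^2+3)), #(Rt (∏ T)) = ∏ nu 1 p (same with
p | t^2+1; Rt D = filter in range D).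
-/

namespace Pool.Agent.Work.MP_2dba45_nt.Sv

open Finset Pool.Agent.Work.MP_2dba45_nt.BilDef

/-- admissible residues modulo the product of `d` -/
def Rset (d : Finset ℕ) : Finset ℕ :=
  (range (∏ p ∈ d, p)).filter (fun c => ∀ p ∈ d, p ∣ (c ^ 2 + 1) * (c ^ 2 + 3))

theorem pre_per (p t : ℕ) : p ∣ (t ^ 2 + 1) * (t ^ 2 + 3) ↔
    p ∣ ((t % p) ^ 2 + 1) * ((t % p) ^ 2 + 3) := by
  have h : (t ^ 2 + 1) * (t ^ 2 + 3) ≡ ((t % p) ^ 2 + 1) * ((t % p) ^ 2 + 3) [MOD p] := by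
    have h1 : t ≡ t % p [MOD p] := (Nat.mod_modEq t p).symm
    exact Nat.ModEq.mul ((h1.pow 2).add_right 1) ((h1.pow 2).add_right 3)
  exact h.dvd_iff dvd_rfl

theorem pre_per1 (p t : ℕ) : p ∣ t ^ 2 + 1 ↔ p ∣ (t % p) ^ 2 + 1 := by
  have h : t ^ 2 + 1 ≡ (t % p) ^ 2 + 1 [MOD p] := by
    have h1 : t ≡ t % p [MOD p] := (Nat.mod_modEq t p).symm
    exact (h1.pow 2).add_right 1
  exact h.dvd_iff dvd_rfl

theorem card_Rset (d : Finset ℕ) (hd : ∀ p ∈ d, p.Prime) : #(Rset d) = ∏ p ∈ d, VV.om p := by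
  classical
  have h := Crt.card_crt (fun p t => p ∣ (t ^ 2 + 1) * (t ^ 2 + 3)) d hd (fun p _ t => pre_per p t)
  have e : ∀ p ∈ d, Crt.rho (fun p t => p ∣ (t ^ 2 + 1) * (t ^ 2 + 3)) p = VV.om p := by
    intro p _
    unfold Crt.rho VV.om
    congr 1
    ext t
    simp
  rw [Finset.prod_congr rfl e] at h
  rw [← h]
  unfold Rset
  congr 1
  ext t
  simp

theorem pre_dvd {T : Finset ℕ} (hT : ∀ p ∈ T, p.Prime) (x : ℕ) :
    ∏ p ∈ T, p ∣ x ↔ ∀ p ∈ T, p ∣ x := by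
  constructor
  · intro h p hp
    exact (Finset.dvd_prod_of_mem (fun q => q) hp).trans h
  · intro h
    exact Finset.prod_primes_dvd x (fun p hp => (hT p hp).prime) h

theorem card_Rt (T : Finset ℕ) (hT : ∀ p ∈ T, p.Prime) :
    #(Rt (∏ p ∈ T, p)) = ∏ p ∈ T, Nu.nu 1 p := by
  classical
  have h := Crt.card_crt (fun p t => p ∣ t ^ 2 + 1) T hT (fun p _ t => pre_per1 p t)
  have e : ∀ p ∈ T, Crt.rho (fun p t => p ∣ t ^ 2 + 1) p = Nu.nu 1 p := by
    intro p _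
    unfold Crt.rho Nu.nu
    congr 1
    ext t
    simp
  rw [Finset.prod_congr rfl e] at h
  rw [← h]
  unfold Rt
  congr 1
  ext t
  simp only [Finset.mem_filter, pre_dvd hT]

theorem pre_count (W : ℕ → ℝ) (N : ℕ) (d T : Finset ℕ) (hd : ∀ p ∈ d, p.Prime)
    (hT : ∀ p ∈ T, p.Prime) :
    ∑ n ∈ Ioc N (2 * N), (if ∀ p ∈ d, p ∣ (n ^ 2 + 1) * (n ^ 2 + 3) then (1 : ℝ) else 0) *
        (if ∀ p ∈ T, p ∣ n ^ 2 + 1 then (1 : ℝ) else 0) * W n =
      (∏ p ∈ d, VV.gom p) * GG T * (∑ n ∈ Ioc N (2 * N), W n) +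
        ∑ c ∈ Rset d, Rem W N (∏ p ∈ T, p) (∏ p ∈ d, p) c := by
  set r := ∏ p ∈ d, p with hr
  set D := ∏ p ∈ T, p with hD
  have hr0 : 0 < r := Nat.pos_of_ne_zero (Finset.prod_ne_zero_iff.2 fun p hp => (hd p hp).ne_zero)
  have hD0 : 0 < D := Nat.pos_of_ne_zero (Finset.prod_ne_zero_iff.2 fun p hp => (hT p hp).ne_zero)
  have h1 : ∑ c ∈ Rset d, ∑ n ∈ (Ioc N (2 * N)).filter (fun n => n ≡ c [MOD r] ∧ D ∣ n ^ 2 + 1), W n =
      ∑ n ∈ Ioc N (2 * N), (if ∀ p ∈ d, p ∣ (n ^ 2 + 1) * (n ^ 2 + 3) then (1 : ℝ) else 0) *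
        (if ∀ p ∈ T, p ∣ n ^ 2 + 1 then (1 : ℝ) else 0) * W n := by
    simp_rw [Finset.sum_filter]
    rw [Finset.sum_comm]
    refine Finset.sum_congr rfl fun n _ => ?_
    have hmem : n % r ∈ Rset d ↔ ∀ p ∈ d, p ∣ (n ^ 2 + 1) * (n ^ 2 + 3) := by
      unfold Rset
      rw [Finset.mem_filter, Finset.mem_range, and_iff_right (Nat.mod_lt n hr0)]
      refine forall₂_congr fun p hp => ?_
      rw [pre_per p (n % r), pre_per p n, Nat.mod_mod_of_dvd n (Finset.dvd_prod_of_mem (fun q => q) hp)]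
    by_cases hn : ∀ p ∈ d, p ∣ (n ^ 2 + 1) * (n ^ 2 + 3)
    · rw [if_pos hn, one_mul, Finset.sum_eq_single (n % r)]
      · have : n ≡ n % r [MOD r] := (Nat.mod_modEq n r).symm
        by_cases h2 : D ∣ n ^ 2 + 1
        · rw [if_pos ⟨this, h2⟩, if_pos ((pre_dvd hT _).1 h2), one_mul]
        · rw [if_neg (fun h => h2 h.2), if_neg (fun h => h2 ((pre_dvd hT _).2 h)), zero_mul]
      · intro c hc hcn
        rw [if_neg]
        rintro ⟨h2, _⟩
        apply hcn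
        have h3 : c < r := by
          unfold Rset at hc
          exact Finset.mem_range.1 (Finset.mem_filter.1 hc).1
        have h4 : n % r = c % r := h2
        rw [Nat.mod_eq_of_lt h3] at h4
        exact h4.symm
      · intro h2
        exact absurd (hmem.2 hn) h2
    · rw [if_neg hn, zero_mul, zero_mul]
      refine Finset.sum_eq_zero fun c hc => ?_
      rw [if_neg]
      rintro ⟨h2, _⟩
      apply hn
      rw [← hmem]
      have h3 : c < r := by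
        unfold Rset at hc
        exact Finset.mem_range.1 (Finset.mem_filter.1 hc).1
      have h4 : n % r = c % r := h2
      rw [Nat.mod_eq_of_lt h3] at h4
      rw [h4]
      exact hc
  have h2 : (∏ p ∈ d, VV.gom p) = (#(Rset d) : ℝ) / r := by
    rw [card_Rset d hd, hr]
    push_cast
    rw [← Finset.prod_div_distrib]
    rfl
  have h3 : GG T = (#(Rt D) : ℝ) / D := by
    rw [hD, card_Rt T hT]
    push_cast
    rw [← Finset.prod_div_distrib]
    rfl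
  unfold Rem
  rw [Finset.sum_sub_distrib, h1, Finset.sum_const, nsmul_eq_mul, h2, h3]
  have hrR : (r : ℝ) ≠ 0 := by positivity
  have hDR : (D : ℝ) ≠ 0 := by positivity
  have h4 : (#(Rset d) : ℝ) / r * ((#(Rt D) : ℝ) / D) * (∑ n ∈ Ioc N (2 * N), W n) =
      #(Rset d) * ((#(Rt D) : ℝ) / (D * r) * ∑ n ∈ Ioc N (2 * N), W n) := by
    field_simp
  rw [h4, add_sub_cancel]

end Pool.Agent.Work.MP_2dba45_nt.Sv
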