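import Mathlib
import Pool.Agent.Work.MP_2dba45_nt.Sv.Defs

set_option autoImplicit false

/-!
Module SPLIT. Greedy factorization: for every initial part x :: t1 and next element y of t one has
x + t1.sum + 2 y ≤ m + q (odd positions of t: 3 y ≤ budget left; even positions: y ≤ previous
element y', and 3 y' ≤ budget left before y'). Put x into the first part and then each y into a part
where it fits: if y fits into neither, (sum of part 1) + y > m and (sum of part 2) + y > q add up to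
x + t1.sum + 2 y > m + q, a contradiction. split_false follows from split_true.
-/

namespace Pool.Agent.Work.MP_2dba45_nt.Sv

open Finset Pool.Agent.Work.MP_2dba45_nt.BilDef

theorem Split_greedy (m q : ℕ) (t : List ℕ) : ∀ (par : Bool) (s₁ s₂ : ℕ),
    t.Pairwise (· ≥ ·) → s₁ ≤ m → s₂ ≤ q → adm par (((m + q : ℕ) : ℤ) - s₁ - s₂) t →
    (par = false → ∀ y ∈ t, 2 * (y : ℤ) ≤ ((m + q : ℕ) : ℤ) - s₁ - s₂) →
    ∃ μ₁ μ₂ : Multiset ℕ, (t : Multiset ℕ) = μ₁ + μ₂ ∧ s₁ + μ₁.sum ≤ m ∧ s₂ + μ₂.sum ≤ q := by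
  induction t with
  | nil =>
    intro par s₁ s₂ _ h1 h2 _ _
    exact ⟨0, 0, by simp, by simpa using h1, by simpa using h2⟩
  | cons y t ih =>
    intro par s₁ s₂ hp h1 h2 had hinv
    rw [List.pairwise_cons] at hp
    obtain ⟨hy, hp'⟩ := hp
    simp only [adm] at had
    obtain ⟨had1, had2⟩ := had
    have h2y : 2 * (y : ℤ) ≤ ((m + q : ℕ) : ℤ) - s₁ - s₂ := by
      cases par with
      | true => have := had1 rfl; omega
      | false => exact hinv rfl y (by simp)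
    have hinv' : (!par) = false → ∀ y' ∈ t, 2 * (y' : ℤ) ≤ ((m + q : ℕ) : ℤ) - s₁ - s₂ - y := by
      intro hpar y' hy'
      have h3 : par = true := by simpa using hpar
      have h4 := had1 h3
      have h5 : y' ≤ y := hy y' hy'
      omega
    by_cases hfit : s₁ + y ≤ m
    · have e : ((m + q : ℕ) : ℤ) - (s₁ + y : ℕ) - s₂ = ((m + q : ℕ) : ℤ) - s₁ - s₂ - y := by
        push_cast; ring
      obtain ⟨μ₁, μ₂, h3, h4, h5⟩ := ih (!par) (s₁ + y) s₂ hp' hfit h2 (by rw [e]; exact had2)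
        (by rw [e]; exact hinv')
      refine ⟨y ::ₘ μ₁, μ₂, ?_, ?_, h5⟩
      · rw [← Multiset.cons_coe, h3, Multiset.cons_add]
      · rw [Multiset.sum_cons]; omega
    · have hfit2 : s₂ + y ≤ q := by omega
      have e : ((m + q : ℕ) : ℤ) - s₁ - (s₂ + y : ℕ) = ((m + q : ℕ) : ℤ) - s₁ - s₂ - y := by
        push_cast; ring
      obtain ⟨μ₁, μ₂, h3, h4, h5⟩ := ih (!par) s₁ (s₂ + y) hp' h1 hfit2 (by rw [e]; exact had2)
        (by rw [e]; exact hinv')
      refine ⟨μ₁, y ::ₘ μ₂, ?_, h4, ?_⟩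
      · rw [← Multiset.cons_coe, h3, Multiset.add_cons]
      · rw [Multiset.sum_cons]; omega

theorem split_true (m q x : ℕ) (t : List ℕ) (ht : t.Pairwise (· ≥ ·))
    (hadm : adm true (((m + q : ℕ) : ℤ) - x) t) (hx : x ≤ m) :
    ∃ μ₁ μ₂ : Multiset ℕ, ((x :: t : List ℕ) : Multiset ℕ) = μ₁ + μ₂ ∧ μ₁.sum ≤ m ∧ μ₂.sum ≤ q := by
  obtain ⟨μ₁, μ₂, h3, h4, h5⟩ := Split_greedy m q t true x 0 ht hx (Nat.zero_le _)
    (by simpa using hadm) (by simp)
  refine ⟨x ::ₘ μ₁, μ₂, ?_, ?_, ?_⟩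
  · rw [← Multiset.cons_coe, h3, Multiset.cons_add]
  · rw [Multiset.sum_cons]; exact h4
  · omega

theorem split_false (m q : ℕ) (t : List ℕ) (ht : t.Pairwise (· ≥ ·))
    (hadm : adm false ((m + q : ℕ) : ℤ) t) (hm : ∀ x ∈ t, x ≤ m) :
    ∃ μ₁ μ₂ : Multiset ℕ, ((t : List ℕ) : Multiset ℕ) = μ₁ + μ₂ ∧ μ₁.sum ≤ m ∧ μ₂.sum ≤ q := by
  cases t with
  | nil => exact ⟨0, 0, by simp, by simp, by simp⟩
  | cons x t =>
    simp only [adm] at hadm
    exact split_true m q x t (List.pairwise_cons.1 ht).2 hadm.2 (hm x (by simp))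

end Pool.Agent.Work.MP_2dba45_nt.Sv
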