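import Mathlib
import Pool.Agent.Work.MP_2dba45_nt.Sv.Defs

set_option autoImplicit false

/-!
Module TYPEB. All T ⊆ P with the multiset of costs μ₁ + μ₂. For a finite set T with
T.val.map a = μ₁ + μ₂ the number κ of T₁ ⊆ T with T₁.val.map a = μ₁ is positive and depends only on
the multiset μ₁ + μ₂ (it is Multiset.count μ₁ ((μ₁ + μ₂).powerset), or use a cost preserving
bijection). Hence κ * (sum over T) = sum over pairs of disjoint T₁, T₂ ⊆ P with cost multisets μ₁, μ₂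
of Rem (∏T₁ * ∏T₂). Put m = ∏ T₁ ≤ M (injective, coprime to r), b q = 1 if q = ∏ T₂ for some T₂ ⊆ P of
cost multiset μ₂, else 0 (such q are squarefree, ≤ Q, coprime to 2 r, and coprime to m iff T₁, T₂ are
disjoint). So κ |sum| ≤ sum over m of |sum over q of b q Rem| ≤ E, and κ ≥ 1.
-/

namespace Pool.Agent.Work.MP_2dba45_nt.Sv

open Finset Pool.Agent.Work.MP_2dba45_nt.BilDef

theorem typeb_kappa (a : ℕ → ℕ) (T : Finset ℕ) (μ : Multiset ℕ) :
    #(T.powerset.filter (fun T' => T'.val.map a = μ)) = (T.val.map a).powerset.count μ := by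
  classical
  have h : ∀ m : Multiset ℕ, (m.map a).powerset = m.powerset.map (fun s => s.map a) := by
    intro m
    induction m using Multiset.induction_on with
    | empty => simp
    | cons x m ih =>
      rw [Multiset.map_cons, Multiset.powerset_cons, Multiset.powerset_cons, Multiset.map_add, ih,
        Multiset.map_map, Multiset.map_map]
      congr 1
      refine Multiset.map_congr rfl fun s _ => ?_
      simp
  rw [h, Multiset.count_map, ← Finset.card_val, ← Multiset.countP_eq_card_filter]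
  have h2 : T.val.powerset = T.powerset.val.map Finset.val := by
    rw [Finset.powerset]
    simp only
    rw [Multiset.map_pmap]
    exact ((Multiset.pmap_eq_map _ id _ _).trans (Multiset.map_id _)).symm
  rw [h2, Multiset.countP_map]
  simp [Finset.filter_val, eq_comm]

/-- Pairs of disjoint sets with given cost multisets correspond to sets with a marked subset. -/
theorem typeb_pairs {P : Finset ℕ} {a : ℕ → ℕ} {μ₁ μ₂ : Multiset ℕ} (R : Finset ℕ → ℝ) :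
    ((μ₁ + μ₂).powerset.count μ₁ : ℝ) *
      ∑ T ∈ P.powerset.filter (fun T => T.val.map a = μ₁ + μ₂), R T =
    ∑ T₁ ∈ P.powerset.filter (fun T => T.val.map a = μ₁),
      ∑ T₂ ∈ (P.powerset.filter (fun T => T.val.map a = μ₂)).filter (fun T₂ => Disjoint T₁ T₂),
        R (T₁ ∪ T₂) := by
  classical
  have h1 : ∀ T ∈ P.powerset.filter (fun T => T.val.map a = μ₁ + μ₂),
      ((μ₁ + μ₂).powerset.count μ₁ : ℝ) * R T =
        ∑ _T₁ ∈ T.powerset.filter (fun T' => T'.val.map a = μ₁), R T := by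
    intro T hT
    rw [Finset.mem_filter] at hT
    rw [Finset.sum_const, typeb_kappa, hT.2, nsmul_eq_mul]
  rw [Finset.mul_sum, Finset.sum_congr rfl h1, Finset.sum_sigma', Finset.sum_sigma']
  refine Finset.sum_bij' (fun x _ => ⟨x.2, x.1 \ x.2⟩) (fun x _ => ⟨x.1 ∪ x.2, x.1⟩) ?_ ?_ ?_ ?_ ?_
  · rintro ⟨T, T₁⟩ hx
    simp only [Finset.mem_sigma, Finset.mem_filter, Finset.mem_powerset] at hx ⊢
    obtain ⟨⟨hT, hTa⟩, hT₁, hT₁a⟩ := hx
    refine ⟨⟨hT₁.trans hT, hT₁a⟩, ⟨Finset.sdiff_subset.trans hT, ?_⟩, Finset.disjoint_sdiff⟩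
    have h2 : T₁.disjUnion (T \ T₁) Finset.disjoint_sdiff = T := by
      rw [Finset.disjUnion_eq_union, Finset.union_sdiff_of_subset hT₁]
    rw [← h2] at hTa
    rw [Finset.disjUnion_val, Multiset.map_add, hT₁a] at hTa
    exact add_left_cancel hTa
  · rintro ⟨T₁, T₂⟩ hx
    simp only [Finset.mem_sigma, Finset.mem_filter, Finset.mem_powerset] at hx ⊢
    obtain ⟨⟨hT₁, hT₁a⟩, ⟨hT₂, hT₂a⟩, hd⟩ := hx
    refine ⟨⟨Finset.union_subset hT₁ hT₂, ?_⟩, Finset.subset_union_left, hT₁a⟩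
    rw [← Finset.disjUnion_eq_union _ _ hd, Finset.disjUnion_val, Multiset.map_add, hT₁a, hT₂a]
  · rintro ⟨T, T₁⟩ hx
    simp only [Finset.mem_sigma, Finset.mem_filter, Finset.mem_powerset] at hx
    simp only [Finset.union_sdiff_of_subset hx.2.1]
  · rintro ⟨T₁, T₂⟩ hx
    simp only [Finset.mem_sigma, Finset.mem_filter, Finset.mem_powerset] at hx
    have : (T₁ ∪ T₂) \ T₁ = T₂ := by
      rw [Finset.union_sdiff_left]
      exact Finset.sdiff_eq_self_of_disjoint hx.2.2.symm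
    simp only [this]
  · rintro ⟨T, T₁⟩ hx
    simp only [Finset.mem_sigma, Finset.mem_filter, Finset.mem_powerset] at hx
    simp only [Finset.union_sdiff_of_subset hx.2.1]

theorem typeb_mem {T : Finset ℕ} (hT : ∀ p ∈ T, p.Prime) {p : ℕ} (hp : p.Prime) :
    p ∣ ∏ q ∈ T, q ↔ p ∈ T := by
  constructor
  · intro h
    obtain ⟨q, hq, hpq⟩ := (Prime.dvd_finsetProd_iff hp.prime _).1 h
    rwa [(Nat.prime_dvd_prime_iff_eq hp (hT q hq)).1 hpq]
  · intro h
    exact Finset.dvd_prod_of_mem (fun q => q) h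

theorem typeb_inj {S T : Finset ℕ} (hS : ∀ p ∈ S, p.Prime) (hT : ∀ p ∈ T, p.Prime)
    (h : ∏ p ∈ S, p = ∏ p ∈ T, p) : S = T := by
  ext p
  constructor
  · intro hp
    exact (typeb_mem hT (hS p hp)).1 (h ▸ (typeb_mem hS (hS p hp)).2 hp)
  · intro hp
    exact (typeb_mem hS (hT p hp)).1 (h ▸ (typeb_mem hT (hT p hp)).2 hp)

theorem typeb_sqf {T : Finset ℕ} (hT : ∀ p ∈ T, p.Prime) : Squarefree (∏ p ∈ T, p) := by
  classical
  induction T using Finset.induction_on with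
  | empty => simp
  | insert p T hp ih =>
    have hT' : ∀ q ∈ T, q.Prime := fun q hq => hT q (Finset.mem_insert_of_mem hq)
    have hp' := hT p (Finset.mem_insert_self p T)
    rw [Finset.prod_insert hp, Nat.squarefree_mul_iff]
    refine ⟨?_, hp'.squarefree, ih hT'⟩
    rw [hp'.coprime_iff_not_dvd, typeb_mem hT' hp']
    exact hp

theorem typeb_cop {T : Finset ℕ} {k : ℕ} : (∏ p ∈ T, p).Coprime k ↔ ∀ p ∈ T, p.Coprime k :=
  Nat.coprime_prod_left_iff

theorem typeb_disj {S T : Finset ℕ} (hS : ∀ p ∈ S, p.Prime) (hT : ∀ p ∈ T, p.Prime) :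
    (∏ p ∈ T, p).Coprime (∏ p ∈ S, p) ↔ Disjoint S T := by
  rw [typeb_cop, Finset.disjoint_left]
  constructor
  · intro h p hp hp'
    have := h p hp'
    rw [(hT p hp').coprime_iff_not_dvd, typeb_mem hS (hT p hp')] at this
    exact this hp
  · intro h p hp
    rw [(hT p hp).coprime_iff_not_dvd, typeb_mem hS (hT p hp)]
    exact fun h' => h h' hp

theorem type_bound (W : ℕ → ℝ) (N r c : ℕ) (P : Finset ℕ) (a : ℕ → ℕ) (hP : ∀ p ∈ P, p.Prime)
    (hcop : ∀ p ∈ P, p.Coprime (2 * r)) (μ₁ μ₂ : Multiset ℕ) (M Q E : ℝ)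
    (hM : ∀ T ⊆ P, T.val.map a = μ₁ → ((∏ p ∈ T, p : ℕ) : ℝ) ≤ M)
    (hQ : ∀ T ⊆ P, T.val.map a = μ₂ → ((∏ p ∈ T, p : ℕ) : ℝ) ≤ Q)
    (hb : ∀ b : ℕ → ℝ, (∀ q, |b q| ≤ 1) →
      ∑ m ∈ (Icc 1 ⌊M⌋₊).filter (fun m => m.Coprime r),
        |∑ q ∈ (Icc 1 ⌊Q⌋₊).filter (fun q => Squarefree q ∧ q.Coprime (2 * m * r)),
          b q * Rem W N (m * q) r c| ≤ E) :
    |∑ T ∈ P.powerset.filter (fun T => T.val.map a = μ₁ + μ₂), Rem W N (∏ p ∈ T, p) r c| ≤ E := by
  classical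
  set F₁ : Finset (Finset ℕ) := P.powerset.filter (fun T => T.val.map a = μ₁) with hF₁
  set F₂ : Finset (Finset ℕ) := P.powerset.filter (fun T => T.val.map a = μ₂) with hF₂
  have hm₁ : ∀ T, T ∈ F₁ ↔ T ⊆ P ∧ T.val.map a = μ₁ := by
    intro T; rw [hF₁, Finset.mem_filter, Finset.mem_powerset]
  have hm₂ : ∀ T, T ∈ F₂ ↔ T ⊆ P ∧ T.val.map a = μ₂ := by
    intro T; rw [hF₂, Finset.mem_filter, Finset.mem_powerset]
  set b : ℕ → ℝ := fun q => if q ∈ F₂.image (fun T => ∏ p ∈ T, p) then 1 else 0 with hbdef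
  have hb1 : ∀ q, |b q| ≤ 1 := by
    intro q
    simp only [hbdef]
    split_ifs <;> simp
  have hE := hb b hb1
  have hpos : ∀ T ⊆ P, 1 ≤ ∏ p ∈ T, p := by
    intro T hT
    exact Nat.one_le_iff_ne_zero.2 (Finset.prod_ne_zero_iff.2 fun p hp => (hP p (hT hp)).ne_zero)
  -- the inner sums
  have hin : ∀ T₁ ∈ F₁, ∑ T₂ ∈ F₂.filter (fun T₂ => Disjoint T₁ T₂),
      Rem W N (∏ p ∈ T₁ ∪ T₂, p) r c =
      ∑ q ∈ (Icc 1 ⌊Q⌋₊).filter (fun q => Squarefree q ∧ q.Coprime (2 * (∏ p ∈ T₁, p) * r)),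
          b q * Rem W N ((∏ p ∈ T₁, p) * q) r c := by
    intro T₁ hT₁
    obtain ⟨hT₁P, hT₁a⟩ := (hm₁ T₁).1 hT₁
    have h1 : ∑ q ∈ (Icc 1 ⌊Q⌋₊).filter
          (fun q => Squarefree q ∧ q.Coprime (2 * (∏ p ∈ T₁, p) * r)),
          b q * Rem W N ((∏ p ∈ T₁, p) * q) r c =
        ∑ q ∈ (F₂.filter (fun T₂ => Disjoint T₁ T₂)).image (fun T => ∏ p ∈ T, p),
          b q * Rem W N ((∏ p ∈ T₁, p) * q) r c := by
      symm
      refine Finset.sum_subset ?_ ?_
      · intro q hq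
        obtain ⟨T₂, hT₂, rfl⟩ := Finset.mem_image.1 hq
        obtain ⟨hT₂, hd⟩ := Finset.mem_filter.1 hT₂
        obtain ⟨hT₂P, hT₂a⟩ := (hm₂ T₂).1 hT₂
        refine Finset.mem_filter.2 ⟨Finset.mem_Icc.2 ⟨hpos T₂ hT₂P, Nat.le_floor (hQ T₂ hT₂P hT₂a)⟩,
          typeb_sqf fun p hp => hP p (hT₂P hp), ?_⟩
        have e : 2 * (∏ p ∈ T₁, p) * r = (∏ p ∈ T₁, p) * (2 * r) := by ring
        rw [e]
        refine Nat.Coprime.mul_right ?_ ?_
        · exact (typeb_disj (fun p hp => hP p (hT₁P hp)) (fun p hp => hP p (hT₂P hp))).2 hd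
        · exact typeb_cop.2 fun p hp => hcop p (hT₂P hp)
      · intro q hq hq'
        have : b q = 0 := by
          simp only [hbdef]
          rw [if_neg]
          intro hq2
          obtain ⟨T₂, hT₂, rfl⟩ := Finset.mem_image.1 hq2
          obtain ⟨hT₂P, hT₂a⟩ := (hm₂ T₂).1 hT₂
          apply hq'
          refine Finset.mem_image_of_mem _ (Finset.mem_filter.2 ⟨hT₂, ?_⟩)
          have h2 := (Finset.mem_filter.1 hq).2.2
          have e : 2 * (∏ p ∈ T₁, p) * r = (∏ p ∈ T₁, p) * (2 * r) := by ring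
          rw [e] at h2
          exact (typeb_disj (fun p hp => hP p (hT₁P hp)) (fun p hp => hP p (hT₂P hp))).1
            (Nat.Coprime.coprime_mul_right_right h2)
        rw [this, zero_mul]
    rw [h1, Finset.sum_image]
    · refine Finset.sum_congr rfl fun T₂ hT₂ => ?_
      obtain ⟨hT₂, hd⟩ := Finset.mem_filter.1 hT₂
      have hb2 : b (∏ p ∈ T₂, p) = 1 := by
        simp only [hbdef]
        rw [if_pos (Finset.mem_image_of_mem _ hT₂)]
      rw [hb2, one_mul, Finset.prod_union hd]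
    · intro S hS T hT h
      have hS' := ((hm₂ S).1 (Finset.mem_filter.1 (Finset.mem_coe.1 hS)).1).1
      have hT' := ((hm₂ T).1 (Finset.mem_filter.1 (Finset.mem_coe.1 hT)).1).1
      exact typeb_inj (fun p hp => hP p (hS' hp)) (fun p hp => hP p (hT' hp)) h
  have hpairs := typeb_pairs (P := P) (a := a) (μ₁ := μ₁) (μ₂ := μ₂)
    (fun T => Rem W N (∏ p ∈ T, p) r c)
  rw [← hF₁, ← hF₂, Finset.sum_congr rfl hin] at hpairs
  have hκ : (1 : ℝ) ≤ ((μ₁ + μ₂).powerset.count μ₁ : ℝ) := by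
    have : 0 < (μ₁ + μ₂).powerset.count μ₁ := by
      rw [Multiset.count_pos, Multiset.mem_powerset]
      exact Multiset.le_add_right _ _
    exact_mod_cast this
  -- the outer sum
  have hout : ∑ T₁ ∈ F₁, |∑ q ∈ (Icc 1 ⌊Q⌋₊).filter
        (fun q => Squarefree q ∧ q.Coprime (2 * (∏ p ∈ T₁, p) * r)),
          b q * Rem W N ((∏ p ∈ T₁, p) * q) r c| ≤
      ∑ m ∈ (Icc 1 ⌊M⌋₊).filter (fun m => m.Coprime r),
        |∑ q ∈ (Icc 1 ⌊Q⌋₊).filter (fun q => Squarefree q ∧ q.Coprime (2 * m * r)),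
          b q * Rem W N (m * q) r c| := by
    have h1 : ∑ T₁ ∈ F₁, |∑ q ∈ (Icc 1 ⌊Q⌋₊).filter
        (fun q => Squarefree q ∧ q.Coprime (2 * (∏ p ∈ T₁, p) * r)),
          b q * Rem W N ((∏ p ∈ T₁, p) * q) r c| =
        ∑ m ∈ F₁.image (fun T => ∏ p ∈ T, p),
        |∑ q ∈ (Icc 1 ⌊Q⌋₊).filter (fun q => Squarefree q ∧ q.Coprime (2 * m * r)),
          b q * Rem W N (m * q) r c| := by
      rw [Finset.sum_image]
      intro S hS T hT h
      have hS' := ((hm₁ S).1 (Finset.mem_coe.1 hS)).1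
      have hT' := ((hm₁ T).1 (Finset.mem_coe.1 hT)).1
      exact typeb_inj (fun p hp => hP p (hS' hp)) (fun p hp => hP p (hT' hp)) h
    rw [h1]
    refine Finset.sum_le_sum_of_subset_of_nonneg ?_ (fun _ _ _ => abs_nonneg _)
    intro m hm
    obtain ⟨T₁, hT₁, rfl⟩ := Finset.mem_image.1 hm
    obtain ⟨hT₁P, hT₁a⟩ := (hm₁ T₁).1 hT₁
    refine Finset.mem_filter.2 ⟨Finset.mem_Icc.2 ⟨hpos T₁ hT₁P, Nat.le_floor (hM T₁ hT₁P hT₁a)⟩, ?_⟩
    exact typeb_cop.2 fun p hp => Nat.Coprime.coprime_mul_left_right (hcop p (hT₁P hp))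
  have hfin : ((μ₁ + μ₂).powerset.count μ₁ : ℝ) *
      |∑ T ∈ P.powerset.filter (fun T => T.val.map a = μ₁ + μ₂), Rem W N (∏ p ∈ T, p) r c| ≤ E := by
    have h1 : (0 : ℝ) ≤ ((μ₁ + μ₂).powerset.count μ₁ : ℝ) := by positivity
    rw [← abs_of_nonneg h1, ← abs_mul, hpairs]
    exact (Finset.abs_sum_le_sum_abs _ _).trans (hout.trans hE)
  have habs := abs_nonneg
    (∑ T ∈ P.powerset.filter (fun T => T.val.map a = μ₁ + μ₂), Rem W N (∏ p ∈ T, p) r c)
  nlinarith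

end Pool.Agent.Work.MP_2dba45_nt.Sv
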