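import Mathlib
import Pool.Agent.Work.MP_2dba45_nt.Sv.Defs

set_option autoImplicit false

/-!
Module TYPES. Group the sum by the multiset of costs: costs a T is the decreasing sort of
T.val.map a (a is monotone on P), so phi' is constant on each class; the number of multisets of
positive integers with sum ≤ S is finite, bounded by B S (for example (S+1)^(S+1)).
-/

namespace Pool.Agent.Work.MP_2dba45_nt.Sv

open Finset Pool.Agent.Work.MP_2dba45_nt.BilDef

theorem costs_pairwise (a : ℕ → ℕ) (T : Finset ℕ) (ha : ∀ p ∈ T, ∀ q ∈ T, p ≤ q → a p ≤ a q) :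
    (costs a T).Pairwise (· ≥ ·) := by
  unfold costs
  rw [List.pairwise_map]
  refine (T.pairwise_sort (· ≥ ·)).imp_of_mem ?_
  intro x y hx hy hxy
  rw [Finset.mem_sort] at hx hy
  exact ha y hy x hx hxy

theorem costs_coe (a : ℕ → ℕ) (T : Finset ℕ) :
    ((costs a T : List ℕ) : Multiset ℕ) = T.val.map a := by
  unfold costs
  rw [← Multiset.map_coe, Finset.sort_eq]

theorem type_sum_costs {a : ℕ → ℕ} {P T T' : Finset ℕ} (ha : ∀ p ∈ P, ∀ q ∈ P, p ≤ q → a p ≤ a q)
    (hT : T ⊆ P) (hT' : T' ⊆ P) (h : T'.val.map a = T.val.map a) : costs a T' = costs a T := by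
  have h1 : (costs a T').Perm (costs a T) := by
    rw [← Multiset.coe_eq_coe, costs_coe, costs_coe, h]
  exact h1.eq_of_pairwise' (costs_pairwise a T' fun p hp q hq => ha p (hT' hp) q (hT' hq))
    (costs_pairwise a T fun p hp q hq => ha p (hT hp) q (hT hq))

theorem type_sum_card (S : ℕ) (I : Finset (Multiset ℕ)) (h : ∀ μ ∈ I, μ.sum ≤ S ∧ ∀ x ∈ μ, 1 ≤ x) :
    #I ≤ (S + 1) ^ (S + 1) := by
  have h1 : #I ≤ #(Finset.univ : Finset (Fin (S + 1) → Fin (S + 1))) := by
    refine Finset.card_le_card_of_injOn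
      (fun μ i => ⟨min (μ.count (i : ℕ)) S, by omega⟩) (fun _ _ => Finset.mem_coe.2 (Finset.mem_univ _)) ?_
    have hcnt : ∀ μ ∈ I, ∀ i, μ.count i ≤ S := by
      intro μ hμ i
      refine (Multiset.count_le_card _ _).trans ?_
      have h2 := (h μ hμ)
      have h3 : (μ.map fun _ => 1).sum ≤ (μ.map fun x => x).sum :=
        Multiset.sum_map_le_sum_map _ _ h2.2
      rw [Multiset.map_const', Multiset.sum_replicate, smul_eq_mul, mul_one, Multiset.map_id'] at h3
      exact h3.trans h2.1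
    have hbig : ∀ μ ∈ I, ∀ i, S < i → μ.count i = 0 := by
      intro μ hμ i hi
      rw [Multiset.count_eq_zero]
      intro hmem
      have := Multiset.single_le_sum (fun x _ => Nat.zero_le x) i hmem
      have := (h μ hμ).1
      omega
    intro μ hμ ν hν hμν
    rw [Finset.mem_coe] at hμ hν
    ext i
    by_cases hi : i < S + 1
    · have h2 := congrArg Fin.val (congrFun hμν ⟨i, hi⟩)
      simp only at h2
      rw [min_eq_left (hcnt μ hμ i), min_eq_left (hcnt ν hν i)] at h2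
      exact h2
    · rw [hbig μ hμ i (by omega), hbig ν hν i (by omega)]
  rw [Finset.card_univ] at h1
  simpa using h1

theorem type_sum : ∃ B : ℕ → ℝ, (∀ S, 0 ≤ B S) ∧ ∀ (P : Finset ℕ) (a : ℕ → ℕ) (φ : List ℕ → ℝ)
    (R : Finset ℕ → ℝ) (C E : ℝ) (S : ℕ), 0 ≤ C → 0 ≤ E →
    (∀ p ∈ P, 1 ≤ a p) → (∀ p ∈ P, ∀ q ∈ P, p ≤ q → a p ≤ a q) → (∀ c, |φ c| ≤ C) →
    (∀ T ⊆ P, φ (costs a T) ≠ 0 → (T.val.map a).sum ≤ S ∧
      |∑ T' ∈ P.powerset.filter (fun T' => T'.val.map a = T.val.map a), R T'| ≤ E) →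
    |∑ T ∈ P.powerset, φ (costs a T) * R T| ≤ C * B S * E := by
  classical
  refine ⟨fun S => ((S + 1) ^ (S + 1) : ℕ), fun S => by positivity, ?_⟩
  intro P a φ R C E S hC hE ha1 ha hφ hT
  set F : Finset (Finset ℕ) := P.powerset.filter (fun T => φ (costs a T) ≠ 0) with hF
  set I : Finset (Multiset ℕ) := F.image (fun T => T.val.map a) with hI
  have h1 : ∑ T ∈ P.powerset, φ (costs a T) * R T = ∑ T ∈ F, φ (costs a T) * R T := by
    rw [hF, Finset.sum_filter_of_ne]
    intro T _ h0 h1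
    exact h0 (by rw [h1, zero_mul])
  have h2 : ∑ T ∈ F, φ (costs a T) * R T =
      ∑ μ ∈ I, ∑ T ∈ F.filter (fun T => T.val.map a = μ), φ (costs a T) * R T := by
    rw [hI]
    exact (Finset.sum_fiberwise_of_maps_to (fun T hT => Finset.mem_image_of_mem _ hT) _).symm
  rw [h1, h2]
  have hmem : ∀ T, T ∈ F ↔ T ⊆ P ∧ φ (costs a T) ≠ 0 := by
    intro T
    rw [hF, Finset.mem_filter, Finset.mem_powerset]
  have h3 : ∀ μ ∈ I, |∑ T ∈ F.filter (fun T => T.val.map a = μ), φ (costs a T) * R T| ≤ C * E := by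
    intro μ hμ
    obtain ⟨T, hTF, rfl⟩ := Finset.mem_image.1 hμ
    obtain ⟨hTP, hT0⟩ := (hmem T).1 hTF
    have h4 : F.filter (fun T' => T'.val.map a = T.val.map a) =
        P.powerset.filter (fun T' => T'.val.map a = T.val.map a) := by
      ext T'
      constructor
      · intro h
        obtain ⟨h, h'⟩ := Finset.mem_filter.1 h
        exact Finset.mem_filter.2 ⟨Finset.mem_powerset.2 ((hmem T').1 h).1, h'⟩
      · intro h
        obtain ⟨h, h'⟩ := Finset.mem_filter.1 h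
        rw [Finset.mem_powerset] at h
        refine Finset.mem_filter.2 ⟨(hmem T').2 ⟨h, ?_⟩, h'⟩
        rw [type_sum_costs ha hTP h h']
        exact hT0
    have h5 : ∑ T' ∈ F.filter (fun T' => T'.val.map a = T.val.map a), φ (costs a T') * R T' =
        φ (costs a T) * ∑ T' ∈ P.powerset.filter (fun T' => T'.val.map a = T.val.map a), R T' := by
      rw [h4, Finset.mul_sum]
      refine Finset.sum_congr rfl fun T' hT' => ?_
      rw [Finset.mem_filter, Finset.mem_powerset] at hT'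
      rw [type_sum_costs ha hTP hT'.1 hT'.2]
    rw [h5, abs_mul]
    exact mul_le_mul (hφ _) (hT T hTP hT0).2 (abs_nonneg _) hC
  have h4 : #I ≤ (S + 1) ^ (S + 1) := by
    refine type_sum_card S I fun μ hμ => ?_
    obtain ⟨T, hTF, rfl⟩ := Finset.mem_image.1 hμ
    obtain ⟨hTP, hT0⟩ := (hmem T).1 hTF
    refine ⟨(hT T hTP hT0).1, fun x hx => ?_⟩
    obtain ⟨p, hp, rfl⟩ := Multiset.mem_map.1 hx
    exact ha1 p (hTP hp)
  refine (Finset.abs_sum_le_sum_abs _ _).trans ((Finset.sum_le_sum h3).trans ?_)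
  rw [Finset.sum_const, nsmul_eq_mul]
  have h5 : (#I : ℝ) ≤ (((S + 1) ^ (S + 1) : ℕ) : ℝ) := by exact_mod_cast h4
  have h6 : 0 ≤ C * E := mul_nonneg hC hE
  calc (#I : ℝ) * (C * E) ≤ (((S + 1) ^ (S + 1) : ℕ) : ℝ) * (C * E) :=
        mul_le_mul_of_nonneg_right h5 h6
    _ = C * (((S + 1) ^ (S + 1) : ℕ) : ℝ) * E := by ring

end Pool.Agent.Work.MP_2dba45_nt.Sv
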