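import Mathlib
import Pool.Agent.Work.MP_2dba45_nt.Sv.Defs
import Pool.Agent.Work.MP_2dba45_nt.Sv.Box
import Pool.Agent.Work.MP_2dba45_nt.Sv.Split
import Pool.Agent.Work.MP_2dba45_nt.Sv.TypeBound
import Pool.Agent.Work.MP_2dba45_nt.Sv.TypeSum
import Pool.Agent.Work.MP_2dba45_nt.Sv.WWEq

set_option autoImplicit false

/-!
Module REMTOT. Total remainder, for phi and for |phi|: type_sum with S = 1298 k + 1199 k, C = 2, and for a
type with phi ≠ 0 the split of SPLIT (m = 1199 k, q = 99 k, K = 1200 k) and type_bound with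
M = N^(1199/1200), Q = N^(99/1200) (prod_le_of_cost).
-/

namespace Pool.Agent.Work.MP_2dba45_nt.Sv

open Finset Pool.Agent.Work.MP_2dba45_nt.BilDef

private lemma split_phi (k : ℕ) (c : List ℕ) (hc : c.Pairwise (· ≥ ·))
    (h : phi (270 * k) (1199 * k) (1298 * k) (wt k) lamb c ≠ 0) :
    ∃ μ₁ μ₂ : Multiset ℕ, (c : Multiset ℕ) = μ₁ + μ₂ ∧ μ₁.sum ≤ 1199 * k ∧ μ₂.sum ≤ 99 * k := by
  classical
  have hL : (((1199 * k + 99 * k : ℕ) : ℤ)) = 1298 * (k : ℤ) := by
    push_cast
    ring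
  unfold phi at h
  split_ifs at h with h1 h2
  · refine split_false (1199 * k) (99 * k) c hc (by rw [hL]; exact h2) ?_
    intro x hx
    have := h1 x hx
    omega
  · exact absurd rfl h
  · cases c with
    | nil => exact absurd rfl h
    | cons x t =>
      simp only at h
      split_ifs at h with h3
      · exact split_true (1199 * k) (99 * k) x t (List.pairwise_cons.1 hc).2
          (by rw [hL]; exact h3.2.2) h3.2.1
      · exact absurd rfl h

theorem rem_total : ∃ B : ℕ → ℝ, (∀ k, 0 ≤ B k) ∧ ∀ (k N z₀ r c : ℕ) (W : ℕ → ℝ) (E : ℝ),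
    1 ≤ k → 2 ≤ N → 3 ≤ z₀ → (∀ p : ℕ, p.Prime → p ∣ r → p < z₀) →
    (∀ b : ℕ → ℝ, (∀ q, |b q| ≤ 1) →
      ∑ m ∈ (Icc 1 ⌊(N : ℝ) ^ ((1199 : ℝ) / 1200)⌋₊).filter (fun m => m.Coprime r),
        |∑ q ∈ (Icc 1 ⌊(N : ℝ) ^ ((99 : ℝ) / 1200)⌋₊).filter
            (fun q => Squarefree q ∧ q.Coprime (2 * m * r)),
          b q * Rem W N (m * q) r c| ≤ E) →
    |∑ T ∈ (PQ z₀ N).powerset, phi (270 * k) (1199 * k) (1298 * k) (wt k) lamb
        (costs (cost (1200 * k) N) T) * Rem W N (∏ p ∈ T, p) r c| ≤ B k * E ∧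
    |∑ T ∈ (PQ z₀ N).powerset, |phi (270 * k) (1199 * k) (1298 * k) (wt k) lamb
        (costs (cost (1200 * k) N) T)| * Rem W N (∏ p ∈ T, p) r c| ≤ B k * E := by
  classical
  obtain ⟨B, hB, hts⟩ := type_sum
  refine ⟨fun k => 2 * B (1298 * k + 1199 * k), fun k => mul_nonneg (by norm_num) (hB _), ?_⟩
  intro k N z₀ r c W E hk hN hz₀ hr hb
  set a := cost (1200 * k) N with ha
  set P := PQ z₀ N with hP
  have hE : 0 ≤ E := by
    have h := hb (fun _ => 0) (fun q => by simp)
    simpa using h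
  have hmem : ∀ p ∈ P, z₀ ≤ p ∧ p.Prime := by
    intro p hp
    rw [hP, PQ, mem_filter, mem_Ico] at hp
    exact ⟨hp.1.1, hp.2⟩
  have h1 : ∀ p ∈ P, 1 ≤ a p := by
    intro p _
    rw [ha]
    unfold cost
    omega
  have hp1 : ∀ p ∈ P, 1 ≤ p := fun p hp => (hmem p hp).2.one_le
  have h2 : ∀ p ∈ P, ∀ q ∈ P, p ≤ q → a p ≤ a q := fun p hp q _ hpq =>
    cost_mono (1200 * k) N p q hN (hp1 p hp) hpq
  have hK : 1 ≤ 1200 * k := by omega
  have hk0 : (k : ℝ) ≠ 0 := by
    have : 0 < k := hk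
    positivity
  have key : ∀ T ⊆ P, phi (270 * k) (1199 * k) (1298 * k) (wt k) lamb (costs a T) ≠ 0 →
      (T.val.map a).sum ≤ 1298 * k + 1199 * k ∧
      |∑ T' ∈ P.powerset.filter (fun T' => T'.val.map a = T.val.map a),
        Rem W N (∏ p ∈ T', p) r c| ≤ E := by
    intro T hT hne
    have hpw := costs_pairwise a T fun p hp q hq => h2 p (hT hp) q (hT hq)
    obtain ⟨μ₁, μ₂, hsum, hm, hq⟩ := split_phi k (costs a T) hpw hne
    rw [costs_coe] at hsum
    constructor
    · rw [hsum, Multiset.sum_add]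
      omega
    · rw [hsum]
      refine type_bound W N r c P a (fun p hp => (hmem p hp).2) ?_ μ₁ μ₂
        ((N : ℝ) ^ ((1199 : ℝ) / 1200)) ((N : ℝ) ^ ((99 : ℝ) / 1200)) E ?_ ?_ hb
      · intro p hp
        obtain ⟨hp3, hpp⟩ := hmem p hp
        rw [hpp.coprime_iff_not_dvd, hpp.dvd_mul]
        rintro (h | h)
        · have := Nat.le_of_dvd (by norm_num) h
          omega
        · have := hr p hpp h
          omega
      · intro U hU hmap
        have := prod_le_of_cost (1200 * k) N (1199 * k) hK hN U (fun p hp => hp1 p (hU hp))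
          (by rw [← ha, hmap]; exact hm)
        refine this.trans (le_of_eq ?_)
        congr 1
        push_cast
        rw [mul_div_mul_right _ _ hk0]
      · intro U hU hmap
        have := prod_le_of_cost (1200 * k) N (99 * k) hK hN U (fun p hp => hp1 p (hU hp))
          (by rw [← ha, hmap]; exact hq)
        refine this.trans (le_of_eq ?_)
        congr 1
        push_cast
        rw [mul_div_mul_right _ _ hk0]
  constructor
  · exact hts P a (phi (270 * k) (1199 * k) (1298 * k) (wt k) lamb)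
      (fun T => Rem W N (∏ p ∈ T, p) r c) 2 E (1298 * k + 1199 * k) (by norm_num) hE h1 h2
      (fun l => phi_bound k hk l) key
  · exact hts P a (fun l => |phi (270 * k) (1199 * k) (1298 * k) (wt k) lamb l|)
      (fun T => Rem W N (∏ p ∈ T, p) r c) 2 E (1298 * k + 1199 * k) (by norm_num) hE h1 h2
      (fun l => by rw [abs_abs]; exact phi_bound k hk l)
      (fun T hT hne => key T hT (abs_ne_zero.1 hne))

end Pool.Agent.Work.MP_2dba45_nt.Sv
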