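import Mathlib
import Pool.Agent.Work.MP_2dba45_nt.Sv.Defs
import Pool.Agent.Work.MP_2dba45_nt.Sv.RemTot
import Pool.Agent.Work.MP_2dba45_nt.Sv.MainW
import Pool.Agent.Work.MP_2dba45_nt.Sv.Abs
import Pool.Agent.Work.MP_2dba45_nt.Sv.Nsq
import Pool.Agent.Work.MP_2dba45_nt.Sv.Pre
import Pool.Agent.Work.MP_2dba45_nt.Sv.BHc
import Pool.Agent.Work.MP_2dba45_nt.Sv.Mert1

set_option autoImplicit false

/-!
Assembly of the sieve side (helper56).
-/

namespace Pool.Agent.Work.MP_2dba45_nt.Sv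

open Finset Pool.Agent.Work.MP_2dba45_nt.BilDef

theorem fin_ev (a κ : ℝ) (ha : a < 1) (hκ : 0 < κ) :
    ∀ᶠ N : ℕ in Filter.atTop, (N : ℝ) ^ a ≤ κ * (N / (Real.log N) ^ 2) := by
  have h1 := (isLittleO_log_rpow_rpow_atTop (s := 1 - a) 2 (by linarith)).def hκ
  have h2 := tendsto_natCast_atTop_atTop (R := ℝ) |>.eventually h1
  filter_upwards [h2, Filter.eventually_ge_atTop 3] with N hN hN3
  have hN0 : (0 : ℝ) < N := by positivity
  have hlog : 0 < Real.log N := Real.log_pos (by exact_mod_cast (by omega : 1 < N))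
  rw [Real.norm_of_nonneg (by positivity), Real.norm_of_nonneg (by positivity)] at hN
  have h3 : Real.log N ^ (2 : ℝ) = Real.log N ^ 2 := by
    rw [← Real.rpow_natCast]; norm_num
  rw [h3] at hN
  rw [← mul_div_assoc, le_div_iff₀ (by positivity)]
  calc (N : ℝ) ^ a * Real.log N ^ 2 ≤ (N : ℝ) ^ a * (κ * (N : ℝ) ^ (1 - a)) :=
        mul_le_mul_of_nonneg_left hN (by positivity)
    _ = κ * ((N : ℝ) ^ a * (N : ℝ) ^ (1 - a)) := by ring
    _ = κ * N := by rw [← Real.rpow_add hN0]; norm_num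

theorem fin_ev2 (a b C : ℝ) (hab : a < b) :
    ∀ᶠ N : ℕ in Filter.atTop, C * (N : ℝ) ^ a ≤ (N : ℝ) ^ b := by
  have h1 : Filter.Tendsto (fun x : ℝ => x ^ (b - a)) Filter.atTop Filter.atTop :=
    tendsto_rpow_atTop (by linarith)
  have h2 := (h1.comp (tendsto_natCast_atTop_atTop (R := ℝ))).eventually_ge_atTop C
  filter_upwards [h2, Filter.eventually_ge_atTop 1] with N hN hN1
  have hN0 : (0 : ℝ) < N := by exact_mod_cast hN1
  have h3 : (N : ℝ) ^ b = (N : ℝ) ^ (b - a) * (N : ℝ) ^ a := by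
    rw [← Real.rpow_add hN0]; congr 1; ring
  rw [h3]
  exact mul_le_mul_of_nonneg_right hN (by positivity)

open Classical in
theorem fin_expand (W : ℕ → ℝ) (N : ℕ) (D𝒟 D𝒯 : Finset (Finset ℕ))
    (hd : ∀ d ∈ D𝒟, ∀ p ∈ d, p.Prime) (hT : ∀ T ∈ D𝒯, ∀ p ∈ T, p.Prime)
    (lp φ : Finset ℕ → ℝ) :
    ∑ n ∈ Ioc N (2 * N), W n *
        ((∑ d ∈ D𝒟, lp d * (if ∀ p ∈ d, p ∣ (n ^ 2 + 1) * (n ^ 2 + 3) then (1 : ℝ) else 0)) *
          (∑ T ∈ D𝒯, φ T * (if ∀ p ∈ T, p ∣ n ^ 2 + 1 then (1 : ℝ) else 0))) =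
      (∑ d ∈ D𝒟, lp d * ∏ p ∈ d, VV.gom p) * (∑ T ∈ D𝒯, φ T * GG T) *
          (∑ n ∈ Ioc N (2 * N), W n) +
        ∑ d ∈ D𝒟, lp d * ∑ c ∈ Rset d, ∑ T ∈ D𝒯, φ T * Rem W N (∏ p ∈ T, p) (∏ p ∈ d, p) c := by
  have h1 : ∀ n, W n *
        ((∑ d ∈ D𝒟, lp d * (if ∀ p ∈ d, p ∣ (n ^ 2 + 1) * (n ^ 2 + 3) then (1 : ℝ) else 0)) *
          (∑ T ∈ D𝒯, φ T * (if ∀ p ∈ T, p ∣ n ^ 2 + 1 then (1 : ℝ) else 0))) =
      ∑ d ∈ D𝒟, ∑ T ∈ D𝒯, lp d * φ T *
        ((if ∀ p ∈ d, p ∣ (n ^ 2 + 1) * (n ^ 2 + 3) then (1 : ℝ) else 0) *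
        (if ∀ p ∈ T, p ∣ n ^ 2 + 1 then (1 : ℝ) else 0) * W n) := by
    intro n
    rw [Finset.sum_mul_sum, Finset.mul_sum]
    refine Finset.sum_congr rfl fun d _ => ?_
    rw [Finset.mul_sum]
    refine Finset.sum_congr rfl fun T _ => ?_
    ring
  simp_rw [h1]
  rw [Finset.sum_comm]
  have h2 : ∀ d ∈ D𝒟, ∑ n ∈ Ioc N (2 * N), ∑ T ∈ D𝒯, lp d * φ T *
        ((if ∀ p ∈ d, p ∣ (n ^ 2 + 1) * (n ^ 2 + 3) then (1 : ℝ) else 0) *
        (if ∀ p ∈ T, p ∣ n ^ 2 + 1 then (1 : ℝ) else 0) * W n) =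
      (lp d * ∏ p ∈ d, VV.gom p) * (∑ T ∈ D𝒯, φ T * GG T) * (∑ n ∈ Ioc N (2 * N), W n) +
        lp d * ∑ c ∈ Rset d, ∑ T ∈ D𝒯, φ T * Rem W N (∏ p ∈ T, p) (∏ p ∈ d, p) c := by
    intro d hdd
    rw [Finset.sum_comm]
    have h3 : ∀ T ∈ D𝒯, ∑ n ∈ Ioc N (2 * N), lp d * φ T *
        ((if ∀ p ∈ d, p ∣ (n ^ 2 + 1) * (n ^ 2 + 3) then (1 : ℝ) else 0) *
        (if ∀ p ∈ T, p ∣ n ^ 2 + 1 then (1 : ℝ) else 0) * W n) =
        (lp d * ∏ p ∈ d, VV.gom p) * (φ T * GG T) * (∑ n ∈ Ioc N (2 * N), W n) +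
          lp d * ∑ c ∈ Rset d, φ T * Rem W N (∏ p ∈ T, p) (∏ p ∈ d, p) c := by
      intro T hTT
      have hpc := pre_count W N d T (hd d hdd) (hT T hTT)
      have hpc' : ∑ n ∈ Ioc N (2 * N),
          ((if ∀ p ∈ d, p ∣ (n ^ 2 + 1) * (n ^ 2 + 3) then (1 : ℝ) else 0) *
          (if ∀ p ∈ T, p ∣ n ^ 2 + 1 then (1 : ℝ) else 0) * W n) =
          (∏ p ∈ d, VV.gom p) * GG T * (∑ n ∈ Ioc N (2 * N), W n) +
            ∑ c ∈ Rset d, Rem W N (∏ p ∈ T, p) (∏ p ∈ d, p) c := by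
        convert hpc
      rw [← Finset.mul_sum, hpc', ← Finset.mul_sum]
      ring
    rw [Finset.sum_congr rfl h3, Finset.sum_add_distrib, ← Finset.sum_mul, ← Finset.mul_sum,
      ← Finset.mul_sum]
    congr 2
    rw [Finset.sum_comm]
  rw [Finset.sum_congr rfl h2, Finset.sum_add_distrib, ← Finset.sum_mul, ← Finset.sum_mul]

theorem fin_rem (D𝒟 : Finset (Finset ℕ)) (hd : ∀ d ∈ D𝒟, ∀ p ∈ d, p.Prime)
    (lp : Finset ℕ → ℝ) (G : Finset ℕ → ℕ → ℝ) (C D E : ℝ) (hC : 0 ≤ C) (hD : 0 ≤ D) (hE : 0 ≤ E)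
    (hlp : ∀ d, |lp d| ≤ C)
    (hsupp : ∀ d ∈ D𝒟, lp d ≠ 0 → ((∏ p ∈ d, p : ℕ) : ℝ) ≤ D)
    (hG : ∀ d ∈ D𝒟, lp d ≠ 0 → ∀ c, |G d c| ≤ E) :
    |∑ d ∈ D𝒟, lp d * ∑ c ∈ Rset d, G d c| ≤ C * D ^ 2 * E := by
  classical
  have h1 : ∑ d ∈ D𝒟, lp d * ∑ c ∈ Rset d, G d c =
      ∑ d ∈ D𝒟.filter (fun d => lp d ≠ 0), lp d * ∑ c ∈ Rset d, G d c := by
    symm
    apply Finset.sum_subset (Finset.filter_subset _ _)
    intro d hd1 hd2
    rw [Finset.mem_filter, not_and_not_right] at hd2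
    have : lp d = 0 := by
      by_contra hcon
      exact absurd (hd2 hd1) (by simpa using hcon)
    rw [this, zero_mul]
  rw [h1]
  have h2 : ∀ d ∈ D𝒟.filter (fun d => lp d ≠ 0), |lp d * ∑ c ∈ Rset d, G d c| ≤ C * (D * E) := by
    intro d hd1
    rw [Finset.mem_filter] at hd1
    rw [abs_mul]
    apply mul_le_mul (hlp d) _ (abs_nonneg _) hC
    refine (Finset.abs_sum_le_sum_abs _ _).trans ?_
    refine (Finset.sum_le_card_nsmul _ _ E fun c _ => hG d hd1.1 hd1.2 c).trans ?_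
    rw [nsmul_eq_mul]
    apply mul_le_mul_of_nonneg_right _ hE
    refine le_trans ?_ (hsupp d hd1.1 hd1.2)
    have : #(Rset d) ≤ ∏ p ∈ d, p := by
      unfold Rset
      refine (Finset.card_filter_le _ _).trans ?_
      rw [Finset.card_range]
    exact_mod_cast this
  refine (Finset.abs_sum_le_sum_abs _ _).trans ?_
  refine (Finset.sum_le_card_nsmul _ _ _ h2).trans ?_
  rw [nsmul_eq_mul]
  have h3 : (#(D𝒟.filter (fun d => lp d ≠ 0)) : ℝ) ≤ D := by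
    have h4 : #(D𝒟.filter (fun d => lp d ≠ 0)) ≤ #(Finset.Icc 1 ⌊D⌋₊) := by
      apply Finset.card_le_card_of_injOn (fun d => ∏ p ∈ d, p)
      · intro d hd1
        have hd2 := Finset.mem_filter.mp (Finset.mem_coe.mp hd1)
        rw [Finset.coe_Icc, Set.mem_Icc]
        refine ⟨Finset.prod_pos fun p hp => (hd d hd2.1 p hp).pos, ?_⟩
        exact Nat.le_floor (hsupp d hd2.1 hd2.2)
      · intro d hd1 e he1 hde
        have hd2 := Finset.mem_filter.mp (Finset.mem_coe.mp hd1)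
        have he2 := Finset.mem_filter.mp (Finset.mem_coe.mp he1)
        have h5 := congrArg Nat.primeFactors hde
        rwa [Nat.primeFactors_prod (hd d hd2.1), Nat.primeFactors_prod (hd e he2.1)] at h5
    rw [Nat.card_Icc, Nat.add_sub_cancel] at h4
    exact le_trans (by exact_mod_cast h4) (Nat.floor_le hD)
  calc (#(D𝒟.filter (fun d => lp d ≠ 0)) : ℝ) * (C * (D * E)) ≤ D * (C * (D * E)) :=
        mul_le_mul_of_nonneg_right h3 (by positivity)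
    _ = C * D ^ 2 * E := by ring

theorem fin_param (η c1 C2 : ℝ) (b₀ : ℕ) (hη : 0 < η) (hc1 : 0 < c1) (hC2 : 0 < C2) :
    ∃ (b : ℕ) (δ : ℝ), b₀ ≤ b ∧ 0 < δ ∧ δ ≤ 1 / 10 ∧ δ * (4 * b + 10) ≤ η / 8 ∧
      Real.exp (-b) * (C2 / δ) ≤ c1 * δ / 2 := by
  set d : ℝ := min 1 (η / 8) with hd
  have hd0 : 0 < d := lt_min one_pos (by positivity)
  have hd1 : d ≤ 1 := min_le_left _ _
  obtain ⟨m, hm⟩ := exists_nat_gt (2352 * C2 / (c1 * d ^ 2))
  set b : ℕ := max (max b₀ 1) m with hb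
  have hb0 : b₀ ≤ b := le_trans (le_max_left _ _) (le_max_left _ _)
  have hb1 : 1 ≤ b := le_trans (le_max_right _ _) (le_max_left _ _)
  have hbm : m ≤ b := le_max_right _ _
  have hb1r : (1 : ℝ) ≤ b := by exact_mod_cast hb1
  have hbr : 2352 * C2 / (c1 * d ^ 2) ≤ b := hm.le.trans (by exact_mod_cast hbm)
  refine ⟨b, d / (4 * b + 10), hb0, by positivity, ?_, ?_, ?_⟩
  · rw [div_le_iff₀ (by positivity)]
    nlinarith
  · rw [div_mul_cancel₀ _ (by positivity)]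
    exact min_le_right _ _
  · have h1 : (b : ℝ) ^ 3 / 6 ≤ Real.exp b := by
      have := Real.pow_div_factorial_le_exp (b : ℝ) (by positivity) 3
      have h6 : ((Nat.factorial 3 : ℕ) : ℝ) = 6 := by norm_num [Nat.factorial]
      rwa [h6] at this
    rw [div_le_iff₀ (by positivity)] at hbr
    have h2 : Real.exp (-b) * (b : ℝ) ^ 3 ≤ 6 := by
      rw [Real.exp_neg, inv_mul_le_iff₀ (Real.exp_pos _)]
      linarith
    have h3 : (4 * (b : ℝ) + 10) ^ 2 ≤ 196 * (b : ℝ) ^ 2 := by nlinarith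
    have h4 : Real.exp (-b) * (C2 / (d / (4 * b + 10))) =
        Real.exp (-b) * C2 * (4 * b + 10) / d := by field_simp
    have h5 : c1 * (d / (4 * b + 10)) / 2 = c1 * d / (2 * (4 * b + 10)) := by field_simp
    rw [h4, h5, div_le_div_iff₀ hd0 (by positivity)]
    have h6 : Real.exp (-b) * (4 * (b : ℝ) + 10) ^ 2 * (2 * C2) ≤ c1 * d ^ 2 := by
      have h7 : Real.exp (-b) * (4 * (b : ℝ) + 10) ^ 2 ≤ Real.exp (-b) * (196 * (b : ℝ) ^ 2) :=
        mul_le_mul_of_nonneg_left h3 (Real.exp_pos _).le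
      have h8 : Real.exp (-b) * (196 * (b : ℝ) ^ 2) * b ≤ 1176 := by nlinarith
      have h9 : 0 < Real.exp (-(b : ℝ)) := Real.exp_pos _
      have h10 : Real.exp (-b) * (4 * (b : ℝ) + 10) ^ 2 * (2 * C2) * b ≤ 1176 * (2 * C2) := by
        calc Real.exp (-b) * (4 * (b : ℝ) + 10) ^ 2 * (2 * C2) * b
            ≤ Real.exp (-b) * (196 * (b : ℝ) ^ 2) * (2 * C2) * b := by gcongr
          _ = Real.exp (-b) * (196 * (b : ℝ) ^ 2) * b * (2 * C2) := by ring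
          _ ≤ 1176 * (2 * C2) := mul_le_mul_of_nonneg_right h8 (by positivity)
      have h11 : 1176 * (2 * C2) ≤ c1 * d ^ 2 * b := by linarith
      have h12 : Real.exp (-b) * (4 * (b : ℝ) + 10) ^ 2 * (2 * C2) * b ≤ c1 * d ^ 2 * b :=
        h10.trans h11
      exact le_of_mul_le_mul_right h12 (by linarith)
    calc Real.exp (-b) * C2 * (4 * b + 10) * (2 * (4 * b + 10))
        = Real.exp (-b) * (4 * (b : ℝ) + 10) ^ 2 * (2 * C2) := by ring
      _ ≤ c1 * d ^ 2 := h6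
      _ = c1 * d * d := by ring

open Classical in
theorem sieve_side (hB : BIL) : ∃ δ : ℝ, 0 < δ ∧ ∃ c : ℝ, 0 < c ∧ ∃ N₀ : ℕ, ∀ N : ℕ, N₀ ≤ N →
    c * (N / (Real.log N) ^ 2) ≤
      (#((Ioc N (2 * N)).filter (fun n : ℕ => ArithmeticFunction.cardFactors (n ^ 2 + 1) ≤ 2 ∧
        ∀ p : ℕ, p.Prime → p ∣ (n ^ 2 + 1) * (n ^ 2 + 3) → (N : ℝ) ^ δ ≤ p)) : ℝ) := by
  obtain ⟨η, hη, c₀, hc₀, N1, hBil⟩ := hB (1 / 1200) (by norm_num) (by norm_num)
  obtain ⟨Bk, hBk0, hRem⟩ := rem_total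
  obtain ⟨c1, hc1, hW⟩ := main_W
  obtain ⟨C2, hC2, hAbs⟩ := abs_sum
  obtain ⟨N2, hN2⟩ := nsq
  obtain ⟨N3, hN3⟩ := wt_ineq
  obtain ⟨L₀, hL₀, hblock⟩ := gom_block
  obtain ⟨b₀, hBH⟩ := brun_hooley L₀ hL₀
  obtain ⟨cV, hcV, hV⟩ := VV.V_ge
  obtain ⟨b, δ, hb, hδ0, hδ1, hδb, hexp⟩ := fin_param η c1 C2 b₀ hη hc1 hC2
  obtain ⟨k₀, hk₀⟩ := hW δ hδ0 hδ1
  set k := max k₀ 1 with hk
  have hk1 : 1 ≤ k := le_max_right _ _
  obtain ⟨N4, hN4⟩ := hk₀ k (le_max_left _ _)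
  obtain ⟨N5, hN5⟩ := hAbs δ hδ0 hδ1
  set c : ℝ := c₀ * cV * c1 * δ / 4 with hc
  have hc0 : 0 < c := by positivity
  have hev : ∀ᶠ N : ℕ in Filter.atTop, 3 * (N : ℝ) ^ (0 : ℝ) ≤ (N : ℝ) ^ δ ∧
      2 ^ (4 * b + 10) * (N : ℝ) ^ (η / 8) ≤ (N : ℝ) ^ (η / 4) ∧
      (2 * Bk k) * (N : ℝ) ^ (1 - η / 4) ≤ (N : ℝ) ^ (1 - η / 8) ∧
      (N : ℝ) ^ (1 - η / 8) ≤ (c / 2) * (N / (Real.log N) ^ 2) ∧
      (N : ℝ) ^ ((19 : ℝ) / 20) ≤ (c / 2) * (N / (Real.log N) ^ 2) := by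
    filter_upwards [fin_ev2 0 δ 3 hδ0, fin_ev2 (η / 8) (η / 4) (2 ^ (4 * b + 10)) (by linarith),
      fin_ev2 (1 - η / 4) (1 - η / 8) (2 * Bk k) (by linarith),
      fin_ev (1 - η / 8) (c / 2) (by linarith) (by linarith),
      fin_ev (19 / 20) (c / 2) (by norm_num) (by linarith)] with N h1 h2 h3 h4 h5
    exact ⟨h1, h2, h3, h4, h5⟩
  obtain ⟨N6, hN6⟩ := Filter.eventually_atTop.mp hev
  refine ⟨δ, hδ0, c, hc0, max N1 (max N2 (max N3 (max N4 (max N5 (max N6 2))))), fun N hN => ?_⟩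
  simp only [max_le_iff] at hN
  obtain ⟨hNN1, hNN2, hNN3, hNN4, hNN5, hNN6, hNN⟩ := hN
  obtain ⟨hx1, hx2, hx3, hx4, hx5⟩ := hN6 N hNN6
  rw [Real.rpow_zero, mul_one] at hx1
  have hN0 : (0 : ℝ) < N := by positivity
  have hN1 : (1 : ℝ) ≤ N := by exact_mod_cast (by omega : 1 ≤ N)
  have hlogN : 0 < Real.log N := Real.log_pos (by exact_mod_cast hNN)
  set z0 := pw N δ with hz0
  have hz0ge : (N : ℝ) ^ δ ≤ z0 := Nat.le_ceil _
  have hz03 : 3 ≤ z0 := by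
    have : (3 : ℝ) ≤ z0 := hx1.trans hz0ge
    exact_mod_cast this
  have hNδ : (N : ℝ) ^ δ ≤ N := by
    calc (N : ℝ) ^ δ ≤ (N : ℝ) ^ (1 : ℝ) := Real.rpow_le_rpow_of_exponent_le hN1 (by linarith)
      _ = N := Real.rpow_one _
  have hz0N : z0 ≤ N := Nat.ceil_le.mpr hNδ
  have hz02 : (z0 : ℝ) ≤ 2 * (N : ℝ) ^ δ := by
    have h1 : (z0 : ℝ) < (N : ℝ) ^ δ + 1 := Nat.ceil_lt_add_one (by positivity)
    linarith
  have hz0r : (3 : ℝ) ≤ z0 := by exact_mod_cast hz03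
  set D : ℝ := (z0 : ℝ) ^ (4 * b + 10) with hD
  have hD1 : 1 ≤ D := one_le_pow₀ (by linarith)
  have hz0D : (z0 : ℝ) ≤ D := le_self_pow₀ (by linarith) (by omega)
  have hDN : D ≤ (N : ℝ) ^ (η / 4) := by
    refine le_trans ?_ hx2
    calc D ≤ (2 * (N : ℝ) ^ δ) ^ (4 * b + 10) := pow_le_pow_left₀ (by positivity) hz02 _
      _ = 2 ^ (4 * b + 10) * ((N : ℝ) ^ δ) ^ (4 * b + 10) := mul_pow _ _ _
      _ = 2 ^ (4 * b + 10) * (N : ℝ) ^ (δ * (4 * b + 10)) := by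
          rw [← Real.rpow_natCast ((N : ℝ) ^ δ), ← Real.rpow_mul hN0.le]
          push_cast
          ring_nf
      _ ≤ 2 ^ (4 * b + 10) * (N : ℝ) ^ (η / 8) := by
          apply mul_le_mul_of_nonneg_left _ (by positivity)
          exact Real.rpow_le_rpow_of_exponent_le hN1 hδb
  obtain ⟨W, hW01, -, hWsum, hbil⟩ := hBil N hNN1
  set X : ℝ := ∑ n ∈ Ioc N (2 * N), W n with hX
  obtain ⟨lp, dp, hlp1, hdp1, hsupp, hsub, hmain, herr⟩ := hBH b hb z0 (VV.PP z0) VV.gom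
    (by omega) (fun p hp => ⟨(VV.mem_PP.mp hp).2.two_le, (VV.mem_PP.mp hp).1⟩)
    (fun p hp => ⟨VV.gom_nonneg p, VV.gom_le_half p (VV.mem_PP.mp hp).2⟩) (hblock z0)
  set P := PQ z0 N with hP
  set φ : Finset ℕ → ℝ := fun T => phi (270 * k) (1199 * k) (1298 * k) (wt k) lamb
    (costs (cost (1200 * k) N) T) with hφ
  have hPprime : ∀ p ∈ P, p.Prime ∧ z0 ≤ p := by
    intro p hp
    rw [hP, PQ, Finset.mem_filter, Finset.mem_Ico] at hp
    exact ⟨hp.2, hp.1.1⟩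
  have hPPprime : ∀ d ∈ (VV.PP z0).powerset, ∀ p ∈ d, p.Prime := by
    intro d hd p hp
    exact (VV.mem_PP.mp (Finset.mem_powerset.mp hd hp)).2
  have hTprime : ∀ T ∈ P.powerset, ∀ p ∈ T, p.Prime := by
    intro T hT p hp
    exact (hPprime p (Finset.mem_powerset.mp hT hp)).1
  -- indicator sums
  have e1 : ∀ (μ : Finset ℕ → ℝ) (n : ℕ),
      ∑ d ∈ ((VV.PP z0).filter (fun p => p ∣ (n ^ 2 + 1) * (n ^ 2 + 3))).powerset, μ d =
      ∑ d ∈ (VV.PP z0).powerset, μ d *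
        (if ∀ p ∈ d, p ∣ (n ^ 2 + 1) * (n ^ 2 + 3) then (1 : ℝ) else 0) := by
    intro μ n
    simp_rw [mul_ite, mul_one, mul_zero]
    rw [← Finset.sum_filter]
    refine Finset.sum_congr ?_ fun _ _ => rfl
    ext d
    simp only [Finset.mem_powerset, Finset.mem_filter, Finset.subset_iff]
    constructor
    · intro h
      exact ⟨fun p hp => (h hp).1, fun p hp => (h hp).2⟩
    · intro h p hp
      exact ⟨h.1 hp, h.2 p hp⟩
  have hk0r : (k : ℝ) ≠ 0 := by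
    have : (1 : ℝ) ≤ k := by exact_mod_cast hk1
    positivity
  have e2 : ∀ n : ℕ, WW P (cost (1200 * k) N) (pw N zExp) (pw N yExp) (1298 * k) (wt k) lamb
        (fun T => if T ⊆ P.filter (fun p => p ∣ n ^ 2 + 1) then 1 else 0) =
      ∑ T ∈ P.powerset, φ T * (if ∀ p ∈ T, p ∣ n ^ 2 + 1 then (1 : ℝ) else 0) := by
    intro n
    rw [WW_eq P (cost (1200 * k) N) (pw N zExp) (pw N yExp) (1298 * k) (wt k) lamb (270 * k)
      (1199 * k)]
    · refine Finset.sum_congr rfl fun T hT => ?_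
      congr 1
      have hTP := Finset.mem_powerset.mp hT
      congr 1
      rw [eq_iff_iff]
      constructor
      · intro h p hp
        exact (Finset.mem_filter.mp (h hp)).2
      · intro h p hp
        exact Finset.mem_filter.mpr ⟨hTP hp, h p hp⟩
    · intro p hp
      have h := lt_pw_iff_cost (1200 * k) N p (270 * k) (by omega) hNN (hPprime p hp).1.one_le
      rw [← h]
      have : (((270 * k : ℕ) : ℝ) / ((1200 * k : ℕ) : ℝ)) = zExp := by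
        unfold zExp; push_cast; field_simp; norm_num
      rw [this]
    · intro p hp
      have h := lt_pw_iff_cost (1200 * k) N p (1199 * k) (by omega) hNN (hPprime p hp).1.one_le
      rw [← h]
      have : (((1199 * k : ℕ) : ℝ) / ((1200 * k : ℕ) : ℝ)) = yExp := by
        unfold yExp; push_cast; field_simp
      rw [this]
    · unfold pw
      apply Nat.ceil_mono
      exact Real.rpow_le_rpow_of_exponent_le hN1 (by unfold zExp yExp; norm_num)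
  -- main terms
  have hGmain : c1 * δ ≤ ∑ T ∈ P.powerset, φ T * GG T := by
    have h := hN4 N hNN4
    rw [WW_eq P (cost (1200 * k) N) (pw N zExp) (pw N yExp) (1298 * k) (wt k) lamb (270 * k)
      (1199 * k)] at h
    · exact h
    · intro p hp
      have h := lt_pw_iff_cost (1200 * k) N p (270 * k) (by omega) hNN (hPprime p hp).1.one_le
      rw [← h]
      have : (((270 * k : ℕ) : ℝ) / ((1200 * k : ℕ) : ℝ)) = zExp := by
        unfold zExp; push_cast; field_simp; norm_num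
      rw [this]
    · intro p hp
      have h := lt_pw_iff_cost (1200 * k) N p (1199 * k) (by omega) hNN (hPprime p hp).1.one_le
      rw [← h]
      have : (((1199 * k : ℕ) : ℝ) / ((1200 * k : ℕ) : ℝ)) = yExp := by
        unfold yExp; push_cast; field_simp
      rw [this]
    · unfold pw
      apply Nat.ceil_mono
      exact Real.rpow_le_rpow_of_exponent_le hN1 (by unfold zExp yExp; norm_num)
  have hGabs : ∑ T ∈ P.powerset, |φ T| * GG T ≤ C2 / δ := hN5 N hNN5 k hk1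
  have hGabs0 : 0 ≤ ∑ T ∈ P.powerset, |φ T| * GG T := by
    apply Finset.sum_nonneg
    intro T _
    apply mul_nonneg (abs_nonneg _)
    unfold GG
    exact Finset.prod_nonneg fun p _ => by unfold g1; positivity
  -- remainders
  set E0 : ℝ := (N : ℝ) ^ (1 - η) with hE0
  have hE00 : 0 ≤ E0 := by positivity
  have hrem : ∀ d ∈ (VV.PP z0).powerset, (lp d ≠ 0 ∨ dp d ≠ 0) → ∀ cc : ℕ,
      |∑ T ∈ P.powerset, φ T * Rem W N (∏ p ∈ T, p) (∏ p ∈ d, p) cc| ≤ Bk k * E0 ∧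
      |∑ T ∈ P.powerset, |φ T| * Rem W N (∏ p ∈ T, p) (∏ p ∈ d, p) cc| ≤ Bk k * E0 := by
    intro d hd hne cc
    have hdp := hPPprime d hd
    have hr1 : 1 ≤ ∏ p ∈ d, p := Finset.prod_pos fun p hp => (hdp p hp).pos
    have hrD : ((∏ p ∈ d, p : ℕ) : ℝ) ≤ (N : ℝ) ^ η := by
      refine (hsupp d hne).2.trans (hDN.trans ?_)
      exact Real.rpow_le_rpow_of_exponent_le hN1 (by linarith)
    apply hRem k N z0 (∏ p ∈ d, p) cc W E0 hk1 hNN hz03
    · intro p hp hpd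
      rw [Prime.dvd_finsetProd_iff hp.prime] at hpd
      obtain ⟨q, hq, hpq⟩ := hpd
      have : p = q := (Nat.prime_dvd_prime_iff_eq hp (hdp q hq)).mp hpq
      rw [this]
      exact (VV.mem_PP.mp (Finset.mem_powerset.mp hd hq)).1
    · intro bb hbb
      apply hbil (∏ p ∈ d, p) cc hr1 hrD _ _ _ _ bb hbb
      · apply le_of_eq; norm_num
      · apply le_of_eq; norm_num
  have hexp1 := fin_expand W N (VV.PP z0).powerset P.powerset hPPprime hTprime lp φ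
  have hexp2 := fin_expand W N (VV.PP z0).powerset P.powerset hPPprime hTprime dp (fun T => |φ T|)
  have hR1 := fin_rem (VV.PP z0).powerset hPPprime lp
    (fun d cc => ∑ T ∈ P.powerset, φ T * Rem W N (∏ p ∈ T, p) (∏ p ∈ d, p) cc) 1 D (Bk k * E0)
    zero_le_one (by linarith) (mul_nonneg (hBk0 k) hE00) hlp1 (fun d _ hd => (hsupp d (Or.inl hd)).2)
    (fun d hd hne cc => (hrem d hd (Or.inl hne) cc).1)
  have hR2 := fin_rem (VV.PP z0).powerset hPPprime dp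
    (fun d cc => ∑ T ∈ P.powerset, |φ T| * Rem W N (∏ p ∈ T, p) (∏ p ∈ d, p) cc) z0 D (Bk k * E0)
    (by linarith) (by linarith) (mul_nonneg (hBk0 k) hE00) hdp1
    (fun d _ hd => (hsupp d (Or.inr hd)).2)
    (fun d hd hne cc => (hrem d hd (Or.inr hne) cc).2)
  -- pointwise inequality
  set good : ℕ → Prop := fun n => ArithmeticFunction.cardFactors (n ^ 2 + 1) ≤ 2 ∧
        ∀ p : ℕ, p.Prime → p ∣ (n ^ 2 + 1) * (n ^ 2 + 3) → (N : ℝ) ^ δ ≤ p with hgood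
  have hpt : ∀ n ∈ Ioc N (2 * N),
      (∑ d ∈ (VV.PP z0).powerset, lp d *
          (if ∀ p ∈ d, p ∣ (n ^ 2 + 1) * (n ^ 2 + 3) then (1 : ℝ) else 0)) *
        (∑ T ∈ P.powerset, φ T * (if ∀ p ∈ T, p ∣ n ^ 2 + 1 then (1 : ℝ) else 0)) -
      (∑ d ∈ (VV.PP z0).powerset, dp d *
          (if ∀ p ∈ d, p ∣ (n ^ 2 + 1) * (n ^ 2 + 3) then (1 : ℝ) else 0)) *
        (∑ T ∈ P.powerset, |φ T| * (if ∀ p ∈ T, p ∣ n ^ 2 + 1 then (1 : ℝ) else 0)) ≤
      (if good n then 1 else 0) + (if Bad N n then 1 else 0) := by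
    intro n hn
    rw [← e1 lp n, ← e1 dp n]
    obtain ⟨h1, h2⟩ := hsub _ (Finset.filter_subset (fun p => p ∣ (n ^ 2 + 1) * (n ^ 2 + 3)) _)
    set B2 := (VV.PP z0).filter (fun p => p ∣ (n ^ 2 + 1) * (n ^ 2 + 3)) with hB2
    set Λ := ∑ d ∈ B2.powerset, lp d
    set Δ := ∑ d ∈ B2.powerset, dp d
    set Ωa := ∑ T ∈ P.powerset, |φ T| * (if ∀ p ∈ T, p ∣ n ^ 2 + 1 then (1 : ℝ) else 0) with hΩa
    set Ω := ∑ T ∈ P.powerset, φ T * (if ∀ p ∈ T, p ∣ n ^ 2 + 1 then (1 : ℝ) else 0) with hΩ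
    have h3 : |Ω| ≤ Ωa := by
      refine (Finset.abs_sum_le_sum_abs _ _).trans (le_of_eq ?_)
      refine Finset.sum_congr rfl fun T _ => ?_
      rw [abs_mul]
      congr 1
      split_ifs <;> simp
    have h4 : 0 ≤ Ωa := (abs_nonneg _).trans h3
    have h5 : Λ * Ω - Δ * Ωa ≤ (if B2 = ∅ then (1 : ℝ) else 0) * Ω := by
      have h6 : (Λ - (if B2 = ∅ then (1 : ℝ) else 0)) * Ω ≤
          (Λ - (if B2 = ∅ then (1 : ℝ) else 0)) * Ωa :=
        mul_le_mul_of_nonneg_left ((le_abs_self _).trans h3) (by linarith)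
      have h7 : (Λ - (if B2 = ∅ then (1 : ℝ) else 0)) * Ωa ≤ Δ * Ωa :=
        mul_le_mul_of_nonneg_right h2 h4
      nlinarith
    refine h5.trans ?_
    by_cases hemp : B2 = ∅
    · rw [if_pos hemp, one_mul, hΩ, ← e2 n]
      have hrough : Rough (pw N δ) n := by
        intro p hp hpd
        by_contra hcon
        push Not at hcon
        have : p ∈ B2 := Finset.mem_filter.mpr ⟨VV.mem_PP.mpr ⟨hcon, hp⟩, hpd⟩
        rw [hemp] at this
        exact absurd this (Finset.notMem_empty p)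
      refine (hN3 N hNN3 k δ n hk1 hδ0 hδ1 hn hrough).trans ?_
      apply add_le_add_left
      by_cases hc2 : ArithmeticFunction.cardFactors (n ^ 2 + 1) ≤ 2
      · rw [if_pos hc2, if_pos]
        refine ⟨hc2, fun p hp hpd => ?_⟩
        exact hz0ge.trans (by exact_mod_cast hrough p hp hpd)
      · rw [if_neg hc2]
        split_ifs <;> norm_num
    · rw [if_neg hemp, zero_mul]
      split_ifs <;> norm_num
  have hsum : ∑ n ∈ Ioc N (2 * N), W n *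
      ((∑ d ∈ (VV.PP z0).powerset, lp d *
          (if ∀ p ∈ d, p ∣ (n ^ 2 + 1) * (n ^ 2 + 3) then (1 : ℝ) else 0)) *
        (∑ T ∈ P.powerset, φ T * (if ∀ p ∈ T, p ∣ n ^ 2 + 1 then (1 : ℝ) else 0))) -
      ∑ n ∈ Ioc N (2 * N), W n *
      ((∑ d ∈ (VV.PP z0).powerset, dp d *
          (if ∀ p ∈ d, p ∣ (n ^ 2 + 1) * (n ^ 2 + 3) then (1 : ℝ) else 0)) *
        (∑ T ∈ P.powerset, |φ T| * (if ∀ p ∈ T, p ∣ n ^ 2 + 1 then (1 : ℝ) else 0))) ≤
      (#((Ioc N (2 * N)).filter good) : ℝ) + (#((Ioc N (2 * N)).filter (fun n => Bad N n)) : ℝ) := by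
    rw [← Finset.sum_sub_distrib]
    have h1 : (#((Ioc N (2 * N)).filter good) : ℝ) +
        (#((Ioc N (2 * N)).filter (fun n => Bad N n)) : ℝ) =
        ∑ n ∈ Ioc N (2 * N), ((if good n then (1 : ℝ) else 0) + (if Bad N n then 1 else 0)) := by
      rw [Finset.sum_add_distrib, Finset.sum_boole, Finset.sum_boole]
    rw [h1]
    apply Finset.sum_le_sum
    intro n hn
    rw [← mul_sub]
    have h2 : (0 : ℝ) ≤ (if good n then (1 : ℝ) else 0) + (if Bad N n then 1 else 0) := by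
      split_ifs <;> norm_num
    calc W n * _ ≤ W n * ((if good n then (1 : ℝ) else 0) + (if Bad N n then 1 else 0)) :=
          mul_le_mul_of_nonneg_left (hpt n hn) (hW01 n).1
      _ ≤ 1 * ((if good n then (1 : ℝ) else 0) + (if Bad N n then 1 else 0)) :=
          mul_le_mul_of_nonneg_right (hW01 n).2 h2
      _ = _ := one_mul _
  rw [hexp1, hexp2] at hsum
  have hbad := hN2 N hNN2
  -- lower bound of the main term
  set V : ℝ := ∏ p ∈ VV.PP z0, (1 - VV.gom p) with hVdef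
  have hV0 : 0 < V := VV.V_pos z0
  have hVge : cV / (Real.log N) ^ 2 ≤ V := by
    refine le_trans ?_ (hV z0 (by omega))
    apply div_le_div_of_nonneg_left hcV.le
    · have : 0 < Real.log z0 := Real.log_pos (by linarith)
      positivity
    · have h1 : 0 < Real.log z0 := Real.log_pos (by linarith)
      have h2 : Real.log z0 ≤ Real.log N :=
        Real.log_le_log (by linarith) (by exact_mod_cast hz0N)
      exact pow_le_pow_left₀ h1.le h2 2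
  have hX0 : 0 ≤ X := le_trans (by positivity) hWsum
  set S1 := ∑ d ∈ (VV.PP z0).powerset, lp d * ∏ p ∈ d, VV.gom p with hS1
  set S2 := ∑ d ∈ (VV.PP z0).powerset, dp d * ∏ p ∈ d, VV.gom p with hS2
  set U1 := ∑ T ∈ P.powerset, φ T * GG T with hU1
  set U2 := ∑ T ∈ P.powerset, |φ T| * GG T with hU2
  have hm1 : V * (c1 * δ) ≤ S1 * U1 :=
    mul_le_mul hmain hGmain (by positivity) (hV0.le.trans hmain)
  have hm2 : S2 * U2 ≤ V * (c1 * δ / 2) := by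
    calc S2 * U2 ≤ (Real.exp (-b) * V) * U2 := mul_le_mul_of_nonneg_right herr hGabs0
      _ ≤ (Real.exp (-b) * V) * (C2 / δ) :=
          mul_le_mul_of_nonneg_left hGabs (by positivity)
      _ = V * (Real.exp (-b) * (C2 / δ)) := by ring
      _ ≤ V * (c1 * δ / 2) := mul_le_mul_of_nonneg_left hexp hV0.le
  have hm3 : c₀ * N * (cV / (Real.log N) ^ 2) * (c1 * δ / 2) ≤ S1 * U1 * X - S2 * U2 * X := by
    have h1 : V * (c1 * δ / 2) * X ≤ S1 * U1 * X - S2 * U2 * X := by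
      rw [← sub_mul]
      apply mul_le_mul_of_nonneg_right _ hX0
      linarith
    refine le_trans ?_ h1
    calc c₀ * N * (cV / (Real.log N) ^ 2) * (c1 * δ / 2) ≤ X * V * (c1 * δ / 2) := by
          apply mul_le_mul_of_nonneg_right _ (by positivity)
          exact mul_le_mul hWsum hVge (by positivity) hX0
      _ = V * (c1 * δ / 2) * X := by ring
  have hm4 : c₀ * N * (cV / (Real.log N) ^ 2) * (c1 * δ / 2) = 2 * (c * (N / (Real.log N) ^ 2)) := by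
    rw [hc]; ring
  have hm5 : D ^ 3 * E0 ≤ (N : ℝ) ^ (1 - η / 4) := by
    calc D ^ 3 * E0 ≤ ((N : ℝ) ^ (η / 4)) ^ 3 * E0 :=
          mul_le_mul_of_nonneg_right (pow_le_pow_left₀ (by linarith) hDN 3) hE00
      _ = (N : ℝ) ^ (1 - η / 4) := by
          rw [hE0, ← Real.rpow_natCast, ← Real.rpow_mul hN0.le, ← Real.rpow_add hN0]
          congr 1
          push_cast
          ring
  have hm6 : 1 * D ^ 2 * (Bk k * E0) + z0 * D ^ 2 * (Bk k * E0) ≤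
      (2 * Bk k) * (N : ℝ) ^ (1 - η / 4) := by
    have hBE : 0 ≤ Bk k * E0 := mul_nonneg (hBk0 k) hE00
    calc 1 * D ^ 2 * (Bk k * E0) + z0 * D ^ 2 * (Bk k * E0)
        ≤ D * D ^ 2 * (Bk k * E0) + D * D ^ 2 * (Bk k * E0) := by
          apply add_le_add
          · exact mul_le_mul_of_nonneg_right (mul_le_mul_of_nonneg_right hD1 (by positivity)) hBE
          · exact mul_le_mul_of_nonneg_right (mul_le_mul_of_nonneg_right hz0D (by positivity)) hBE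
      _ = 2 * Bk k * (D ^ 3 * E0) := by ring
      _ ≤ (2 * Bk k) * (N : ℝ) ^ (1 - η / 4) :=
          mul_le_mul_of_nonneg_left hm5 (mul_nonneg (by norm_num) (hBk0 k))
  have hr1 := (abs_le.mp hR1).1
  have hr2 := (abs_le.mp hR2).2
  have hgoodeq : (#((Ioc N (2 * N)).filter (fun n : ℕ =>
      ArithmeticFunction.cardFactors (n ^ 2 + 1) ≤ 2 ∧
        ∀ p : ℕ, p.Prime → p ∣ (n ^ 2 + 1) * (n ^ 2 + 3) → (N : ℝ) ^ δ ≤ p)) : ℝ) =
      (#((Ioc N (2 * N)).filter good) : ℝ) := rfl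
  rw [hgoodeq]
  linarith

end Pool.Agent.Work.MP_2dba45_nt.Sv
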